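import Pool.Agent.J4H73.CP.Pt

/-! Primes `p` such that `p + h` has at most two prime factors, for all shifts. -/

set_option autoImplicit false
set_option maxHeartbeats 4000000

open Finset Filter Topology

namespace Pool.Agent.J4H73.CP

open Pool.Agent.H378R2 Pool.Agent.H378R2.LSBV Pool.Agent.N610.AP Pool.Agent.Y882
open Pool.Agent.J4H73.BV Pool.Agent.J4H73.CH Pool.Agent.J4H73.CG
open Pool.Agent.W23.DC (Mer pr SF)
open Pool.Agent

theorem int_half : ∫ x in (1243 / 10000 : ℝ)..(1667 / 5000), (1 / 2 - 0 * x) / (4969 / 10000 - x) / x =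
    1 / 2 * (1 / (4969 / 10000) * (Real.log ((4969 / 10000 - 1243 / 10000) / (1243 / 10000)) +
      Real.log ((1667 / 5000) / (4969 / 10000 - 1667 / 5000)))) := by
  have h := int_inner (1 - 4969 / 10000) (1243 / 10000) (1667 / 5000) (by norm_num) (by norm_num) (by norm_num)
  rw [show (1 : ℝ) - (1 - 4969 / 10000) = 4969 / 10000 by norm_num] at h
  rw [← h, ← intervalIntegral.integral_const_mul]
  apply intervalIntegral.integral_congr
  intro x _
  beta_reduce
  ring

theorem logs : Real.log ((4969 / 10000 - 1243 / 10000) / (1243 / 10000)) -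
      Real.log ((1667 / 5000) / (4969 / 10000 - 1667 / 5000)) =
    Real.log ((4969 / 10000 - 1243 / 10000) * (4969 / 10000 - 1667 / 5000) / ((1243 / 10000) * (1667 / 5000))) := by
  rw [← Real.log_div (by norm_num) (by norm_num)]
  norm_num

theorem fin_ineq (A0 : ℝ) (hA0 : 0 < A0) :
    1 / 2 * (kap (101 / 100000) / kap (1 / 1000) * cst * (A0 / (4969 / 10000))) <
    A0 * (Real.log (4969 / 10000 / (1243 / 10000) - 1) / (4969 / 10000) -
      ∫ x in (1243 / 10000 : ℝ)..(1667 / 5000), (1 / 2 - 0 * x) / (4969 / 10000 - x) / x) := by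
  rw [int_half]
  have h1 := logs
  have h2 := num1
  have h3 := cst_le
  have h4 := cst_pos
  have h5 := kap_ratio
  have h6 : 0 < kap (101 / 100000) / kap (1 / 1000) :=
    div_pos (kap_pos _ (by norm_num)) (kap_pos _ (by norm_num))
  have h7 : kap (101 / 100000) / kap (1 / 1000) * cst ≤ 103 / 100 * (747 / 2000) := by gcongr
  rw [show (4969 / 10000 / (1243 / 10000) - 1 : ℝ) = (4969 / 10000 - 1243 / 10000) / (1243 / 10000) by norm_num]
  set l1 := Real.log ((4969 / 10000 - 1243 / 10000) / (1243 / 10000))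
  set l2 := Real.log ((1667 / 5000) / (4969 / 10000 - 1667 / 5000))
  set R := kap (101 / 100000) / kap (1 / 1000) * cst
  have h8 : R < l1 - l2 := by
    rw [h1]
    refine lt_of_lt_of_le ?_ h2
    refine lt_of_le_of_lt h7 ?_
    norm_num
  have e1 : 1 / 2 * (R * (A0 / (4969 / 10000))) = A0 / (2 * (4969 / 10000)) * R := by ring
  have e2 : A0 * (l1 / (4969 / 10000) - 1 / 2 * (1 / (4969 / 10000) * (l1 + l2))) =
      A0 / (2 * (4969 / 10000)) * (l1 - l2) := by ring
  rw [e1, e2]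
  exact mul_lt_mul_of_pos_left h8 (by positivity)

theorem hJ2 : ∫ x in (1243 / 10000 : ℝ)..(1667 / 5000), (1 / 2 - 0 * x) / (4969 / 10000 - x) / x <
    Real.log (4969 / 10000 / (1243 / 10000) - 1) / (4969 / 10000) := by
  have h := fin_ineq 1 one_pos
  have h6 : 0 < kap (101 / 100000) / kap (1 / 1000) :=
    div_pos (kap_pos _ (by norm_num)) (kap_pos _ (by norm_num))
  have h7 : 0 < 1 / 2 * (kap (101 / 100000) / kap (1 / 1000) * cst * (1 / (4969 / 10000))) := by
    have := cst_pos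
    positivity
  rw [one_mul] at h
  linarith

open Classical in
theorem p2Z : ∀ δ₁ : ℝ, 0 < δ₁ → ∃ c : ℝ, 0 < c ∧ ∀ᶠ X : ℝ in atTop, ∀ h : ℤ, 2 ∣ h →
      HPs (1 / 1000) (101 / 100000) X h →
      X ^ (9 / 10 : ℝ) ≤ (((Icc 1 ⌊3 * X⌋₊).filter (fun n : ℕ => X < n ∧ n.Prime ∧
        CH.AP 2 (12 / 100) X ((n : ℤ) + h).natAbs ∧
        ∀ z : ℤ, |(z : ℝ)| ≤ c * CH.RR X → z ≠ 0 → z ≠ h →
          ∃ q : ℕ, q.Prime ∧ (q : ℝ) ≤ X ^ δ₁ ∧ (q : ℤ) ∣ n + z)).card : ℝ) := by
  obtain ⟨A0, F, f, hSF⟩ := Pool.Agent.W366.DC.SFX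
  obtain ⟨C0, hT1⟩ := TT_h1
  obtain ⟨C1, hT1'⟩ := TGL_h1 (1 / 1000) (by norm_num) (by norm_num)
  have hPAR : PAR (1243 / 10000) (1667 / 5000) := ⟨by norm_num, by norm_num, by norm_num, by norm_num⟩
  have hT1'' := TQ_h1 (1243 / 10000) (1667 / 5000) (101 / 100000) hPAR (by norm_num) (by norm_num)
  refine assembleZ A0 F f hSF (1 / 1000) (by norm_num) (by norm_num) (4969 / 10000) (1243 / 10000) (1667 / 5000)
    (1 / 2) 0 (497 / 1000)
    (by norm_num) (by norm_num) (by norm_num) (by norm_num) (by norm_num) (by norm_num) (by norm_num)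
    (by norm_num) le_rfl (by norm_num) hJ2 (by norm_num) le_rfl 20 (2 ^ (20 + 1) + 20 + 1) le_rfl le_rfl
    (fun X f => TT X f + TG (1 / 1000) X (fun n => ArithmeticFunction.vonMangoldt n) f +
      TQ (1243 / 10000) (1667 / 5000) (101 / 100000) X f)
    (fun X f => add_nonneg (add_nonneg (TT_nonneg X f) (TG_nonneg _ _ _ _)) (TQ_nonneg _ _ _ _ _))
    (fun X f => by
      have h1 := TG_nonneg (1 / 1000) X (fun n => ArithmeticFunction.vonMangoldt n) f
      have h2 := TQ_nonneg (1243 / 10000) (1667 / 5000) (101 / 100000) X f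
      linarith)
    (fun X f => by
      have h1 := TT_nonneg X f
      have h2 := TQ_nonneg (1243 / 10000) (1667 / 5000) (101 / 100000) X f
      linarith) 8 (C0 + C1 + 5000) ?_ ?_ ?_
    (HPs (1 / 1000) (101 / 100000))
    (Filter.Eventually.of_forall fun X h hh => hh.1) (CH.AP 2 (12 / 100)) (Sw (1243 / 10000) (1667 / 5000)) (1 / 2)
    (kap (101 / 100000) / kap (1 / 1000) * cst * (A0 / (4969 / 10000))) (by norm_num) hpt2 ?_
    (fin_ineq A0 hSF.pos)
  · filter_upwards [hT1, hT1', hT1''] with X h1 h2 h3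
    rw [sum_add_distrib, sum_add_distrib]
    calc _ ≤ _ := add_le_add (add_le_add h1 h2) h3
      _ = _ := by ring
  · intro Z'
    filter_upwards [sc_log Z', TT_h2', TGL_h2 (1 / 1000) (by norm_num) (by norm_num),
      TQ_h2 (1243 / 10000) (1667 / 5000) (101 / 100000) hPAR (by norm_num) (by norm_num), ev_exp6 92,
      eventually_gt_atTop 0]
      with X h1 h2 h3 h3' h4 h5
    obtain ⟨fs, g1, g2⟩ := h1
    refine ⟨fs, g1, fun f _ k2 k3 k4 => ?_⟩
    have hs : SCf X f := fun ψ hψ => g2 f k2 k3 k4 ψ hψ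
    have a1 := h2 f k2 k3 hs
    have a2 := h3 f k2 k3 hs
    have a3 := h3' f k2 k3 hs
    set lam := Real.log (Real.log X)
    have a4 : 92 * (X * Real.exp (lam ^ 6 - lam ^ 7)) ≤ X * Real.exp (2 * lam ^ 6 - lam ^ 7) := by
      calc 92 * (X * Real.exp (lam ^ 6 - lam ^ 7)) ≤ Real.exp (lam ^ 6) * (X * Real.exp (lam ^ 6 - lam ^ 7)) :=
            mul_le_mul_of_nonneg_right h4 (by positivity)
        _ = X * (Real.exp (lam ^ 6) * Real.exp (lam ^ 6 - lam ^ 7)) := by ring
        _ = _ := by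
            rw [← Real.exp_add]
            congr 2
            ring
    have a5 : 0 ≤ X * Real.exp (lam ^ 6 - lam ^ 7) := by positivity
    have a6 : 1 / 3 * X * Real.exp (2 * lam ^ 6 - lam ^ 7) = 1 / 3 * (X * Real.exp (2 * lam ^ 6 - lam ^ 7)) := by ring
    rw [a6] at a3
    linarith
  · filter_upwards [TT_large, TGL_h3 (1 / 1000) (by norm_num) (by norm_num),
      TQ_h3 (1243 / 10000) (1667 / 5000) (101 / 100000) hPAR (by norm_num) (by norm_num), eventually_ge_atTop 1,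
      (tendsto_rpow_atTop (show (0 : ℝ) < 1 / 20000 by norm_num)).eventually_ge_atTop 3] with X g1 g2 g2' g3 g4
    intro F0 F1 h1 h2 h3
    have a1 := g1 F0 F1 h1 h2 h3
    have a2 := g2 F0 F1 h1 h2 h3
    have a3 := g2' F0 F1 h1 h2 h3
    have e : ∑ f ∈ Icc F0 F1, (1 / (f : ℝ)) *
        (TT X f + TG (1 / 1000) X (fun n => ArithmeticFunction.vonMangoldt n) f +
          TQ (1243 / 10000) (1667 / 5000) (101 / 100000) X f) =
        ∑ f ∈ Icc F0 F1, (1 / (f : ℝ)) * TT X f +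
        ∑ f ∈ Icc F0 F1, (1 / (f : ℝ)) * TG (1 / 1000) X (fun n => ArithmeticFunction.vonMangoldt n) f +
        ∑ f ∈ Icc F0 F1, (1 / (f : ℝ)) * TQ (1243 / 10000) (1667 / 5000) (101 / 100000) X f := by
      rw [← sum_add_distrib, ← sum_add_distrib]
      exact sum_congr rfl fun f _ => by ring
    rw [e]
    have hX0 : 0 < X := by linarith
    calc _ ≤ 3 * X ^ (1997 / 2000 : ℝ) := by linarith
      _ ≤ X ^ (1 / 20000 : ℝ) * X ^ (1997 / 2000 : ℝ) := mul_le_mul_of_nonneg_right g4 (by positivity)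
      _ = X ^ (19971 / 20000 : ℝ) := by rw [← Real.rpow_add hX0]; norm_num
  · intro θ hθ
    obtain ⟨ε₀, hε₀, H⟩ := hswS A0 F f hSF (1 / 1000) (101 / 100000) (by norm_num) (by norm_num) (by norm_num)
      (by norm_num) 20 (2 ^ (20 + 1) + 20 + 1) (by norm_num) _ rfl θ hθ
    refine ⟨ε₀, hε₀, fun ε₁ h1 h2 => ?_⟩
    obtain ⟨Zs, H⟩ := H ε₁ h1 h2
    refine ⟨Zs, ?_⟩
    filter_upwards [H] with X H
    intro ps S hps hS hpairs h r hh _ hr hrh
    refine H ps S hps hS ?_ h r hh hr hrh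
    refine le_trans (sum_le_sum fun p _ => mul_le_mul_of_nonneg_left ?_ (wt_nonneg 20 _)) hpairs
    have h1 := TG_nonneg (1 / 1000) X (fun n => ArithmeticFunction.vonMangoldt n) (p.1 * p.2)
    have h2 := TT_nonneg X (p.1 * p.2)
    linarith

end Pool.Agent.J4H73.CP
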