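import Pool.Agent.J4H73.CP.Fin2

/-! The final form for two prime factors and all even shifts up to `N / 10 ^ 6`. -/

set_option autoImplicit false

open Finset Filter

namespace Pool.Agent.J4H73.CP

open Pool.Agent.J4H73.CG Pool.Agent

open Classical in
theorem gap2L (δ : ℝ) (hδ : 0 < δ) : ∃ c : ℝ, 0 < c ∧ ∃ N₀ : ℕ, ∀ N : ℕ, N₀ ≤ N → ∀ h : ℤ, 2 ∣ h → h ≠ 0 →
    |(h : ℝ)| ≤ N / 1000000 →
      (N : ℝ) ^ (9 / 10 : ℝ) ≤ Set.ncard {p : ℕ | N < p ∧ p ≤ 3 * N ∧ p.Prime ∧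
        Alm 2 ((N : ℝ) ^ (3 / 25 : ℝ)) (p + h) ∧
        ∀ z : ℤ, |(z : ℝ) - p| ≤ c * rankin N → z ≠ p → z ≠ p + h →
          ∃ q : ℕ, q.Prime ∧ (q : ℝ) ≤ (N : ℝ) ^ δ ∧ (q : ℤ) ∣ z} := by
  obtain ⟨c, hc, H⟩ := p2Z δ hδ
  obtain ⟨N0, hN0⟩ := eventually_atTop.1 (tendsto_natCast_atTop_atTop.eventually
    (H.and (RR_eq.and (eventually_ge_atTop (1 : ℝ)))))
  refine ⟨c, hc, N0, fun N hN h h2 h0 hh => ?_⟩
  obtain ⟨g1, g2, g3⟩ := hN0 N hN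
  rw [g2] at g1
  refine (g1 h h2 (HPs_small N g3 h h0 hh)).trans ?_
  rw [← Set.ncard_coe_finset]
  have hfin : {p : ℕ | N < p ∧ p ≤ 3 * N ∧ p.Prime ∧ Alm 2 ((N : ℝ) ^ (3 / 25 : ℝ)) (p + h) ∧
        ∀ z : ℤ, |(z : ℝ) - p| ≤ c * rankin N → z ≠ p → z ≠ p + h →
          ∃ q : ℕ, q.Prime ∧ (q : ℝ) ≤ (N : ℝ) ^ δ ∧ (q : ℤ) ∣ z}.Finite :=
    (Set.finite_Iic (3 * N)).subset fun p hp => hp.2.1
  have hle : ((((Icc 1 ⌊3 * (N : ℝ)⌋₊).filter (fun n : ℕ => (N : ℝ) < n ∧ n.Prime ∧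
        CH.AP 2 (12 / 100) N ((n : ℤ) + h).natAbs ∧
        ∀ z : ℤ, |(z : ℝ)| ≤ c * rankin N → z ≠ 0 → z ≠ h →
          ∃ q : ℕ, q.Prime ∧ (q : ℝ) ≤ (N : ℝ) ^ δ ∧ (q : ℤ) ∣ n + z) : Finset ℕ) : Set ℕ)).ncard ≤
      Set.ncard {p : ℕ | N < p ∧ p ≤ 3 * N ∧ p.Prime ∧ Alm 2 ((N : ℝ) ^ (3 / 25 : ℝ)) (p + h) ∧
        ∀ z : ℤ, |(z : ℝ) - p| ≤ c * rankin N → z ≠ p → z ≠ p + h →
          ∃ q : ℕ, q.Prime ∧ (q : ℝ) ≤ (N : ℝ) ^ δ ∧ (q : ℤ) ∣ z} := by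
    apply Set.ncard_le_ncard _ hfin
    intro p hp
    rw [mem_coe, mem_filter, mem_Icc] at hp
    obtain ⟨⟨hp1, hp2⟩, hp3, hp4, hp5, hp6⟩ := hp
    have h3N : ⌊3 * (N : ℝ)⌋₊ = 3 * N := by
      have : (3 * (N : ℝ)) = ((3 * N : ℕ) : ℝ) := by push_cast; ring
      rw [this, Nat.floor_natCast]
    refine ⟨by exact_mod_cast hp3, by rw [← h3N]; exact hp2, hp4, ⟨hp5.1, ?_⟩, ?_⟩
    · intro q hq hqd
      have h7 := hp5.2 q hq ((dvd_natAbs_iff q _).2 hqd)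
      have e : (3 / 25 : ℝ) = 12 / 100 := by norm_num
      rw [e]
      exact h7
    · intro z hz1 hz2 hz3
      obtain ⟨q, hq1, hq2, hq3⟩ := hp6 (z - p) (by push_cast; exact hz1) (sub_ne_zero.2 hz2) (by
        intro h4
        apply hz3
        linarith)
      refine ⟨q, hq1, hq2, ?_⟩
      have : (p : ℤ) + (z - p) = z := by ring
      rwa [this] at hq3
  exact_mod_cast hle

end Pool.Agent.J4H73.CP
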