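import Mathlib

/-! Numerical facts. -/

set_option autoImplicit false

namespace Pool.Agent.J4H73.CP

/-- a Pade bound for the logarithm -/
theorem pade (t : ℝ) (ht : 0 ≤ t) : Real.log (1 + t) ≤ t * (6 + t) / (6 + 4 * t) := by
  have hmono : MonotoneOn (fun t : ℝ => t * (6 + t) / (6 + 4 * t) - Real.log (1 + t)) (Set.Ici 0) := by
    have hd : ∀ x : ℝ, 0 ≤ x → HasDerivAt (fun t : ℝ => t * (6 + t) / (6 + 4 * t) - Real.log (1 + t))
        (((1 * (6 + x) + x * 1) * (6 + 4 * x) - x * (6 + x) * (4 * 1)) / (6 + 4 * x) ^ 2 - 1 / (1 + x)) x := by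
      intro x hx
      have h1 : HasDerivAt (fun t : ℝ => t * (6 + t)) (1 * (6 + x) + x * 1) x :=
        (hasDerivAt_id x).mul ((hasDerivAt_id x).const_add 6)
      have h2 : HasDerivAt (fun t : ℝ => 6 + 4 * t) (4 * 1) x :=
        ((hasDerivAt_id x).const_mul 4).const_add 6
      have h3 := h1.div h2 (by positivity)
      have h4 : HasDerivAt (fun t : ℝ => Real.log (1 + t)) (1 / (1 + x)) x := by
        have := ((hasDerivAt_id x).const_add 1).log (show (1 + id x) ≠ 0 by simp only [id]; positivity)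
        simpa using this
      exact h3.sub h4
    apply monotoneOn_of_deriv_nonneg (convex_Ici 0)
    · intro x hx
      exact (hd x hx).continuousAt.continuousWithinAt
    · intro x hx
      rw [interior_Ici] at hx
      exact (hd x hx.le).differentiableAt.differentiableWithinAt
    · intro x hx
      rw [interior_Ici] at hx
      have hx0 : 0 < x := hx
      rw [(hd x hx0.le).deriv, div_sub_div _ _ (by positivity) (by positivity)]
      apply div_nonneg _ (by positivity)
      have : ((1 * (6 + x) + x * 1) * (6 + 4 * x) - x * (6 + x) * (4 * 1)) * (1 + x) - (6 + 4 * x) ^ 2 * 1 =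
        4 * x ^ 3 := by ring
      rw [this]
      positivity
  have h0 := hmono (Set.mem_Ici.2 le_rfl) (Set.mem_Ici.2 ht) ht
  simp at h0
  linarith

/-- the majorant -/
noncomputable def pq (x : ℝ) : ℝ := 301 / 500 + 51 / 100 * x - 171 / 25 * x ^ 2

theorem pq_bound (x : ℝ) (h1 : 1243 / 10000 ≤ x) (h2 : x ≤ 1667 / 5000) :
    1 / (1 - x) * (Real.log ((1 - x - 1667 / 5000) / (1667 / 5000)) +
      Real.log (((1 - x) / 2 + 1 / 5000) / ((1 - x) / 2 - 1 / 5000))) ≤ pq x := by
  have h3 : 0 < 1 - x := by linarith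
  rw [one_div, inv_mul_le_iff₀ h3]
  have hs : Real.log (((1 - x) / 2 + 1 / 5000) / ((1 - x) / 2 - 1 / 5000)) ≤ 121 / 100000 := by
    have h4 : 0 < (1 - x) / 2 - 1 / 5000 := by linarith
    refine (Real.log_le_sub_one_of_pos (by positivity)).trans ?_
    rw [sub_le_iff_le_add, div_le_iff₀ h4]
    linarith
  rcases le_total (1 - x - 1667 / 5000) (1667 / 5000) with hc | hc
  · have h5 : Real.log ((1 - x - 1667 / 5000) / (1667 / 5000)) ≤ 0 := by
      apply Real.log_nonpos
      · apply div_nonneg (by linarith) (by norm_num)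
      · rw [div_le_one (by norm_num)]
        exact hc
    have h6 : (121 / 100000 : ℝ) ≤ (1 - x) * pq x := by
      unfold pq
      nlinarith
    linarith
  · obtain ⟨t, ht⟩ : ∃ t : ℝ, t = (1 - x - 1667 / 5000) / (1667 / 5000) - 1 := ⟨_, rfl⟩
    have ht0 : 0 ≤ t := by
      rw [ht, sub_nonneg, one_le_div (by norm_num)]
      exact hc
    have h5 : (1 - x - 1667 / 5000) / (1667 / 5000) = 1 + t := by rw [ht]; ring
    rw [h5]
    have h6 := pade t ht0
    have hx : x = 1 - 1667 / 5000 - (1 + t) * (1667 / 5000) := by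
      rw [ht]; ring
    have h7 : t * (6 + t) / (6 + 4 * t) + 121 / 100000 ≤ (1 - x) * pq x := by
      rw [← le_sub_iff_add_le, div_le_iff₀ (by positivity)]
      have hx1 : t ≤ 6268 / 10000 := by
        rw [hx] at h1
        linarith
      unfold pq
      rw [hx]
      have p1 : 0 ≤ 6268 / 10000 - t := by linarith
      have a0 := mul_nonneg ht0 p1
      have a1 := mul_nonneg a0 ht0
      have a2 := mul_nonneg a0 p1
      have a3 := mul_nonneg a0 a0
      have a4 := mul_nonneg a1 ht0
      have a5 := mul_nonneg a2 p1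
      nlinarith [pow_nonneg p1 4, pow_nonneg ht0 4, pow_nonneg p1 3, pow_nonneg ht0 3, pow_nonneg p1 2, pow_nonneg ht0 2]
    linarith

theorem num1 : 77 / 200 ≤ Real.log ((4969 / 10000 - 1243 / 10000) * (4969 / 10000 - 1667 / 5000) /
    ((1243 / 10000) * (1667 / 5000))) := by
  have h2 := Real.log_two_gt_d9
  obtain ⟨r, hr⟩ : ∃ r : ℝ, r = (4969 / 10000 - 1243 / 10000) * (4969 / 10000 - 1667 / 5000) /
    ((1243 / 10000) * (1667 / 5000)) := ⟨_, rfl⟩
  rw [← hr]
  have hr1 : (147 / 100 : ℝ) ≤ r := by rw [hr]; norm_num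
  have h3 : Real.log (147 / 100) ≤ Real.log r := Real.log_le_log (by norm_num) hr1
  have h4 : Real.log (147 / 100) = Real.log 2 - Real.log (1 + 53 / 147) := by
    rw [← Real.log_div (by norm_num) (by norm_num)]
    norm_num
  have h5 := pade (53 / 147) (by norm_num)
  norm_num at h2 h5 ⊢
  linarith

theorem num2 : Real.log ((1667 / 5000) / (1243 / 10000)) ≤ 9869 / 10000 := by
  have h2 := Real.log_two_lt_d9
  have h4 : Real.log ((1667 / 5000) / (1243 / 10000)) = Real.log 2 + Real.log (1 + 424 / 1243) := by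
    rw [← Real.log_mul (by norm_num) (by norm_num)]
    norm_num
  have h5 := pade (424 / 1243) (by norm_num)
  rw [h4]
  norm_num at h2 h5 ⊢
  linarith

end Pool.Agent.J4H73.CP
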