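import Pool.Agent.J4H73.CP.Swap
import Pool.Agent.J4H73.CG.ExcZ

/-! The discrepancies of the switched sequence. -/

set_option autoImplicit false
set_option maxHeartbeats 4000000

open Finset Filter Topology

namespace Pool.Agent.J4H73.CP

open Pool.Agent.Helper112 Pool.Agent.Helper112.BLB Pool.Agent.H410R2 Pool.Agent.H398R2.BV
open Pool.Agent.H378R2 Pool.Agent.H378R2.LSBV Pool.Agent.J4H73.CG Pool.Agent.J4H73.CH

/-- few large prime factors -/
theorem few (k : ℕ) (hk : 1 ≤ k) (z : ℝ) (hz : 3 ≤ z) :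
    ((k.primeFactors.filter (fun p : ℕ => z ≤ (p : ℝ))).card : ℝ) ≤ Real.log k := by
  refine le_trans ?_ (sum_log_primeFactors k hk)
  calc ((k.primeFactors.filter (fun p : ℕ => z ≤ (p : ℝ))).card : ℝ) =
      ∑ p ∈ k.primeFactors.filter (fun p : ℕ => z ≤ (p : ℝ)), (1 : ℝ) := by simp
    _ ≤ ∑ p ∈ k.primeFactors.filter (fun p : ℕ => z ≤ (p : ℝ)), Real.log p := by
        apply sum_le_sum
        intro p hp
        rw [mem_filter] at hp
        rw [Real.le_log_iff_exp_le (by linarith [hp.2])]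
        have := Real.exp_one_lt_d9
        linarith [hp.2]
    _ ≤ _ := sum_le_sum_of_subset_of_nonneg (filter_subset _ _) fun p _ _ => Real.log_natCast_nonneg p

theorem count_mult (N p : ℕ) : (((Icc 1 N).filter (fun u => p ∣ u)).card : ℝ) ≤ N / p := by
  have h : (Icc 1 N).filter (fun u => p ∣ u) = (Ioc 0 N).filter (fun u => p ∣ u) := by
    congr 1
  rw [h, Nat.Ioc_filter_dvd_card_eq_div]
  exact Nat.cast_div_le

/-- the sum over multiples of large primes -/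
theorem sum_bad (a : ℕ → ℝ) (N : ℕ) (B z : ℝ) (hB : 0 ≤ B) (hz : 0 < z)
    (ha : ∀ u ∈ Icc 1 N, 0 ≤ a u ∧ a u ≤ B) (PH : Finset ℕ) (hPH : ∀ p ∈ PH, z ≤ (p : ℝ)) (S : Finset ℕ)
    (hS : S ⊆ Icc 1 N) (hSp : ∀ u ∈ S, a u ≠ 0 → ∃ p ∈ PH, p ∣ u) :
    ∑ u ∈ S, a u ≤ PH.card * (B * (N / z)) := by
  have h1 : ∀ u ∈ S, a u ≤ ∑ p ∈ PH, if p ∣ u then B else 0 := by
    intro u hu
    by_cases h0 : a u = 0
    · rw [h0]
      exact sum_nonneg fun p _ => by split_ifs <;> linarith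
    · obtain ⟨p, hp, hpu⟩ := hSp u hu h0
      have h2 := single_le_sum (f := fun p => if p ∣ u then B else (0 : ℝ))
        (fun p _ => by split_ifs <;> linarith) hp
      rw [if_pos hpu] at h2
      exact (ha u (hS hu)).2.trans h2
  refine (sum_le_sum h1).trans ?_
  rw [sum_comm]
  calc _ ≤ ∑ p ∈ PH, B * (N / z) := by
        apply sum_le_sum
        intro p hp
        have hp0 : (0 : ℝ) < p := lt_of_lt_of_le hz (hPH p hp)
        calc ∑ u ∈ S, (if p ∣ u then B else 0) ≤ ∑ u ∈ Icc 1 N, (if p ∣ u then B else 0) :=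
              sum_le_sum_of_subset_of_nonneg hS fun u _ _ => by split_ifs <;> linarith
          _ = ((Icc 1 N).filter (fun u => p ∣ u)).card * B := by
              rw [← sum_filter, sum_const, nsmul_eq_mul]
          _ ≤ (N / p) * B := mul_le_mul_of_nonneg_right (count_mult N p) hB
          _ ≤ (N / z) * B := by
              apply mul_le_mul_of_nonneg_right _ hB
              exact div_le_div_of_nonneg_left (Nat.cast_nonneg N) hz (hPH p hp)
          _ = _ := mul_comm _ _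
    _ = _ := by rw [sum_const, nsmul_eq_mul]

/-- the primes of `W` are small -/
theorem cop_WW (ζ υ d X : ℝ) (hP : PAR ζ υ) (h : YF X) (hd0 : 0 ≤ d) (hd : d ≤ 1 / 2)
    (hz : (yy X : ℝ) < (⌊X⌋₊ : ℝ) ^ ζ) (S : Finset ℕ) (ps : ℕ) (u : ℕ)
    (hu : (u : ℝ) ≤ 3 * X) (hau : aS ζ υ d X u ≠ 0) : u.Coprime (H378R2.WW X S ps) := by
  rw [Nat.coprime_iff_gcd_eq_one, Nat.eq_one_iff_not_exists_prime_dvd]
  intro p hp hpg
  have h1 : p ∣ u := hpg.trans (Nat.gcd_dvd_left _ _)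
  have h2 : p ∣ primorial (yy X) := (hpg.trans (Nat.gcd_dvd_right _ _)).trans (WW_dvd_primorial X S ps)
  have h3 : p ≤ yy X := (Nat.Prime.dvd_primorial_iff hp).1 h2
  have h4 := (aS_facts ζ υ d X hP h hd0 hd u hu).2.2 hau p hp h1
  have h5 : (p : ℝ) ≤ yy X := by exact_mod_cast h3
  linarith

theorem ev_z (ζ : ℝ) (hζ : 3 / 25 ≤ ζ) : ∀ᶠ X : ℝ in atTop, (yy X : ℝ) < (⌊X⌋₊ : ℝ) ^ ζ ∧
    X ^ (119 / 1000 : ℝ) ≤ (⌊X⌋₊ : ℝ) ^ ζ ∧ 3 ≤ (⌊X⌋₊ : ℝ) ^ ζ ∧ 100 * (Real.log X) ^ 5 ≤ X ^ (1 / 1000 : ℝ) := by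
  filter_upwards [ev_YF, ev_log 1 1 (119 / 1000) (by norm_num), ev_log 100 5 (1 / 1000) (by norm_num)]
    with X hY h1 h2
  have hX0 : 0 < X := by linarith [hY.X4]
  have hX1 : 1 ≤ X := by linarith [hY.X4]
  have h3 : X ^ (119 / 1000 : ℝ) ≤ (⌊X⌋₊ : ℝ) ^ ζ := by
    refine le_trans ?_ (rpow_Y X hY ζ (by linarith)).2
    exact Real.rpow_le_rpow_of_exponent_le hX1 (by linarith)
  rw [pow_one, one_mul] at h1
  have hL := hY.L100
  refine ⟨?_, h3, by linarith, h2⟩
  have e1 : (yy X : ℝ) ≤ Real.log X / 1000 := Nat.floor_le (by positivity)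
  linarith

theorem count_class2 (N m b p : ℕ) (hb : b.Coprime m) (hp : p.Prime) (hm : 0 < m) :
    (((Icc 1 N).filter (fun u => u ≡ b [MOD m] ∧ p ∣ u)).card : ℝ) ≤ N / ((p * m : ℕ) : ℝ) + 1 := by
  by_cases hpm : p ∣ m
  · have e : (Icc 1 N).filter (fun u => u ≡ b [MOD m] ∧ p ∣ u) = ∅ := by
      rw [filter_eq_empty_iff]
      rintro u _ ⟨h1, h2⟩
      have h3 : u ≡ b [MOD p] := h1.of_dvd hpm
      have h4 : p ∣ b := (h3.dvd_iff dvd_rfl).1 h2
      have h5 : p ∣ Nat.gcd b m := Nat.dvd_gcd h4 hpm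
      rw [hb] at h5
      exact hp.one_lt.ne' (Nat.dvd_one.1 h5)
    rw [e, card_empty]
    push_cast
    positivity
  · have hc : p.Coprime m := (Nat.Prime.coprime_iff_not_dvd hp).2 hpm
    obtain ⟨c, hc1, hc2⟩ := Nat.chineseRemainder hc 0 b
    have h1 := Pool.Agent.Helper112.TII.count_class 0 N (p * m) c (Nat.mul_pos hp.pos hm) (Nat.zero_le N)
    have e : (Icc 1 N).filter (fun u => u ≡ b [MOD m] ∧ p ∣ u) ⊆ (Ioc 0 N).filter (fun u => u ≡ c [MOD p * m]) := by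
      intro u hu
      rw [mem_filter, mem_Icc] at hu
      rw [mem_filter, mem_Ioc]
      refine ⟨⟨by omega, hu.1.2⟩, ?_⟩
      rw [← Nat.modEq_and_modEq_iff_modEq_mul hc]
      exact ⟨((Nat.modEq_zero_iff_dvd.2 hu.2.2)).trans hc1.symm, hu.2.1.trans hc2.symm⟩
    have h2 : (((Icc 1 N).filter (fun u => u ≡ b [MOD m] ∧ p ∣ u)).card : ℝ) ≤
        (((Ioc 0 N).filter (fun u => u ≡ c [MOD p * m])).card : ℝ) := by exact_mod_cast card_le_card e
    refine h2.trans ?_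
    simpa using h1

/-- the sum over multiples of large primes in a class -/
theorem sum_bad_class (a : ℕ → ℝ) (N m b : ℕ) (hb : b.Coprime m) (hm : 0 < m) (B z : ℝ) (hB : 0 ≤ B) (hz : 0 < z)
    (ha : ∀ u ∈ Icc 1 N, 0 ≤ a u ∧ a u ≤ B) (PH : Finset ℕ) (hPH : ∀ p ∈ PH, p.Prime ∧ z ≤ (p : ℝ)) :
    ∑ u ∈ (Icc 1 N).filter (fun u => u ≡ b [MOD m] ∧ ∃ p ∈ PH, p ∣ u), a u ≤
      PH.card * (B * (N / (z * m) + 1)) := by
  have hm0 : (0 : ℝ) < m := by exact_mod_cast hm
  have h1 : ∀ u ∈ (Icc 1 N).filter (fun u => u ≡ b [MOD m] ∧ ∃ p ∈ PH, p ∣ u), a u ≤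
      ∑ p ∈ PH, if u ≡ b [MOD m] ∧ p ∣ u then B else 0 := by
    intro u hu
    rw [mem_filter] at hu
    obtain ⟨hu1, hu2, p, hp, hpu⟩ := hu
    have h2 := single_le_sum (f := fun p => if u ≡ b [MOD m] ∧ p ∣ u then B else (0 : ℝ))
      (fun p _ => by split_ifs <;> linarith) hp
    rw [if_pos ⟨hu2, hpu⟩] at h2
    exact (ha u hu1).2.trans h2
  refine (sum_le_sum h1).trans ?_
  rw [sum_comm]
  calc _ ≤ ∑ p ∈ PH, B * (N / (z * m) + 1) := by
        apply sum_le_sum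
        intro p hp
        obtain ⟨hpp, hpz⟩ := hPH p hp
        calc _ ≤ ∑ u ∈ Icc 1 N, (if u ≡ b [MOD m] ∧ p ∣ u then B else 0) :=
              sum_le_sum_of_subset_of_nonneg (filter_subset _ _) fun u _ _ => by split_ifs <;> linarith
          _ = ((Icc 1 N).filter (fun u => u ≡ b [MOD m] ∧ p ∣ u)).card * B := by
              rw [← sum_filter, sum_const, nsmul_eq_mul]
          _ ≤ (N / ((p * m : ℕ) : ℝ) + 1) * B :=
              mul_le_mul_of_nonneg_right (count_class2 N m b p hb hpp hm) hB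
          _ ≤ (N / (z * m) + 1) * B := by
              apply mul_le_mul_of_nonneg_right _ hB
              apply add_le_add_left
              apply div_le_div_of_nonneg_left (Nat.cast_nonneg N) (by positivity)
              push_cast
              exact mul_le_mul_of_nonneg_right hpz hm0.le
          _ = _ := mul_comm _ _
    _ = _ := by rw [sum_const, nsmul_eq_mul]

open Classical in
/-- the discrepancies of the switched sequence -/
theorem discS (ζ υ d : ℝ) (hP : PAR ζ υ) (hd0 : 0 ≤ d) (hd : d ≤ 1 / 2) (A N : ℕ) : ∀ᶠ X : ℝ in atTop,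
    ∀ (ps : ℕ) (S : Finset ℕ),
    ∑ p ∈ pairs X ps ⌊X ^ (497 / 1000 : ℝ)⌋₊ S, LSBV.wt A p.2 * TQ ζ υ d X (p.1 * p.2) ≤ X / (Real.log X) ^ N →
    ∀ (PH : Finset ℕ), (∀ p ∈ PH, p.Prime ∧ (⌊X⌋₊ : ℝ) ^ ζ ≤ p) → (PH.card : ℝ) ≤ 4 * Real.log X →
    ∀ b : ℕ → ℕ, (∀ q, 1 ≤ q → (b q).Coprime (H378R2.WW X S ps * q)) →
    ∑ q ∈ QQ (H378R2.WW X S ps) ps ⌊X ^ (497 / 1000 : ℝ)⌋₊,
      |∑ u ∈ (Icc 1 ⌊3 * X⌋₊).filter (fun u => u ≡ b q [MOD H378R2.WW X S ps * q]),
          (if ∃ p ∈ PH, p ∣ u then 0 else aS ζ υ d X u) -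
        MS ζ υ d X / (Nat.totient (H378R2.WW X S ps * q) : ℝ)| ≤
      (X / (Real.log X) ^ N + X ^ (9 / 10 : ℝ)) / (Nat.totient (H378R2.WW X S ps) : ℝ) := by
  filter_upwards [ev_YF, ev_z ζ hP.z] with X hY hz
  intro ps S hpairs PH hPH hPHc b hb
  obtain ⟨z1, z2, z3, z4⟩ := hz
  have hX0 : 0 < X := by linarith [hY.X4]
  have hX1 : 1 ≤ X := by linarith [hY.X4]
  have hL1 : 1 ≤ Real.log X := by linarith [hY.L100]
  set L := Real.log X with hL
  set z := (⌊X⌋₊ : ℝ) ^ ζ with hzdef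
  have hz0 : 0 < z := by linarith
  set W := H378R2.WW X S ps with hW
  have hW0 : 0 < W := H378R2.WW_pos X S ps
  set R := ⌊X ^ (497 / 1000 : ℝ)⌋₊ with hR
  have hRX : (R : ℝ) ≤ X ^ (497 / 1000 : ℝ) := Nat.floor_le (by positivity)
  set N3 := ⌊3 * X⌋₊ with hN3
  have hN3X : (N3 : ℝ) ≤ 3 * X := Nat.floor_le (by positivity)
  set a := aS ζ υ d X with ha
  set M := MS ζ υ d X with hM
  have hfacts : ∀ u ∈ Icc 1 N3, 0 ≤ a u ∧ a u ≤ 2 * L := by
    intro u hu
    rw [mem_Icc] at hu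
    have h1 := aS_facts ζ υ d X hP hY hd0 hd u ((Nat.le_floor_iff (by linarith)).1 hu.2)
    exact ⟨h1.1, h1.2.1⟩
  have hφW : (0 : ℝ) < Nat.totient W := by exact_mod_cast Nat.totient_pos.mpr hW0
  have hφWX : (Nat.totient W : ℝ) ≤ X ^ (7 / 5000 : ℝ) := by
    have h1 : (W : ℝ) ≤ X ^ (7 / 5000 : ℝ) :=
      le_trans (by exact_mod_cast Nat.le_of_dvd (primorial_pos _) (WW_dvd_primorial X S ps))
        (BV.primorial_yy_le' X hX1)
    exact le_trans (by exact_mod_cast Nat.totient_le W) h1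
  -- the main part
  set T : ℕ → ℕ → ℝ := fun g f => ∑ ψ ∈ Prim f, ‖BLB.A N3 (res g a) f ψ‖ with hT
  have hT0 : ∀ g f, 0 ≤ T g f := fun g f => sum_nonneg fun _ _ => norm_nonneg _
  have hirr : ∀ f1, f1 ∣ W → ∀ k f, T (W / f1 * k) f ≤ T k f := by
    intro f1 hf1 k f
    apply le_of_eq
    simp only [hT]
    apply sum_congr rfl
    intro ψ _
    congr 1
    unfold BLB.A
    apply sum_congr rfl
    intro u hu
    rw [mem_Icc] at hu
    have e : res (W / f1 * k) a u = res k a u := by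
      by_cases h0 : a u = 0
      · unfold res
        rw [h0]
        simp
      · have hc := cop_WW ζ υ d X hP hY hd0 hd z1 S ps u ((Nat.le_floor_iff (by linarith)).1 hu.2) h0
        have hc2 : u.Coprime (W / f1) := hc.coprime_dvd_right (Nat.div_dvd_of_dvd hf1)
        unfold res
        have h7 : u.Coprime (W / f1 * k) ↔ u.Coprime k := by
          rw [Nat.coprime_mul_iff_right]
          exact ⟨fun h => h.2, fun h => ⟨hc2, h⟩⟩
        simp only [h7]
    rw [e]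
  have s1 := swapG T hT0 W ps R hW0 hirr
  have s2 : ∑ p ∈ (W.divisors ×ˢ QQ W ps R).filter (fun p => p.1 * p.2 ≠ 1),
        LSBV.wt 0 p.2 * ∑ k ∈ Icc 1 R, LSBV.wt 0 k * T k (p.1 * p.2) ≤ X / L ^ N := by
    refine le_trans ?_ hpairs
    unfold pairs
    apply sum_le_sum
    intro p hp
    rw [mem_filter, mem_product, mem_QQ] at hp
    have hwt : LSBV.wt 0 p.2 ≤ LSBV.wt A p.2 := by
      unfold LSBV.wt
      apply div_le_div_of_nonneg_right _ (Nat.cast_nonneg _)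
      rw [pow_zero]
      apply one_le_pow₀
      have : 1 ≤ p.2.divisors.card := card_pos.2 ⟨1, Nat.one_mem_divisors.2 (by omega)⟩
      exact_mod_cast this
    apply mul_le_mul hwt _ (sum_nonneg fun k _ => mul_nonneg (wt_nonneg _ _) (hT0 _ _)) (wt_nonneg _ _)
    unfold TQ
    apply sum_le_sum
    intro k _
    exact mul_le_mul_of_nonneg_left (norm_A_aS ζ υ d X hX0 hd0 hd k _) (wt_nonneg _ _)
  have hwtsum := BV.sum_wtR 0 X (by linarith [hY.X4])
  norm_num at hwtsum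
  -- one modulus
  have key : ∀ q ∈ QQ W ps R, |∑ u ∈ (Icc 1 N3).filter (fun u => u ≡ b q [MOD W * q]),
          (if ∃ p ∈ PH, p ∣ u then 0 else a u) - M / (Nat.totient (W * q) : ℝ)| ≤
      (1 / (Nat.totient (W * q) : ℝ)) * ∑ f ∈ (W * q).divisors.filter (fun f => f ≠ 1), T (W * q / f) f +
      LSBV.wt 0 q * (6 * L ^ 2 * (X / z) / (Nat.totient W : ℝ)) +
      (24 * L ^ 2 * (X / z) / (Nat.totient W : ℝ) * (1 / (q : ℝ)) + 8 * L ^ 2) := by
    intro q hq
    rw [mem_QQ] at hq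
    obtain ⟨⟨hq1, hq2⟩, hqs, hqc⟩ := hq
    have hc : W.Coprime q := (Nat.Coprime.coprime_mul_right_right hqc).symm
    have hm0 : 0 < W * q := Nat.mul_pos hW0 hq1
    have hq0 : (0 : ℝ) < q := by exact_mod_cast hq1
    have hφm : (0 : ℝ) < Nat.totient (W * q) := by exact_mod_cast Nat.totient_pos.mpr hm0
    have hφq : (0 : ℝ) < Nat.totient q := by exact_mod_cast Nat.totient_pos.mpr hq1
    have h1 := disc_le N3 a (W * q) (b q) hm0.ne' (hb q hq1)
    -- the bad part in the class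
    have h2 : |∑ u ∈ (Icc 1 N3).filter (fun u => u ≡ b q [MOD W * q]), (if ∃ p ∈ PH, p ∣ u then 0 else a u) -
        ∑ u ∈ (Icc 1 N3).filter (fun u => u ≡ b q [MOD W * q]), a u| ≤
        24 * L ^ 2 * (X / z) / (Nat.totient W : ℝ) * (1 / (q : ℝ)) + 8 * L ^ 2 := by
      rw [← sum_sub_distrib]
      have e1 : ∑ u ∈ (Icc 1 N3).filter (fun u => u ≡ b q [MOD W * q]),
          ((if ∃ p ∈ PH, p ∣ u then 0 else a u) - a u) =
          - ∑ u ∈ (Icc 1 N3).filter (fun u => u ≡ b q [MOD W * q] ∧ ∃ p ∈ PH, p ∣ u), a u := by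
        rw [← sum_neg_distrib, ← filter_filter, sum_filter _ (fun u => -a u)]
        apply sum_congr rfl
        intro u _
        split_ifs <;> ring
      rw [e1, abs_neg, abs_of_nonneg (sum_nonneg fun u hu => (hfacts u (mem_filter.1 hu).1).1)]
      refine (sum_bad_class a N3 (W * q) (b q) (hb q hq1) hm0 (2 * L) z (by positivity) hz0 hfacts PH hPH).trans ?_
      have hφWW : (Nat.totient W : ℝ) ≤ W := by exact_mod_cast Nat.totient_le W
      calc (PH.card : ℝ) * (2 * L * (N3 / (z * ((W * q : ℕ) : ℝ)) + 1)) ≤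
          (4 * L) * (2 * L * (3 * X / (z * ((Nat.totient W : ℝ) * q)) + 1)) := by
            push_cast
            gcongr
        _ = _ := by
            field_simp
            ring
    -- the part which is not coprime
    have h3 : |∑ u ∈ (Icc 1 N3).filter (fun u => u.Coprime (W * q)), a u - M| ≤ L * (2 * L * (3 * X / z)) := by
      have e1 : M - ∑ u ∈ (Icc 1 N3).filter (fun u => u.Coprime (W * q)), a u =
          ∑ u ∈ (Icc 1 N3).filter (fun u => ¬ u.Coprime (W * q)), a u := by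
        rw [hM]
        unfold MS
        rw [← sum_filter_add_sum_filter_not (Icc 1 N3) (fun u => u.Coprime (W * q))]
        ring
      rw [abs_sub_comm, e1, abs_of_nonneg (sum_nonneg fun u hu => (hfacts u (mem_filter.1 hu).1).1)]
      have e2 := sum_bad a N3 (2 * L) z (by positivity) hz0 hfacts
        (q.primeFactors.filter (fun p : ℕ => z ≤ (p : ℝ))) (fun p hp => (mem_filter.1 hp).2)
        ((Icc 1 N3).filter (fun u => ¬ u.Coprime (W * q))) (filter_subset _ _) (by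
          intro u hu hau
          rw [mem_filter, mem_Icc] at hu
          have hu3 : (u : ℝ) ≤ 3 * X := (Nat.le_floor_iff (by linarith)).1 hu.1.2
          have hcW := cop_WW ζ υ d X hP hY hd0 hd z1 S ps u hu3 hau
          have hcq : ¬ u.Coprime q := by
            intro h
            exact hu.2 (Nat.coprime_mul_iff_right.2 ⟨hcW, h⟩)
          obtain ⟨p, hp, hp1, hp2⟩ := Nat.Prime.not_coprime_iff_dvd.1 hcq
          refine ⟨p, ?_, hp1⟩
          rw [mem_filter, Nat.mem_primeFactors]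
          refine ⟨⟨hp, hp2, by omega⟩, ?_⟩
          exact (aS_facts ζ υ d X hP hY hd0 hd u hu3).2.2 hau p hp hp1)
      refine e2.trans ?_
      have hqX : Real.log q ≤ L := by
        apply Real.log_le_log hq0
        have h4 : (q : ℝ) ≤ R := by exact_mod_cast hq2
        refine h4.trans (hRX.trans ?_)
        calc X ^ (497 / 1000 : ℝ) ≤ X ^ (1 : ℝ) := Real.rpow_le_rpow_of_exponent_le hX1 (by norm_num)
          _ = X := Real.rpow_one X
      have hcard := few q hq1 z z3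
      gcongr
      exact hcard.trans hqX
    have h4 : |∑ u ∈ (Icc 1 N3).filter (fun u => u ≡ b q [MOD W * q]), (if ∃ p ∈ PH, p ∣ u then 0 else a u) -
        M / (Nat.totient (W * q) : ℝ)| ≤
        |∑ u ∈ (Icc 1 N3).filter (fun u => u ≡ b q [MOD W * q]), (if ∃ p ∈ PH, p ∣ u then 0 else a u) -
        ∑ u ∈ (Icc 1 N3).filter (fun u => u ≡ b q [MOD W * q]), a u| +
        |∑ u ∈ (Icc 1 N3).filter (fun u => u ≡ b q [MOD W * q]), a u - (1 / (Nat.totient (W * q) : ℝ)) *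
          ∑ u ∈ (Icc 1 N3).filter (fun u => u.Coprime (W * q)), a u| +
        (1 / (Nat.totient (W * q) : ℝ)) *
          |∑ u ∈ (Icc 1 N3).filter (fun u => u.Coprime (W * q)), a u - M| := by
      rw [← abs_of_nonneg (show 0 ≤ 1 / (Nat.totient (W * q) : ℝ) by positivity), ← abs_mul,
        abs_of_nonneg (show 0 ≤ 1 / (Nat.totient (W * q) : ℝ) by positivity)]
      refine le_trans (le_of_eq ?_) (abs_add_three _ _ _)
      congr 1
      ring
    have h5 : (1 / (Nat.totient (W * q) : ℝ)) *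
          |∑ u ∈ (Icc 1 N3).filter (fun u => u.Coprime (W * q)), a u - M| ≤
        LSBV.wt 0 q * (6 * L ^ 2 * (X / z) / (Nat.totient W : ℝ)) := by
      calc _ ≤ (1 / (Nat.totient (W * q) : ℝ)) * (L * (2 * L * (3 * X / z))) :=
            mul_le_mul_of_nonneg_left h3 (by positivity)
        _ = _ := by
            rw [Nat.totient_mul hc]
            unfold LSBV.wt
            push_cast
            field_simp
            ring
    linarith [h1, h2, h4, h5]
  refine (sum_le_sum key).trans ?_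
  rw [sum_add_distrib, sum_add_distrib, sum_add_distrib, ← sum_mul, ← mul_sum, sum_const, nsmul_eq_mul]
  have q1 : ∑ q ∈ QQ W ps R, LSBV.wt 0 q ≤ 4 * L ^ 2 := by
    refine le_trans ?_ hwtsum
    apply sum_le_sum_of_subset_of_nonneg
    · intro q hq
      rw [mem_QQ] at hq
      exact mem_Icc.2 hq.1
    · intro q _ _
      exact wt_nonneg 0 q
  have q2 : ∑ q ∈ QQ W ps R, (1 / (q : ℝ)) ≤ 2 * L := by
    have h1 : ∑ q ∈ QQ W ps R, (1 / (q : ℝ)) ≤ ∑ q ∈ Icc 1 R, (1 / (q : ℝ)) := by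
      apply sum_le_sum_of_subset_of_nonneg
      · intro q hq
        rw [mem_QQ] at hq
        exact mem_Icc.2 hq.1
      · intro q _ _
        positivity
    have h2 := harm_le' R
    have h3 : Real.log R ≤ L := by
      rcases Nat.eq_zero_or_pos R with h | h
      · rw [h]; simp; linarith
      · apply Real.log_le_log (by exact_mod_cast h)
        refine hRX.trans ?_
        calc X ^ (497 / 1000 : ℝ) ≤ X ^ (1 : ℝ) := Real.rpow_le_rpow_of_exponent_le hX1 (by norm_num)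
          _ = X := Real.rpow_one X
    linarith
  have q3 : ((QQ W ps R).card : ℝ) ≤ X ^ (497 / 1000 : ℝ) := by
    refine le_trans ?_ hRX
    have : (QQ W ps R).card ≤ (Icc 1 R).card := card_le_card fun q hq => by
      rw [mem_QQ] at hq
      exact mem_Icc.2 hq.1
    rw [Nat.card_Icc] at this
    exact_mod_cast this
  have hXz : X / z ≤ X ^ (881 / 1000 : ℝ) := by
    rw [div_le_iff₀ hz0]
    calc X = X ^ (881 / 1000 : ℝ) * X ^ (119 / 1000 : ℝ) := by rw [← Real.rpow_add hX0]; norm_num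
      _ ≤ _ := mul_le_mul_of_nonneg_left z2 (by positivity)
  have hXz0 : 0 ≤ X / z := by positivity
  rw [le_div_iff₀ hφW]
  have hs := s1.trans (mul_le_mul_of_nonneg_left s2 (by positivity))
  have t1 : (∑ q ∈ QQ W ps R, (1 / (Nat.totient (W * q) : ℝ)) *
      ∑ f ∈ (W * q).divisors.filter (fun f => f ≠ 1), T (W * q / f) f) * (Nat.totient W : ℝ) ≤ X / L ^ N := by
    calc _ ≤ (1 / (Nat.totient W : ℝ) * (X / L ^ N)) * (Nat.totient W : ℝ) :=
          mul_le_mul_of_nonneg_right hs hφW.le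
      _ = _ := by field_simp
  have t2 : (∑ q ∈ QQ W ps R, LSBV.wt 0 q) * (6 * L ^ 2 * (X / z) / (Nat.totient W : ℝ)) *
      (Nat.totient W : ℝ) ≤ 24 * L ^ 4 * X ^ (881 / 1000 : ℝ) := by
    calc _ = (∑ q ∈ QQ W ps R, LSBV.wt 0 q) * (6 * L ^ 2 * (X / z)) := by field_simp
      _ ≤ (4 * L ^ 2) * (6 * L ^ 2 * X ^ (881 / 1000 : ℝ)) := by gcongr
      _ = _ := by ring
  have t3 : 24 * L ^ 2 * (X / z) / (Nat.totient W : ℝ) * (∑ q ∈ QQ W ps R, (1 / (q : ℝ))) *
      (Nat.totient W : ℝ) ≤ 48 * L ^ 3 * X ^ (881 / 1000 : ℝ) := by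
    calc _ = 24 * L ^ 2 * (X / z) * (∑ q ∈ QQ W ps R, (1 / (q : ℝ))) := by field_simp
      _ ≤ 24 * L ^ 2 * X ^ (881 / 1000 : ℝ) * (2 * L) := by gcongr
      _ = _ := by ring
  have t4 : ((QQ W ps R).card : ℝ) * (8 * L ^ 2) * (Nat.totient W : ℝ) ≤ 8 * L ^ 2 * X ^ (881 / 1000 : ℝ) := by
    calc _ ≤ X ^ (497 / 1000 : ℝ) * (8 * L ^ 2) * X ^ (7 / 5000 : ℝ) := by gcongr
      _ = 8 * L ^ 2 * (X ^ (497 / 1000 : ℝ) * X ^ (7 / 5000 : ℝ)) := by ring
      _ ≤ _ := by
          rw [← Real.rpow_add hX0]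
          apply mul_le_mul_of_nonneg_left _ (by positivity)
          exact Real.rpow_le_rpow_of_exponent_le hX1 (by norm_num)
  have hfinal : 24 * L ^ 4 * X ^ (881 / 1000 : ℝ) + 48 * L ^ 3 * X ^ (881 / 1000 : ℝ) +
      8 * L ^ 2 * X ^ (881 / 1000 : ℝ) ≤ X ^ (9 / 10 : ℝ) := by
    have p0 : 0 ≤ X ^ (881 / 1000 : ℝ) := by positivity
    have p2 : L ^ 2 ≤ L ^ 5 := pow_le_pow_right₀ hL1 (by norm_num)
    have p3 : L ^ 3 ≤ L ^ 5 := pow_le_pow_right₀ hL1 (by norm_num)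
    have p4 : L ^ 4 ≤ L ^ 5 := pow_le_pow_right₀ hL1 (by norm_num)
    calc _ = (24 * L ^ 4 + 48 * L ^ 3 + 8 * L ^ 2) * X ^ (881 / 1000 : ℝ) := by ring
      _ ≤ (100 * L ^ 5) * X ^ (881 / 1000 : ℝ) := by
          apply mul_le_mul_of_nonneg_right _ p0
          have p5 : 0 ≤ L ^ 5 := by positivity
          linarith only [p2, p3, p4, p5]
      _ ≤ X ^ (1 / 1000 : ℝ) * X ^ (881 / 1000 : ℝ) := mul_le_mul_of_nonneg_right z4 p0
      _ ≤ _ := by
          rw [← Real.rpow_add hX0]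
          exact Real.rpow_le_rpow_of_exponent_le hX1 (by norm_num)
  rw [add_mul, add_mul, add_mul]
  linarith only [t1, t2, t3, t4, hfinal]

end Pool.Agent.J4H73.CP
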