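import Pool.Agent.J4H73.CP.P2Z
import Pool.Agent.J4H73.CG.Fin3

/-! The final forms for two prime factors. -/

set_option autoImplicit false

open Finset Filter

namespace Pool.Agent.J4H73.CP

open Pool.Agent.J4H73.CG Pool.Agent

theorem Ps_mono (d d' X : ℝ) (n u : ℕ) (h : |Real.log (u / X) - 1 / 2| ≤ |Real.log (n / X) - 1 / 2| + (d' - d)) :
    Ps d X n ≤ Ps d' X u := by
  unfold Ps
  apply max_le_max le_rfl
  linarith

theorem Ps_ne (d X : ℝ) (n : ℕ) (h : Ps d X n ≠ 0) : |Real.log (n / X) - 1 / 2| < d := by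
  by_contra hc
  push Not at hc
  apply h
  unfold Ps
  exact max_eq_left (by linarith)

/-- small shifts are admissible -/
theorem HPs_small (X : ℝ) (hX : 1 ≤ X) (h : ℤ) (h0 : h ≠ 0) (hh : |(h : ℝ)| ≤ X / 1000000) :
    HPs (1 / 1000) (101 / 100000) X h := by
  have hX0 : 0 < X := by linarith
  have habs := abs_le.1 hh
  refine ⟨⟨h0, by linarith, ?_⟩, 1, Or.inl rfl, ?_⟩
  · intro n hn1 hn2 he
    have e : (n : ℝ) + h = 0 := by exact_mod_cast he
    linarith
  · intro n hn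
    have hnX : X < n := Ps_supp (1 / 1000) X hX0 (by norm_num) n hn
    have hpos : (0 : ℝ) < n + h := by linarith
    have hposZ : 0 < (n : ℤ) + h := by exact_mod_cast hpos
    refine ⟨by rw [one_mul]; exact hposZ, ?_⟩
    apply Ps_mono
    have hu : ((((n : ℤ) + h).natAbs : ℕ) : ℝ) = n + h := by
      rw [Nat.cast_natAbs, Int.cast_abs]
      push_cast
      exact abs_of_pos hpos
    rw [hu]
    have hn0 : (0 : ℝ) < n := by linarith
    have e1 : Real.log (((n : ℝ) + h) / X) = Real.log (n / X) + Real.log (1 + h / n) := by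
      rw [← Real.log_mul (by positivity) (by
        have : 1 + (h : ℝ) / n = (n + h) / n := by field_simp
        rw [this]
        positivity)]
      congr 1
      field_simp
    have ht : |(h : ℝ) / n| ≤ 1 / 1000000 := by
      rw [abs_div, abs_of_pos hn0, div_le_iff₀ hn0]
      linarith
    have ht2 := abs_le.1 ht
    have e2 : |Real.log (1 + (h : ℝ) / n)| ≤ 1 / 100000 := by
      have hp : 0 < 1 + (h : ℝ) / n := by linarith
      rw [abs_le]
      constructor
      · have h1 := Real.one_sub_inv_le_log_of_pos hp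
        refine le_trans ?_ h1
        have h2 : (1 + (h : ℝ) / n)⁻¹ ≤ 1 + 1 / 100000 := by
          rw [inv_le_comm₀ hp (by norm_num)]
          norm_num at ht2 ⊢
          linarith
        linarith
      · have h1 := Real.log_le_sub_one_of_pos hp
        linarith
    rw [e1]
    calc |Real.log (n / X) + Real.log (1 + h / n) - 1 / 2| =
        |(Real.log (n / X) - 1 / 2) + Real.log (1 + h / n)| := by congr 1; ring
      _ ≤ |Real.log (n / X) - 1 / 2| + |Real.log (1 + h / n)| := abs_add_le _ _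
      _ ≤ _ := by linarith

/-- the reflection is admissible -/
theorem HPs_refl (X : ℝ) (hX : 1 ≤ X) (h : ℤ) (hh : (h : ℝ) = -(2 * Real.exp (1 / 2) * X)) :
    HPs (1 / 1000) (101 / 100000) X h := by
  have hX0 : 0 < X := by linarith
  have hE1 : (3 : ℝ) / 2 < Real.exp (1 / 2) := by
    have := Real.add_one_lt_exp (show (1 / 2 : ℝ) ≠ 0 by norm_num)
    linarith
  have hE2 : Real.exp (1 / 2) ≤ 3 := by
    have := Real.exp_one_lt_d9
    have h4 : Real.exp (1 / 2) ≤ Real.exp 1 := Real.exp_le_exp.2 (by norm_num)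
    linarith
  refine ⟨⟨?_, ?_, ?_⟩, -1, Or.inr rfl, ?_⟩
  · rintro rfl
    simp only [Int.cast_zero] at hh
    nlinarith
  · rw [hh, abs_neg, abs_of_pos (by positivity)]
    nlinarith
  · intro n hn1 hn2 h0
    have e : (n : ℝ) + h = 0 := by exact_mod_cast h0
    rw [hh] at e
    nlinarith
  · intro n hn
    have hnX : X < n := Ps_supp (1 / 1000) X hX0 (by norm_num) n hn
    have hn0 : (0 : ℝ) < n := by linarith
    have hd := Ps_ne _ _ _ hn
    obtain ⟨σ, hσ⟩ : ∃ σ : ℝ, σ = Real.log (n / X) - 1 / 2 := ⟨_, rfl⟩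
    rw [← hσ] at hd
    have hd2 := abs_lt.1 hd
    have hn : (n : ℝ) = X * Real.exp (1 / 2) * Real.exp σ := by
      have h1 : Real.exp (Real.log (n / X)) = n / X := Real.exp_log (by positivity)
      have h2 : Real.log (n / X) = 1 / 2 + σ := by rw [hσ]; ring
      rw [h2, Real.exp_add] at h1
      rw [mul_assoc, h1]
      field_simp
    have hexp1 : 1 + σ ≤ Real.exp σ := by
      have := Real.add_one_le_exp σ
      linarith
    have hexp2 : Real.exp σ ≤ 1 + σ + σ ^ 2 := by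
      have h1 := Real.abs_exp_sub_one_sub_id_le (x := σ) (by linarith)
      have h2 := (abs_le.1 h1).2
      linarith
    have hσ2 : σ ^ 2 ≤ 1 / 1000000 := by
      rw [← sq_abs]
      calc |σ| ^ 2 ≤ (1 / 1000) ^ 2 := pow_le_pow_left₀ (abs_nonneg _) hd.le 2
        _ = _ := by norm_num
    have hsum : (n : ℝ) + h = -(X * Real.exp (1 / 2) * (2 - Real.exp σ)) := by
      rw [hn, hh]; ring
    have h2e : 0 < 2 - Real.exp σ := by linarith
    have hneg : (n : ℝ) + h < 0 := by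
      rw [hsum]
      have : 0 < X * Real.exp (1 / 2) * (2 - Real.exp σ) := by positivity
      linarith
    have hnegZ : (n : ℤ) + h < 0 := by exact_mod_cast hneg
    refine ⟨by linarith, ?_⟩
    apply Ps_mono
    have hu : ((((n : ℤ) + h).natAbs : ℕ) : ℝ) = X * Real.exp (1 / 2) * (2 - Real.exp σ) := by
      rw [Nat.cast_natAbs, Int.cast_abs]
      push_cast
      rw [abs_of_neg hneg, hsum, neg_neg]
    rw [hu, ← hσ]
    have e1 : Real.log (X * Real.exp (1 / 2) * (2 - Real.exp σ) / X) = 1 / 2 + Real.log (2 - Real.exp σ) := by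
      rw [show X * Real.exp (1 / 2) * (2 - Real.exp σ) / X = Real.exp (1 / 2) * (2 - Real.exp σ) by field_simp,
        Real.log_mul (Real.exp_ne_zero _) h2e.ne', Real.log_exp]
    rw [e1, add_sub_cancel_left, abs_le]
    have a1 := Real.log_le_sub_one_of_pos h2e
    have a2 := Real.one_sub_inv_le_log_of_pos h2e
    have a3 := neg_abs_le σ
    have a4 := le_abs_self σ
    constructor
    · refine le_trans ?_ a2
      -- `1 / (2 - e^σ) ≤ 1 + |σ| + 10^{-5}`
      have h3 : (2 - Real.exp σ)⁻¹ ≤ 1 + |σ| + 1 / 100000 := by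
        rw [← one_div, div_le_iff₀ h2e]
        have h4 : 1 - |σ| - 1 / 1000000 ≤ 2 - Real.exp σ := by linarith
        have h5 : |σ| ^ 2 ≤ 1 / 1000000 := by rw [sq_abs]; exact hσ2
        have h6 := abs_nonneg σ
        calc (1 : ℝ) ≤ (1 + |σ| + 1 / 100000) * (1 - |σ| - 1 / 1000000) := by nlinarith
          _ ≤ _ := mul_le_mul_of_nonneg_left h4 (by positivity)
      linarith
    · linarith

theorem gap2 (δ : ℝ) (hδ : 0 < δ) : ∃ c : ℝ, 0 < c ∧ ∃ N₀ : ℕ, ∀ N : ℕ, N₀ ≤ N → ∀ h : ℤ, 2 ∣ h → h ≠ 0 →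
    |(h : ℝ)| ≤ c * rankin N →
      (N : ℝ) ^ (9 / 10 : ℝ) ≤ Set.ncard {p : ℕ | N < p ∧ p ≤ 3 * N ∧ p.Prime ∧
        Alm 2 ((N : ℝ) ^ (3 / 25 : ℝ)) (p + h) ∧
        ∀ z : ℤ, |(z : ℝ) - p| ≤ c * rankin N → z ≠ p → z ≠ p + h →
          ∃ q : ℕ, q.Prime ∧ (q : ℝ) ≤ (N : ℝ) ^ δ ∧ (q : ℤ) ∣ z} := by
  obtain ⟨c, hc, H⟩ := p2Z δ hδ
  apply gap_of 2 (3 / 25) δ c hc
  filter_upwards [H, small_RR (1000000 * c) (by positivity), eventually_gt_atTop 1] with X h1 h2 h3
  intro h g1 g2 g3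
  have e : (12 / 100 : ℝ) = 3 / 25 := by norm_num
  rw [e] at h1
  apply h1 h g1
  apply HPs_small X h3.le h g2
  have : 1000000 * c * CH.RR X = 1000000 * (c * CH.RR X) := by ring
  linarith

theorem goldbach2 (δ : ℝ) (hδ : 0 < δ) : ∃ c : ℝ, 0 < c ∧ ∃ N₀ : ℕ, ∀ N : ℕ, N₀ ≤ N → 2 ∣ N →
      (N : ℝ) ^ (7 / 8 : ℝ) ≤ Set.ncard {p : ℕ | p ≤ N ∧ p.Prime ∧ Alm 2 ((N : ℝ) ^ (1 / 9 : ℝ)) (N - p) ∧
        ∀ z : ℤ, |(z : ℝ) - p| ≤ c * rankin N → z ≠ p →
          ∃ q : ℕ, q.Prime ∧ (q : ℝ) ≤ (N : ℝ) ^ δ ∧ (q : ℤ) ∣ z} := by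
  obtain ⟨c, hc, H⟩ := p2Z δ hδ
  apply goldbach_of 2 (12 / 100) (1 / 9) δ c hδ (by norm_num) (by norm_num) hc
  filter_upwards [H, eventually_gt_atTop 1] with X h1 h3
  intro h g1 g2
  exact h1 h g1 (HPs_refl X h3.le h g2)

end Pool.Agent.J4H73.CP
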