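import Pool.Agent.J4H73.CG.Disc

/-! Large sieve bounds for convolutions, log-weighted. -/

set_option autoImplicit false

open Finset Filter Topology

namespace Pool.Agent.J4H73.CP

open Pool.Agent.Helper112 Pool.Agent.Helper112.BLB Pool.Agent.H410R2 Pool.Agent.H398R2.BV
open Pool.Agent.H378R2 Pool.Agent.H378R2.LSBV

/-- convolution -/
noncomputable def conv (α β : ℕ → ℝ) (n : ℕ) : ℝ := ∑ i ∈ n.divisorsAntidiagonal, α i.1 * β i.2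

theorem A_supp (α : ℕ → ℝ) (m0 m1 : ℕ) (hα : ∀ m, α m ≠ 0 → m0 ≤ m ∧ m ≤ m1) (T : ℕ) (f : ℕ)
    (ψ : DirichletCharacter ℂ f) : A T α f ψ = A (min T m1) α f ψ := by
  unfold A
  symm
  apply sum_subset (Icc_subset_Icc_right (min_le_left _ _))
  intro m hm hm'
  rw [mem_Icc] at hm hm'
  have : α m = 0 := by
    by_contra h
    have := hα m h
    apply hm'
    refine ⟨hm.1, le_min hm.2 this.2⟩
  rw [this]
  simp

theorem A_zero (α : ℕ → ℝ) (m0 m1 : ℕ) (hα : ∀ m, α m ≠ 0 → m0 ≤ m ∧ m ≤ m1) (T : ℕ) (hT : T < m0) (f : ℕ)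
    (ψ : DirichletCharacter ℂ f) : A T α f ψ = 0 := by
  unfold A
  apply sum_eq_zero
  intro m hm
  rw [mem_Icc] at hm
  have : α m = 0 := by
    by_contra h
    have := hα m h
    omega
  rw [this]
  simp

theorem sq_sum_le (α : ℕ → ℝ) (B : ℝ) (hB : 0 ≤ B) (T : ℕ) (h : ∀ n ∈ Icc 1 T, |α n| ≤ B) :
    Real.sqrt (∑ b ∈ Icc 1 T, α b ^ 2) ≤ B * Real.sqrt T := by
  have h1 : ∑ b ∈ Icc 1 T, α b ^ 2 ≤ B ^ 2 * T := by
    calc ∑ b ∈ Icc 1 T, α b ^ 2 ≤ ∑ b ∈ Icc 1 T, B ^ 2 := by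
          apply sum_le_sum
          intro b hb
          rw [← sq_abs]
          exact pow_le_pow_left₀ (abs_nonneg _) (h b hb) 2
      _ = B ^ 2 * T := by rw [sum_const, Nat.card_Icc, nsmul_eq_mul]; simp; ring
  calc Real.sqrt (∑ b ∈ Icc 1 T, α b ^ 2) ≤ Real.sqrt (B ^ 2 * T) := Real.sqrt_le_sqrt h1
    _ = B * Real.sqrt T := by rw [Real.sqrt_mul (by positivity), Real.sqrt_sq hB]

/-- the facts at one point -/
theorem point (x : ℝ) (hx : 1 ≤ x) (α β : ℕ → ℝ) (m0 m1 : ℕ) (hm0 : 1 ≤ m0)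
    (B1 B2 : ℝ) (hB10 : 0 ≤ B1) (hB20 : 0 ≤ B2)
    (hB1 : ∀ m, |α m| ≤ B1) (hB2 : ∀ n : ℕ, 1 ≤ n → (n : ℝ) ≤ x → |β n| ≤ B2) (t : ℝ) (ht1 : 1 ≤ t)
    (htm : m0 ≤ ⌊t⌋₊) :
    Real.sqrt (∑ b ∈ Icc 1 (min ⌊t⌋₊ m1), α b ^ 2) * Real.sqrt (∑ c ∈ Icc 1 ⌊x / t⌋₊, β c ^ 2) ≤
      B1 * B2 * Real.sqrt x ∧
    Real.sqrt (((min ⌊t⌋₊ m1 : ℕ) : ℝ) * (⌊x / t⌋₊ : ℝ)) ≤ Real.sqrt x ∧
    Real.sqrt ((min ⌊t⌋₊ m1 : ℕ) : ℝ) ≤ Real.sqrt m1 ∧ Real.sqrt (⌊x / t⌋₊ : ℝ) ≤ Real.sqrt (x / m0) := by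
  have hm0r : (0 : ℝ) < m0 := by exact_mod_cast hm0
  have ht0 : 0 < t := by linarith
  have hx0 : 0 < x := by linarith
  have e1 : ((min ⌊t⌋₊ m1 : ℕ) : ℝ) ≤ t :=
    (by exact_mod_cast min_le_left _ _ : ((min ⌊t⌋₊ m1 : ℕ) : ℝ) ≤ ⌊t⌋₊).trans (Nat.floor_le ht0.le)
  have e2 : (⌊x / t⌋₊ : ℝ) ≤ x / t := Nat.floor_le (by positivity)
  have e3 : ((min ⌊t⌋₊ m1 : ℕ) : ℝ) * (⌊x / t⌋₊ : ℝ) ≤ x := by
    calc _ ≤ t * (x / t) := mul_le_mul e1 e2 (by positivity) ht0.le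
      _ = x := by field_simp
  have htm' : (m0 : ℝ) ≤ t := (Nat.le_floor_iff ht0.le).1 htm
  refine ⟨?_, Real.sqrt_le_sqrt e3, Real.sqrt_le_sqrt (by exact_mod_cast min_le_right _ _), ?_⟩
  · have a1 := sq_sum_le α B1 hB10 (min ⌊t⌋₊ m1) (fun n _ => hB1 n)
    have a2 := sq_sum_le β B2 hB20 ⌊x / t⌋₊ (fun n hn => by
      rw [mem_Icc] at hn
      apply hB2 n hn.1
      have h4 : (n : ℝ) ≤ ⌊x / t⌋₊ := by exact_mod_cast hn.2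
      exact h4.trans (e2.trans (div_le_self hx0.le ht1)))
    calc _ ≤ (B1 * Real.sqrt ((min ⌊t⌋₊ m1 : ℕ) : ℝ)) * (B2 * Real.sqrt (⌊x / t⌋₊ : ℝ)) :=
          mul_le_mul a1 a2 (Real.sqrt_nonneg _) (by positivity)
      _ = B1 * B2 * (Real.sqrt ((min ⌊t⌋₊ m1 : ℕ) : ℝ) * Real.sqrt (⌊x / t⌋₊ : ℝ)) := by ring
      _ = B1 * B2 * Real.sqrt (((min ⌊t⌋₊ m1 : ℕ) : ℝ) * (⌊x / t⌋₊ : ℝ)) := by
          rw [Real.sqrt_mul (by positivity)]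
      _ ≤ _ := mul_le_mul_of_nonneg_left (Real.sqrt_le_sqrt e3) (by positivity)
  · apply Real.sqrt_le_sqrt
    exact e2.trans (div_le_div_of_nonneg_left hx0.le hm0r htm')

theorem conv_ls (x : ℝ) (hx : 1 ≤ x) (α β : ℕ → ℝ) (m0 m1 : ℕ) (hm0 : 1 ≤ m0)
    (hα : ∀ m, α m ≠ 0 → m0 ≤ m ∧ m ≤ m1) (B1 B2 : ℝ) (hB10 : 0 ≤ B1) (hB20 : 0 ≤ B2)
    (hB1 : ∀ m, |α m| ≤ B1) (hB2 : ∀ n : ℕ, 1 ≤ n → (n : ℝ) ≤ x → |β n| ≤ B2) (F0 F1 : ℕ)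
    (h0 : 1 ≤ F0) (h1 : 1 ≤ F1) :
    ∑ f ∈ Icc F0 F1, (1 / (Nat.totient f : ℝ)) * ∑ ψ ∈ Prim f, ‖TL x f ψ (conv α β)‖ ≤
      12 * (1 + Real.log F1) * (Real.sqrt x / F0 + (Real.sqrt m1 + Real.sqrt (x / m0)) + F1) *
        (B1 * B2 * Real.sqrt x) * Real.log x := by
  have hlog : 0 ≤ Real.log F1 := Real.log_natCast_nonneg F1
  refine sum_TL_le x hx (Icc F0 F1) (fun f => 1 / (Nat.totient f : ℝ)) (fun f => by positivity) α β _ ?_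
  intro t ht1 ht2
  rcases Nat.lt_or_ge ⌊t⌋₊ m0 with hlt | hge
  · have e : ∑ f ∈ Icc F0 F1, (1 / (Nat.totient f : ℝ)) * P ⌊t⌋₊ ⌊x / t⌋₊ α β f = 0 := by
      apply sum_eq_zero
      intro f _
      unfold P
      rw [sum_eq_zero, mul_zero]
      intro ψ _
      rw [A_zero α m0 m1 hα _ hlt, norm_zero, zero_mul]
    rw [e]
    positivity
  · have e : ∑ f ∈ Icc F0 F1, (1 / (Nat.totient f : ℝ)) * P ⌊t⌋₊ ⌊x / t⌋₊ α β f =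
        ∑ f ∈ Icc F0 F1, (1 / (Nat.totient f : ℝ)) * P (min ⌊t⌋₊ m1) ⌊x / t⌋₊ α β f := by
      apply sum_congr rfl
      intro f _
      unfold P
      congr 1
      apply sum_congr rfl
      intro ψ _
      rw [A_supp α m0 m1 hα]
    rw [e]
    refine (step45 _ _ α β F0 F1 h0 h1).trans ?_
    obtain ⟨p1, p2, p3, p4⟩ := point x hx α β m0 m1 hm0 B1 B2 hB10 hB20 hB1 hB2 t ht1 hge
    have hF0 : (0 : ℝ) < F0 := by exact_mod_cast h0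
    gcongr

theorem conv_ls1 (x : ℝ) (hx : 1 ≤ x) (α β : ℕ → ℝ) (m0 m1 : ℕ) (hm0 : 1 ≤ m0)
    (hα : ∀ m, α m ≠ 0 → m0 ≤ m ∧ m ≤ m1) (B1 B2 : ℝ) (hB10 : 0 ≤ B1) (hB20 : 0 ≤ B2)
    (hB1 : ∀ m, |α m| ≤ B1) (hB2 : ∀ n : ℕ, 1 ≤ n → (n : ℝ) ≤ x → |β n| ≤ B2) (F : ℕ) :
    ∑ f ∈ Icc 2 F, ∑ ψ ∈ Prim f, ‖TL x f ψ (conv α β)‖ ≤
      6 * (Real.sqrt x + F * (Real.sqrt m1 + Real.sqrt (x / m0)) + F * F) *
        (B1 * B2 * Real.sqrt x) * Real.log x := by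
  have key : ∑ f ∈ Icc 2 F, (1 : ℝ) * ∑ ψ ∈ Prim f, ‖TL x f ψ (conv α β)‖ ≤
      6 * (Real.sqrt x + F * (Real.sqrt m1 + Real.sqrt (x / m0)) + F * F) *
        (B1 * B2 * Real.sqrt x) * Real.log x := by
    refine sum_TL_le x hx (Icc 2 F) (fun f => 1) (fun f => zero_le_one) α β _ ?_
    intro t ht1 ht2
    rcases Nat.lt_or_ge ⌊t⌋₊ m0 with hlt | hge
    · have e : ∑ f ∈ Icc 2 F, (1 : ℝ) * P ⌊t⌋₊ ⌊x / t⌋₊ α β f = 0 := by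
        apply sum_eq_zero
        intro f _
        unfold P
        rw [sum_eq_zero, mul_zero]
        intro ψ _
        rw [A_zero α m0 m1 hα _ hlt, norm_zero, zero_mul]
      rw [e]
      positivity
    · have e : ∑ f ∈ Icc 2 F, (1 : ℝ) * P ⌊t⌋₊ ⌊x / t⌋₊ α β f ≤
          ∑ f ∈ Icc 1 F, ((f : ℝ) / (Nat.totient f : ℝ)) * P (min ⌊t⌋₊ m1) ⌊x / t⌋₊ α β f := by
        have e2 : ∑ f ∈ Icc 2 F, (1 : ℝ) * P ⌊t⌋₊ ⌊x / t⌋₊ α β f ≤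
            ∑ f ∈ Icc 2 F, ((f : ℝ) / (Nat.totient f : ℝ)) * P (min ⌊t⌋₊ m1) ⌊x / t⌋₊ α β f := by
          apply sum_le_sum
          intro f hf
          rw [mem_Icc] at hf
          have e3 : P ⌊t⌋₊ ⌊x / t⌋₊ α β f = P (min ⌊t⌋₊ m1) ⌊x / t⌋₊ α β f := by
            unfold P
            apply sum_congr rfl
            intro ψ _
            rw [A_supp α m0 m1 hα]
          rw [e3]
          apply mul_le_mul_of_nonneg_right _ (P_nonneg _ _ _ _ _)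
          have hφ : (0 : ℝ) < Nat.totient f := by exact_mod_cast Nat.totient_pos.mpr (by omega)
          rw [le_div_iff₀ hφ, one_mul]
          exact_mod_cast Nat.totient_le f
        refine e2.trans ?_
        apply sum_le_sum_of_subset_of_nonneg (Icc_subset_Icc_left (by norm_num))
        intro f _ _
        exact mul_nonneg (by positivity) (P_nonneg _ _ _ _ _)
      refine e.trans ((P_sieve _ _ α β F).trans ?_)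
      obtain ⟨p1, p2, p3, p4⟩ := point x hx α β m0 m1 hm0 B1 B2 hB10 hB20 hB1 hB2 t ht1 hge
      rw [Real.sqrt_mul (by positivity)] at p2
      have e4 : (Real.sqrt ((min ⌊t⌋₊ m1 : ℕ) : ℝ) + F) * (Real.sqrt (⌊x / t⌋₊ : ℝ) + F) ≤
          Real.sqrt x + F * (Real.sqrt m1 + Real.sqrt (x / m0)) + F * F := by
        have hF : (0 : ℝ) ≤ F := Nat.cast_nonneg F
        have q1 := mul_le_mul_of_nonneg_left p3 hF
        have q2 := mul_le_mul_of_nonneg_left p4 hF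
        calc _ = Real.sqrt ((min ⌊t⌋₊ m1 : ℕ) : ℝ) * Real.sqrt (⌊x / t⌋₊ : ℝ) +
              (F * Real.sqrt ((min ⌊t⌋₊ m1 : ℕ) : ℝ) + F * Real.sqrt (⌊x / t⌋₊ : ℝ)) + F * F := by ring
          _ ≤ _ := by linarith
      gcongr
  simpa using key

end Pool.Agent.J4H73.CP
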