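import Pool.Agent.J4H73.CP.TQ2

/-! Swapping the summations; the discrepancies of the switched sequence. -/

set_option autoImplicit false

open Finset Filter Topology

namespace Pool.Agent.J4H73.CP

open Pool.Agent.Helper112 Pool.Agent.Helper112.BLB Pool.Agent.H410R2 Pool.Agent.H398R2.BV
open Pool.Agent.H378R2 Pool.Agent.H378R2.LSBV Pool.Agent.J4H73.CG Pool.Agent.J4H73.CH

theorem swapG (T : ℕ → ℕ → ℝ) (hT : ∀ g f, 0 ≤ T g f) (W ps R : ℕ) (hW : 1 ≤ W)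
    (hirr : ∀ f1, f1 ∣ W → ∀ k f, T (W / f1 * k) f ≤ T k f) :
    ∑ q ∈ QQ W ps R, (1 / (Nat.totient (W * q) : ℝ)) *
      ∑ f ∈ (W * q).divisors.filter (fun f => f ≠ 1), T (W * q / f) f ≤
    (1 / (Nat.totient W : ℝ)) *
      ∑ p ∈ (W.divisors ×ˢ QQ W ps R).filter (fun p => p.1 * p.2 ≠ 1),
        LSBV.wt 0 p.2 * ∑ k ∈ Icc 1 R, LSBV.wt 0 k * T k (p.1 * p.2) := by
  have e1 : ∀ q ∈ QQ W ps R, (1 / (Nat.totient (W * q) : ℝ)) *
      ∑ f ∈ (W * q).divisors.filter (fun f => f ≠ 1), T (W * q / f) f ≤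
      ∑ p ∈ (W.divisors ×ˢ QQ W ps R).filter (fun p => p.1 * p.2 ≠ 1),
        if p.2 ∣ q then (1 / (Nat.totient W : ℝ)) * (LSBV.wt 0 q * T (q / p.2) (p.1 * p.2)) else 0 := by
    intro q hq
    rw [mem_QQ] at hq
    obtain ⟨⟨hq1, hq2⟩, hqs, hqc⟩ := hq
    have hc : W.Coprime q := (Nat.Coprime.coprime_mul_right_right hqc).symm
    rw [sum_divisors_coprime (fun f => T (W * q / f) f) W q hW hq1 hc, Nat.totient_mul hc]
    rw [← sum_filter, filter_filter, mul_sum]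
    have e2 : (W.divisors ×ˢ q.divisors).filter (fun p => p.1 * p.2 ≠ 1) =
        (W.divisors ×ˢ QQ W ps R).filter (fun p => p.1 * p.2 ≠ 1 ∧ p.2 ∣ q) := by
      ext p
      rw [mem_filter, mem_filter, mem_product, mem_product, Nat.mem_divisors, Nat.mem_divisors,
        mem_QQ]
      constructor
      · rintro ⟨⟨⟨h1, h2⟩, h3, h4⟩, h5⟩
        refine ⟨⟨⟨h1, h2⟩, ⟨⟨Nat.pos_of_dvd_of_pos h3 hq1, (Nat.le_of_dvd hq1 h3).trans hq2⟩,
          hqs.squarefree_of_dvd h3, hqc.coprime_dvd_left h3⟩⟩, h5, h3⟩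
      · rintro ⟨⟨⟨h1, h2⟩, _⟩, h5, h3⟩
        exact ⟨⟨⟨h1, h2⟩, h3, by omega⟩, h5⟩
    rw [e2]
    apply sum_le_sum
    intro p hp
    rw [mem_filter, mem_product, Nat.mem_divisors] at hp
    obtain ⟨⟨⟨h1, _⟩, _⟩, _, h3⟩ := hp
    have e3 : W * q / (p.1 * p.2) = W / p.1 * (q / p.2) := (Nat.div_mul_div_comm h1 h3).symm
    rw [e3]
    have h4 := hirr p.1 h1 (q / p.2) (p.1 * p.2)
    unfold LSBV.wt
    push_cast
    rw [pow_zero]
    have hφ : (0 : ℝ) < Nat.totient q := by exact_mod_cast Nat.totient_pos.mpr hq1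
    have hφ' : (0 : ℝ) < Nat.totient W := by exact_mod_cast Nat.totient_pos.mpr hW
    calc 1 / ((Nat.totient W : ℝ) * (Nat.totient q : ℝ)) * T (W / p.1 * (q / p.2)) (p.1 * p.2) ≤
        1 / ((Nat.totient W : ℝ) * (Nat.totient q : ℝ)) * T (q / p.2) (p.1 * p.2) :=
          mul_le_mul_of_nonneg_left h4 (by positivity)
      _ = _ := by field_simp
  refine (sum_le_sum e1).trans ?_
  rw [sum_comm, mul_sum]
  apply sum_le_sum
  intro p hp
  rw [mem_filter, mem_product, mem_QQ] at hp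
  rw [← sum_filter, ← mul_sum]
  apply mul_le_mul_of_nonneg_left _ (by positivity)
  have hb : 1 ≤ p.2 := hp.1.2.1.1
  have h1 : ∀ q ∈ (QQ W ps R).filter (fun q => p.2 ∣ q), LSBV.wt 0 q * T (q / p.2) (p.1 * p.2) ≤
      LSBV.wt 0 p.2 * (LSBV.wt 0 (q / p.2) * T (q / p.2) (p.1 * p.2)) := by
    intro q hq
    rw [mem_filter, mem_QQ] at hq
    obtain ⟨⟨⟨hq1, _⟩, _⟩, hbq⟩ := hq
    have h2 : p.2 * (q / p.2) = q := Nat.mul_div_cancel' hbq
    have h3 : 1 ≤ q / p.2 := Nat.div_pos (Nat.le_of_dvd hq1 hbq) hb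
    have := wt_mul_le 0 p.2 (q / p.2) hb h3
    rw [h2] at this
    calc _ ≤ (LSBV.wt 0 p.2 * LSBV.wt 0 (q / p.2)) * T (q / p.2) (p.1 * p.2) :=
          mul_le_mul_of_nonneg_right this (hT _ _)
      _ = _ := by ring
  refine (sum_le_sum h1).trans ?_
  rw [← mul_sum]
  apply mul_le_mul_of_nonneg_left _ (wt_nonneg 0 _)
  rw [← sum_image (f := fun e => LSBV.wt 0 e * T e (p.1 * p.2)) (g := fun q => q / p.2)]
  · apply sum_le_sum_of_subset_of_nonneg
    · intro e he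
      rw [mem_image] at he
      obtain ⟨q, hq, rfl⟩ := he
      rw [mem_filter, mem_QQ] at hq
      obtain ⟨⟨⟨hq1, hq2⟩, _⟩, hbq⟩ := hq
      rw [mem_Icc]
      exact ⟨Nat.div_pos (Nat.le_of_dvd hq1 hbq) hb, (Nat.div_le_self _ _).trans hq2⟩
    · intro e _ _
      exact mul_nonneg (wt_nonneg 0 e) (hT _ _)
  · intro q hq q' hq' h
    simp only [Finset.mem_coe, mem_filter] at hq hq'
    have h1 := Nat.div_mul_cancel hq.2
    have h2 := Nat.div_mul_cancel hq'.2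
    simp only at h
    rw [← h1, ← h2, h]

/-- the sequence -/
noncomputable def aS (ζ υ d X : ℝ) (u : ℕ) : ℝ := Ps d X u * conv (al ζ υ X) be u

/-- its mass -/
noncomputable def MS (ζ υ d X : ℝ) : ℝ := ∑ u ∈ Icc 1 ⌊3 * X⌋₊, aS ζ υ d X u

theorem res_conv (g : ℕ) (α β : ℕ → ℝ) (u : ℕ) : res g (conv α β) u = conv (res g α) (res g β) u := by
  unfold res conv
  split_ifs with h
  · apply sum_congr rfl
    intro i hi
    rw [Nat.mem_divisorsAntidiagonal] at hi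
    rw [← hi.1] at h
    beta_reduce
    rw [if_pos (Nat.Coprime.coprime_mul_right h), if_pos (Nat.Coprime.coprime_mul_left h)]
  · symm
    apply sum_eq_zero
    intro i hi
    rw [Nat.mem_divisorsAntidiagonal] at hi
    rw [← hi.1] at h
    beta_reduce
    by_cases h1 : i.1.Coprime g
    · rw [if_neg (fun h2 : i.2.Coprime g => h (Nat.Coprime.mul_left h1 h2)), mul_zero]
    · rw [if_neg h1, zero_mul]

theorem Ps_supp (d X : ℝ) (hX : 0 < X) (hd : d ≤ 1 / 2) (u : ℕ) (h : Ps d X u ≠ 0) : X < u := by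
  by_contra hn
  push Not at hn
  apply h
  have h1 := Ps_le_Phi d X u hd
  have h2 : Phi ((u : ℝ) / X) = 0 := by
    by_contra h3
    exact absurd (CH.Phi_supp X hX u h3) (by linarith)
  rw [h2] at h1
  exact le_antisymm h1 (Ps_nonneg _ _ _)

/-- basic facts on the sequence -/
theorem aS_facts (ζ υ d X : ℝ) (hP : PAR ζ υ) (h : YF X) (hd0 : 0 ≤ d) (hd : d ≤ 1 / 2) (u : ℕ)
    (hu : (u : ℝ) ≤ 3 * X) : 0 ≤ aS ζ υ d X u ∧ aS ζ υ d X u ≤ 2 * Real.log X ∧
      (aS ζ υ d X u ≠ 0 → ∀ p : ℕ, p.Prime → p ∣ u → (⌊X⌋₊ : ℝ) ^ ζ ≤ p) := by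
  have hX0 : 0 < X := by linarith [h.X4]
  have hc0 : 0 ≤ conv (al ζ υ X) be u := conv_nonneg _ _ (fun m => (al_nonneg ζ υ X hP h m).1) be_nonneg u
  refine ⟨mul_nonneg (Ps_nonneg _ _ _) hc0, ?_, ?_⟩
  · unfold aS
    have h1 := conv_le (al ζ υ X) (al_nonneg ζ υ X hP h) u
    have h2 : Real.log u ≤ 2 * Real.log X := by
      rcases Nat.eq_zero_or_pos u with h0 | h0
      · subst h0
        simp only [Nat.cast_zero, Real.log_zero]
        have := h.L100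
        linarith
      · refine (Real.log_le_log (by exact_mod_cast h0) hu).trans ?_
        exact log_cX X 3 h.X4 (by norm_num) le_rfl
    calc Ps d X u * conv (al ζ υ X) be u ≤ 1 * (2 * Real.log X) :=
          mul_le_mul (Ps_le_one d X u hd0 hd) (h1.trans h2) hc0 zero_le_one
      _ = _ := one_mul _
  · intro ha p hp hpu
    unfold aS at ha
    exact conv_rough ζ υ X hP h u (Ps_supp d X hX0 hd u (left_ne_zero_of_mul ha)).le
      (right_ne_zero_of_mul ha) p hp hpu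

theorem norm_A_aS (ζ υ d X : ℝ) (hX : 0 < X) (hd0 : 0 ≤ d) (hd : d ≤ 1 / 2) (k f : ℕ) :
    ∑ ψ ∈ Prim f, ‖A ⌊3 * X⌋₊ (res k (aS ζ υ d X)) f ψ‖ ≤
      TG d X (conv (res k (al ζ υ X)) (res k be)) f := by
  unfold TG
  apply sum_le_sum
  intro ψ _
  have e : res k (aS ζ υ d X) = fun u => Ps d X u * conv (res k (al ζ υ X)) (res k be) u := by
    funext u
    have h1 := res_conv k (al ζ υ X) be u
    rw [← h1]
    unfold res aS
    split_ifs
    · rfl
    · rw [mul_zero]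
  rw [e]
  exact norm_A_Ps d X hd0 hd hX f ψ _

end Pool.Agent.J4H73.CP
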