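import Pool.Agent.J4H73.CP.Sums
import Pool.Agent.J4H73.CP.Swap
import Pool.Agent.J4H73.CG.Pnt

/-! The mass of the switched sequence. -/

set_option autoImplicit false

open Finset Filter Topology

namespace Pool.Agent.J4H73.CP

open Pool.Agent.Helper112 Pool.Agent.Helper112.BLB Pool.Agent.H410R2 Pool.Agent.H398R2.BV
open Pool.Agent.H378R2 Pool.Agent.H378R2.LSBV Pool.Agent.J4H73.CG Pool.Agent.J4H73.CH
open Pool.Agent.W23.DC (Mer pr tt)

theorem Ps_scale (d X : ℝ) (m b : ℕ) (hm : 0 < m) : Ps d X (m * b) = Ps d (X / m) b := by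
  unfold Ps
  have hm0 : (m : ℝ) ≠ 0 := by positivity
  congr 5
  push_cast
  field_simp

theorem MS_le (ζ υ d X : ℝ) (hP : PAR ζ υ) (h : YF X) (κ : ℝ)
    (hκ : ∀ Z : ℝ, X ^ (3 / 10 : ℝ) ≤ Z → LPs d Z ≤ κ * Z) :
    MS ζ υ d X ≤ κ * X * ∑ m ∈ Icc 1 ⌊3 * X⌋₊, al ζ υ X m * (1 / m) := by
  have hX0 : 0 < X := by linarith [h.X4]
  have e1 : MS ζ υ d X = ∑ m ∈ Icc 1 ⌊3 * X⌋₊, ∑ b ∈ Icc 1 (⌊3 * X⌋₊ / m),
      Ps d X (m * b) * (al ζ υ X m * be b) := by
    rw [← hyperC ⌊3 * X⌋₊ (fun b m => Ps d X (m * b) * (al ζ υ X m * be b))]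
    unfold MS aS conv
    apply sum_congr rfl
    intro u _
    rw [mul_sum]
    rw [Nat.sum_divisorsAntidiagonal (f := fun b m => Ps d X (m * b) * (al ζ υ X m * be b)),
      ← Nat.sum_divisorsAntidiagonal' (f := fun m b => Ps d X (m * b) * (al ζ υ X m * be b))]
    apply sum_congr rfl
    intro i hi
    rw [Nat.mem_divisorsAntidiagonal] at hi
    rw [hi.1]
  rw [e1, mul_sum]
  apply sum_le_sum
  intro m hm
  rw [mem_Icc] at hm
  have hm0 : (0 : ℝ) < m := by exact_mod_cast hm.1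
  by_cases hz : al ζ υ X m = 0
  · rw [hz]
    simp
  have hs := al_supp ζ υ X hP h m hz
  have hm7 : (m : ℝ) ≤ X ^ (7 / 10 : ℝ) := (Nat.le_floor_iff (by positivity)).1 hs.2
  have hZ : X ^ (3 / 10 : ℝ) ≤ X / m := by
    rw [le_div_iff₀ hm0]
    calc X ^ (3 / 10 : ℝ) * m ≤ X ^ (3 / 10 : ℝ) * X ^ (7 / 10 : ℝ) := by gcongr
      _ = X := by rw [← Real.rpow_add hX0]; norm_num
  have hfl : ⌊3 * X⌋₊ / m = ⌊3 * (X / m)⌋₊ := by
    rw [← Nat.floor_div_natCast]
    congr 1
    ring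
  have ha := (al_nonneg ζ υ X hP h m).1
  rw [hfl]
  have e2 : ∑ b ∈ Icc 1 ⌊3 * (X / m)⌋₊, Ps d X (m * b) * (al ζ υ X m * be b) ≤
      al ζ υ X m * LPs d (X / m) := by
    unfold LPs
    rw [mul_sum]
    apply sum_le_sum
    intro b _
    rw [Ps_scale d X m b hm.1]
    have h1 := be_le_Lam b
    have h2 := Ps_nonneg d (X / m) b
    calc Ps d (X / m) b * (al ζ υ X m * be b) = al ζ υ X m * (Ps d (X / m) b * be b) := by ring
      _ ≤ _ := by gcongr
  refine e2.trans ?_
  calc al ζ υ X m * LPs d (X / m) ≤ al ζ υ X m * (κ * (X / m)) :=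
        mul_le_mul_of_nonneg_left (hκ _ hZ) ha
    _ = _ := by ring

open Classical in
theorem al_sum (κ : ℝ) (hκ : 0 < κ) : ∀ᶠ X : ℝ in atTop,
    ∑ m ∈ Icc 1 ⌊3 * X⌋₊, al (1243 / 10000) (1667 / 5000) X m * (1 / m) ≤ (cst + κ) / Real.log ⌊X⌋₊ := by
  obtain ⟨N₀, hN⟩ := dsum κ hκ
  filter_upwards [ev_YF, eventually_ge_atTop ((N₀ : ℝ) + 1), Real.tendsto_log_atTop.eventually_ge_atTop (10000 : ℝ)]
    with X h hXN hL
  have hX0 : 0 < X := by linarith [h.X4]
  have hX1 : 1 ≤ X := by linarith [h.X4]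
  have hY0 : (0 : ℝ) < (⌊X⌋₊ : ℝ) := by linarith [h.Y100]
  have hYN : N₀ ≤ ⌊X⌋₊ := Nat.le_floor (by linarith)
  have hD := hN ⌊X⌋₊ hYN
  have hLY : 9000 ≤ Real.log ⌊X⌋₊ := by
    have h1 : Real.log X ≤ Real.log (2 * ⌊X⌋₊) := Real.log_le_log hX0 h.XY
    rw [Real.log_mul (by norm_num) hY0.ne'] at h1
    have := Real.log_two_lt_d9
    linarith
  set Y := ⌊X⌋₊ with hYdef
  have hLY0 : 0 < Real.log Y := by linarith
  have hP : PAR (1243 / 10000) (1667 / 5000) := ⟨by norm_num, by norm_num, by norm_num, by norm_num⟩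
  set Pq := pr Y (1243 / 10000) (1667 / 5000) with hPq
  set Pp : ℕ → Finset ℕ := fun q => pr Y (1667 / 5000) ((1 - tt Y q) / 2 + 1 / 5000) with hPp
  set TT' : Finset (Sigma fun _ : ℕ => ℕ) := Pq.sigma Pp with hTT'
  -- the facts for a pair
  have hpair : ∀ q p : ℕ, q.Prime → p.Prime → (Y : ℝ) ^ (1243 / 10000 : ℝ) ≤ q → (q : ℝ) < (Y : ℝ) ^ (1667 / 5000 : ℝ) →
      (Y : ℝ) ^ (1667 / 5000 : ℝ) ≤ p → (q : ℝ) * (p : ℝ) ^ 2 ≤ 3 * X →
      q ∈ Pq ∧ p ∈ Pp q ∧ (1 / ((q * p : ℕ) : ℝ)) * (1 / Real.log (X / ((q * p : ℕ) : ℝ))) ≤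
        (1 / Real.log Y) * (1 / ((q : ℝ) - 1) * (1 / ((p : ℝ) - 1) * (1 / (1 - tt Y q - tt Y p)))) := by
    intro q p hq hp h1 h2 h3 h4
    have hq0 : (0 : ℝ) < q := by exact_mod_cast hq.pos
    have hp0 : (0 : ℝ) < p := by exact_mod_cast hp.pos
    have hq2 : (2 : ℝ) ≤ q := by exact_mod_cast hq.two_le
    have hp2 : (2 : ℝ) ≤ p := by exact_mod_cast hp.two_le
    have a1 : 1243 / 10000 ≤ tt Y q := by
      unfold Pool.Agent.W23.DC.tt
      rw [le_div_iff₀ hLY0, ← Real.log_rpow hY0]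
      exact Real.log_le_log (by positivity) h1
    have a2 : tt Y q < 1667 / 5000 := by
      unfold Pool.Agent.W23.DC.tt
      rw [div_lt_iff₀ hLY0, ← Real.log_rpow hY0]
      exact Real.log_lt_log hq0 h2
    have a3 : 1667 / 5000 ≤ tt Y p := by
      unfold Pool.Agent.W23.DC.tt
      rw [le_div_iff₀ hLY0, ← Real.log_rpow hY0]
      exact Real.log_le_log (by positivity) h3
    have a4 : tt Y p < (1 - tt Y q) / 2 + 1 / 5000 := by
      have e1 : Real.log q + 2 * Real.log p ≤ Real.log Y + 3 := by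
        have e2 : Real.log ((q : ℝ) * (p : ℝ) ^ 2) ≤ Real.log (6 * Y) := by
          apply Real.log_le_log (by positivity)
          linarith [h.XY]
        rw [Real.log_mul hq0.ne' (by positivity), Real.log_pow, Real.log_mul (by norm_num) hY0.ne'] at e2
        have e3 : Real.log 6 ≤ 3 := by
          rw [Real.log_le_iff_le_exp (by norm_num)]
          have := Real.add_one_lt_exp (show (3 : ℝ) ≠ 0 by norm_num)
          have e4 : Real.exp 3 = Real.exp 1 * Real.exp 1 * Real.exp 1 := by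
            rw [← Real.exp_add, ← Real.exp_add]; norm_num
          have e5 := Real.exp_one_gt_d9
          rw [e4]
          nlinarith
        push_cast at e2
        linarith
      have e6 : tt Y q + 2 * tt Y p ≤ 1 + 3 / Real.log Y := by
        unfold Pool.Agent.W23.DC.tt
        calc Real.log q / Real.log Y + 2 * (Real.log p / Real.log Y) =
            (Real.log q + 2 * Real.log p) / Real.log Y := by ring
          _ ≤ (Real.log Y + 3) / Real.log Y := div_le_div_of_nonneg_right e1 hLY0.le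
          _ = _ := by field_simp
      have e7 : 3 / Real.log Y ≤ 3 / 9000 := div_le_div_of_nonneg_left (by norm_num) (by norm_num) hLY
      linarith
    have hqY : q ≤ Y := by
      have : (q : ℝ) ≤ Y := by
        refine h2.le.trans ?_
        calc (Y : ℝ) ^ (1667 / 5000 : ℝ) ≤ (Y : ℝ) ^ (1 : ℝ) :=
              Real.rpow_le_rpow_of_exponent_le (by linarith [h.Y100]) (by norm_num)
          _ = Y := Real.rpow_one _
      exact_mod_cast this
    have hpY : p ≤ Y := by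
      have e8 : tt Y p ≤ 1 := by linarith
      unfold Pool.Agent.W23.DC.tt at e8
      rw [div_le_one hLY0] at e8
      have := (Real.log_le_log_iff hp0 hY0).1 e8
      exact_mod_cast this
    refine ⟨mem_pr'.2 ⟨⟨hq.one_lt.le, hqY⟩, hq, a1, a2⟩, mem_pr'.2 ⟨⟨hp.one_lt.le, hpY⟩, hp, a3, a4⟩, ?_⟩
    have hpos : 0 < 1 - tt Y q - tt Y p := by linarith
    have e9 : Real.log Y * (1 - tt Y q - tt Y p) ≤ Real.log (X / ((q * p : ℕ) : ℝ)) := by
      have e10 : Real.log Y * (1 - tt Y q - tt Y p) = Real.log Y - Real.log q - Real.log p := by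
        unfold Pool.Agent.W23.DC.tt
        field_simp
      rw [e10, Real.log_div hX0.ne' (by push_cast; positivity)]
      push_cast
      rw [Real.log_mul hq0.ne' hp0.ne']
      have := Real.log_le_log hY0 h.YX
      linarith
    have e11 : 0 < Real.log Y * (1 - tt Y q - tt Y p) := by positivity
    calc (1 / ((q * p : ℕ) : ℝ)) * (1 / Real.log (X / ((q * p : ℕ) : ℝ))) ≤
        (1 / (((q : ℝ) - 1) * ((p : ℝ) - 1))) * (1 / (Real.log Y * (1 - tt Y q - tt Y p))) := by
          push_cast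
          apply mul_le_mul _ _ (by
            apply div_nonneg zero_le_one
            push_cast at e9
            linarith) (by
            apply div_nonneg zero_le_one
            apply mul_nonneg <;> linarith)
          · apply one_div_le_one_div_of_le
            · apply mul_pos <;> linarith
            · nlinarith
          · push_cast at e9
            exact one_div_le_one_div_of_le e11 e9
      _ = _ := by
          have g1 : (q : ℝ) - 1 ≠ 0 := by
            have : (0 : ℝ) < (q : ℝ) - 1 := by linarith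
            exact this.ne'
          have g2 : (p : ℝ) - 1 ≠ 0 := by
            have : (0 : ℝ) < (p : ℝ) - 1 := by linarith
            exact this.ne'
          field_simp
  set F : ℕ → ℝ := fun m => (1 / (m : ℝ)) * (1 / Real.log (X / m)) with hF
  -- choose the pair
  have hch : ∀ m : ℕ, ∃ x : (Sigma fun _ : ℕ => ℕ), QP (1243 / 10000) (1667 / 5000) X m →
      x ∈ TT' ∧ x.1 * x.2 = m ∧ F m ≤ (1 / Real.log Y) * (1 / ((x.1 : ℝ) - 1) * (1 / ((x.2 : ℝ) - 1) *
        (1 / (1 - tt Y x.1 - tt Y x.2)))) := by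
    intro m
    by_cases hm : QP (1243 / 10000) (1667 / 5000) X m
    · obtain ⟨q, p, hq, hp, hqp, h1, h2, h3, h4⟩ := hm
      obtain ⟨k1, k2, k3⟩ := hpair q p hq hp h1 h2 h3 h4
      refine ⟨⟨q, p⟩, fun _ => ⟨mem_sigma.2 ⟨k1, k2⟩, hqp.symm, ?_⟩⟩
      rw [hqp]
      exact k3
    · exact ⟨⟨0, 0⟩, fun h => absurd h hm⟩
  choose x hx using hch
  have e1 : ∑ m ∈ Icc 1 ⌊3 * X⌋₊, al (1243 / 10000) (1667 / 5000) X m * (1 / m) =
      ∑ m ∈ (Icc 1 ⌊3 * X⌋₊).filter (fun m => QP (1243 / 10000) (1667 / 5000) X m), F m := by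
    rw [sum_filter]
    apply sum_congr rfl
    intro m _
    unfold al
    split_ifs
    · simp only [hF]; ring
    · ring
  rw [e1]
  have e2 : ∑ m ∈ (Icc 1 ⌊3 * X⌋₊).filter (fun m => QP (1243 / 10000) (1667 / 5000) X m), F m ≤
      ∑ m ∈ (Icc 1 ⌊3 * X⌋₊).filter (fun m => QP (1243 / 10000) (1667 / 5000) X m),
        (fun y : (Sigma fun _ : ℕ => ℕ) => (1 / Real.log Y) * (1 / ((y.1 : ℝ) - 1) * (1 / ((y.2 : ℝ) - 1) *
        (1 / (1 - tt Y y.1 - tt Y y.2))))) (x m) := by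
    apply sum_le_sum
    intro m hm
    exact (hx m (mem_filter.1 hm).2).2.2
  refine e2.trans ?_
  rw [← sum_image (f := fun y : (Sigma fun _ : ℕ => ℕ) => (1 / Real.log Y) * (1 / ((y.1 : ℝ) - 1) *
    (1 / ((y.2 : ℝ) - 1) * (1 / (1 - tt Y y.1 - tt Y y.2)))))]
  · have e3 : ∑ y ∈ ((Icc 1 ⌊3 * X⌋₊).filter (fun m => QP (1243 / 10000) (1667 / 5000) X m)).image x,
        (1 / Real.log Y) * (1 / ((y.1 : ℝ) - 1) * (1 / ((y.2 : ℝ) - 1) * (1 / (1 - tt Y y.1 - tt Y y.2)))) ≤
        ∑ y ∈ TT', (1 / Real.log Y) * (1 / ((y.1 : ℝ) - 1) * (1 / ((y.2 : ℝ) - 1) *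
          (1 / (1 - tt Y y.1 - tt Y y.2)))) := by
      apply sum_le_sum_of_subset_of_nonneg
      · intro y hy
        rw [mem_image] at hy
        obtain ⟨m, hm, rfl⟩ := hy
        exact (hx m (mem_filter.1 hm).2).1
      · intro y hy _
        rw [hTT', mem_sigma] at hy
        have b1 := mem_pr'.1 hy.1
        have b2 := mem_pr'.1 hy.2
        have c1 : (2 : ℝ) ≤ y.1 := by exact_mod_cast b1.2.1.two_le
        have c2 : (2 : ℝ) ≤ y.2 := by exact_mod_cast b2.2.1.two_le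
        have c3 : 0 < 1 - tt Y y.1 - tt Y y.2 := by
          have := b2.2.2.2
          have := b1.2.2.2
          linarith
        have c4 : 0 ≤ 1 / ((y.1 : ℝ) - 1) := div_nonneg zero_le_one (by linarith)
        have c5 : 0 ≤ 1 / ((y.2 : ℝ) - 1) := div_nonneg zero_le_one (by linarith)
        positivity
    refine e3.trans ?_
    rw [hTT', sum_sigma]
    calc _ = (1 / Real.log Y) * ∑ q ∈ Pq, 1 / ((q : ℝ) - 1) * ∑ p ∈ Pp q, 1 / ((p : ℝ) - 1) *
          (1 / (1 - tt Y q - tt Y p)) := by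
          simp_rw [mul_sum]
      _ ≤ (1 / Real.log Y) * (cst + κ) := mul_le_mul_of_nonneg_left hD (by positivity)
      _ = _ := by ring
  · intro m hm m' hm' he
    rw [mem_coe, mem_filter] at hm hm'
    have h1 := (hx m hm.2).2.1
    have h2 := (hx m' hm'.2).2.1
    rw [← h1, ← h2, he]

theorem massS (d : ℝ) (hd0 : 0 < d) (hd : d ≤ 1 / 2) (θ : ℝ) (hθ : 0 < θ) : ∀ᶠ X : ℝ in atTop,
    Real.log X * MS (1243 / 10000) (1667 / 5000) d X ≤ (kap d * cst + θ) * X := by
  have hk := kap_pos d hd0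
  have hc := cst_pos
  obtain ⟨κ, hκd⟩ : ∃ κ : ℝ, κ = min 1 (θ / (2 * ((kap d + 1) * (cst + 1)))) := ⟨_, rfl⟩
  have hκ0 : 0 < κ := by rw [hκd]; exact lt_min one_pos (by positivity)
  have hκ1 : κ ≤ 1 := by rw [hκd]; exact min_le_left _ _
  have hκθ : κ * (2 * ((kap d + 1) * (cst + 1))) ≤ θ := by
    have : κ ≤ θ / (2 * ((kap d + 1) * (cst + 1))) := by rw [hκd]; exact min_le_right _ _
    rwa [le_div_iff₀ (by positivity)] at this
  have hev := (LPs_asymp d hd0.le hd).eventually (Iio_mem_nhds (show kap d < kap d + κ by linarith))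
  obtain ⟨Z0, hZ0⟩ := eventually_atTop.1 (hev.and (eventually_gt_atTop 0))
  filter_upwards [ev_YF, al_sum κ hκ0,
    (tendsto_rpow_atTop (show (0 : ℝ) < 3 / 10 by norm_num)).eventually_ge_atTop Z0,
    Real.tendsto_log_atTop.eventually_ge_atTop (1 / κ + 1)] with X h hal hZ hLκ
  have hX0 : 0 < X := by linarith [h.X4]
  have hY0 : (0 : ℝ) < (⌊X⌋₊ : ℝ) := by linarith [h.Y100]
  have hP : PAR (1243 / 10000) (1667 / 5000) := ⟨by norm_num, by norm_num, by norm_num, by norm_num⟩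
  have h1 := MS_le (1243 / 10000) (1667 / 5000) d X hP h (kap d + κ) (fun Z hZ2 => by
    obtain ⟨k1, k2⟩ := hZ0 Z (hZ.trans hZ2)
    have k3 : LPs d Z / Z < kap d + κ := k1
    rw [div_lt_iff₀ k2] at k3
    exact k3.le)
  set L := Real.log X with hL
  set LY := Real.log ⌊X⌋₊ with hLY
  have hLYL : L - 1 ≤ LY := by
    have h1 : Real.log X ≤ Real.log (2 * ⌊X⌋₊) := Real.log_le_log hX0 h.XY
    rw [Real.log_mul (by norm_num) hY0.ne'] at h1
    have := Real.log_two_lt_d9
    linarith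
  have hLY0 : 0 < LY := by
    have : 0 < 1 / κ := by positivity
    linarith
  have hL0 : 0 < L := by linarith [h.L100]
  have hratio : L / LY ≤ 1 + κ := by
    rw [div_le_iff₀ hLY0]
    have h3 : 1 / κ ≤ LY := by linarith
    rw [div_le_iff₀ hκ0] at h3
    nlinarith
  calc L * MS (1243 / 10000) (1667 / 5000) d X ≤ L * ((kap d + κ) * X * ((cst + κ) / LY)) := by
        apply mul_le_mul_of_nonneg_left _ hL0.le
        refine h1.trans ?_
        exact mul_le_mul_of_nonneg_left hal (by positivity)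
    _ = (kap d + κ) * (cst + κ) * (L / LY) * X := by ring
    _ ≤ (kap d + κ) * (cst + κ) * (1 + κ) * X := by gcongr
    _ ≤ (kap d * cst + θ) * X := by
        apply mul_le_mul_of_nonneg_right _ hX0.le
        have e1 : (kap d + κ) * (cst + κ) * (1 + κ) ≤ kap d * cst + κ * (2 * ((kap d + 1) * (cst + 1))) := by
          have e2 : (kap d + κ) * (cst + κ) ≤ kap d * cst + κ * ((kap d + 1) * (cst + 1)) := by
            have a1 : κ * κ ≤ κ * 1 := mul_le_mul_of_nonneg_left hκ1 hκ0.le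
            have a2 : 0 ≤ κ * (kap d * cst) := by positivity
            calc (kap d + κ) * (cst + κ) = kap d * cst + κ * (kap d + cst) + κ * κ := by ring
              _ ≤ kap d * cst + κ * (kap d + cst) + κ * 1 + κ * (kap d * cst) := by linarith
              _ = _ := by ring
          have e3 : (kap d + κ) * (cst + κ) ≤ (kap d + 1) * (cst + 1) := by gcongr
          have e4 := mul_le_mul_of_nonneg_left e3 hκ0.le
          linarith
        linarith

end Pool.Agent.J4H73.CP
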