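import Pool.Agent.J4H73.CP.SwS

/-! The pointwise inequality for two prime factors, and the ratio of the masses. -/

set_option autoImplicit false

open Finset Filter Topology

namespace Pool.Agent.J4H73.CP

open Pool.Agent.H378R2 Pool.Agent.Y882 Pool.Agent.J4H73.CH Pool.Agent.J4H73.CG
open Pool.Agent.W23.DC (Mer pr SF)
open Pool.Agent

theorem pow_le_prod (l : List ℕ) (z : ℝ) (hz : 0 ≤ z) (h : ∀ p ∈ l, z ≤ (p : ℝ)) :
    z ^ l.length ≤ (l.prod : ℝ) := by
  induction l with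
  | nil => simp
  | cons a l ih =>
    have h1 := ih (fun p hp => h p (List.mem_cons_of_mem _ hp))
    have h2 := h a List.mem_cons_self
    rw [List.length_cons, List.prod_cons, pow_succ, Nat.cast_mul]
    calc z ^ l.length * z = z * z ^ l.length := by ring
      _ ≤ (a : ℝ) * (l.prod : ℝ) := mul_le_mul h2 h1 (by positivity) (Nat.cast_nonneg a)

theorem length_le (m : ℕ) (hm : m ≠ 0) (z : ℝ) (hz : 1 < z) (h : ∀ p : ℕ, p.Prime → p ∣ m → z ≤ (p : ℝ))
    (hmz : (m : ℝ) < z ^ 3) : m.primeFactorsList.length ≤ 2 := by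
  by_contra hc
  push Not at hc
  have h1 := pow_le_prod m.primeFactorsList z (by linarith) (fun p hp =>
    h p (Nat.prime_of_mem_primeFactorsList hp) (Nat.dvd_of_mem_primeFactorsList hp))
  rw [Nat.prod_primeFactorsList hm] at h1
  have h2 : z ^ 3 ≤ z ^ m.primeFactorsList.length := pow_le_pow_right₀ hz.le hc
  linarith

open Classical in
theorem hpt2 : ∀ᶠ X : ℝ in atTop, ∀ N : ℕ, 0 < N → (N : ℝ) ≤ 12 * X →
    KW.WW ⌊X⌋₊ (1243 / 10000) (1667 / 5000) (1 / 2) 0 N ≤
        (if CH.AP 2 (12 / 100) X N then 1 else 0) + 1 / 2 * (if Sw (1243 / 10000) (1667 / 5000) X N then 1 else 0) +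
          (if ∃ q ∈ pr ⌊X⌋₊ (1243 / 10000) (1667 / 5000), q ^ 2 ∣ N then 1 else 0) := by
  filter_upwards [ev_YF, (tendsto_rpow_atTop (show (0 : ℝ) < 1 / 5000 by norm_num)).eventually_ge_atTop 48]
    with X hY h48
  intro N hN hNX
  have hX0 : 0 < X := by linarith [hY.X4]
  have hX1 : 1 ≤ X := by linarith [hY.X4]
  set Y := ⌊X⌋₊ with hYd
  have hYr : (100 : ℝ) ≤ Y := hY.Y100
  have hY0 : (0 : ℝ) < Y := by linarith
  have hY2 : 2 ≤ Y := by
    have : (2 : ℝ) ≤ Y := by linarith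
    exact_mod_cast this
  have n1 : (0 : ℝ) ≤ (if CH.AP 2 (12 / 100) X N then 1 else 0) := by split_ifs <;> norm_num
  have n2 : (0 : ℝ) ≤ 1 / 2 * (if Sw (1243 / 10000) (1667 / 5000) X N then 1 else 0) := by
    split_ifs <;> norm_num
  have n3 : (0 : ℝ) ≤ (if ∃ q ∈ pr Y (1243 / 10000) (1667 / 5000), q ^ 2 ∣ N then 1 else 0) := by
    split_ifs <;> norm_num
  have hle := KW.WW_le_one Y (1243 / 10000) (1667 / 5000) (1 / 2) 0 le_rfl (by norm_num) N
  by_cases hsq : ∃ q ∈ pr Y (1243 / 10000) (1667 / 5000), q ^ 2 ∣ N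
  · rw [if_pos hsq]
    linarith
  by_cases hr : ∀ p ∈ Y882.PZ Y (1243 / 10000), ¬ p ∣ N
  swap
  · unfold KW.WW
    rw [if_neg hr, zero_mul]
    linarith
  -- all prime factors are large
  have hpw : ∀ w : ℝ, w ≤ 1 → (Y : ℝ) ^ w ≤ Y := by
    intro w hw
    calc (Y : ℝ) ^ w ≤ (Y : ℝ) ^ (1 : ℝ) :=
          Real.rpow_le_rpow_of_exponent_le (by linarith) hw
      _ = Y := Real.rpow_one _
  have hbig : ∀ p : ℕ, p.Prime → p ∣ N → (Y : ℝ) ^ (1243 / 10000 : ℝ) ≤ p := by
    intro p hp hpN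
    by_contra hlt
    push Not at hlt
    refine hr p ?_ hpN
    unfold Y882.PZ
    rw [mem_filter, mem_Icc]
    refine ⟨⟨hp.one_le, ?_⟩, hp, (tt_lt Y p _ hY2 hp.pos).2 hlt⟩
    exact_mod_cast (hlt.le.trans (hpw _ (by norm_num)))
  -- primes are in `pr` or beyond
  have hcl : ∀ p : ℕ, p.Prime → p ∣ N → p ∉ pr Y (1243 / 10000) (1667 / 5000) → (Y : ℝ) ^ (1667 / 5000 : ℝ) ≤ p := by
    intro p hp hpN hnot
    by_contra hlt
    push Not at hlt
    apply hnot
    rw [mem_pr']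
    refine ⟨⟨hp.one_le, ?_⟩, hp, ?_, (tt_lt Y p _ hY2 hp.pos).2 hlt⟩
    · exact_mod_cast (hlt.le.trans (hpw _ (by norm_num)))
    · by_contra hlt2
      push Not at hlt2
      have := (tt_lt Y p _ hY2 hp.pos).1 hlt2
      linarith [hbig p hp hpN]
  have hYυ1 : 1 < (Y : ℝ) ^ (1667 / 5000 : ℝ) := Real.one_lt_rpow (by linarith) (by norm_num)
  have hcube : 12 * X < ((Y : ℝ) ^ (1667 / 5000 : ℝ)) ^ 3 := by
    have e1 : ((Y : ℝ) ^ (1667 / 5000 : ℝ)) ^ 3 = (Y : ℝ) ^ (1 + 1 / 5000 : ℝ) := by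
      rw [← Real.rpow_natCast, ← Real.rpow_mul hY0.le]; norm_num
    rw [e1, Real.rpow_add hY0, Real.rpow_one]
    have e2 : (X / 2) ^ (1 / 5000 : ℝ) ≤ (Y : ℝ) ^ (1 / 5000 : ℝ) :=
      Real.rpow_le_rpow (by positivity) (by linarith [hY.XY]) (by norm_num)
    have e3 : X ^ (1 / 5000 : ℝ) ≤ 1.9 * (X / 2) ^ (1 / 5000 : ℝ) := by
      have e4 : X ^ (1 / 5000 : ℝ) = 2 ^ (1 / 5000 : ℝ) * (X / 2) ^ (1 / 5000 : ℝ) := by
        rw [← Real.mul_rpow (by norm_num) (by positivity)]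
        congr 1
        ring
      rw [e4]
      apply mul_le_mul_of_nonneg_right _ (by positivity)
      calc (2 : ℝ) ^ (1 / 5000 : ℝ) ≤ 2 ^ (1 / 2 : ℝ) :=
            Real.rpow_le_rpow_of_exponent_le (by norm_num) (by norm_num)
        _ = Real.sqrt 2 := (Real.sqrt_eq_rpow 2).symm
        _ ≤ 1.9 := by
            rw [Real.sqrt_le_left (by norm_num)]
            norm_num
    have e5 : (25 : ℝ) ≤ (Y : ℝ) ^ (1 / 5000 : ℝ) := by linarith
    nlinarith [hY.XY]
  have hAP : N.primeFactorsList.length ≤ 2 → CH.AP 2 (12 / 100) X N := by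
    intro hl
    refine ⟨hl, fun p hp hpN => le_trans ?_ (hbig p hp hpN)⟩
    refine le_trans ?_ (rpow_Y X hY (1243 / 10000) (by norm_num)).2
    exact Real.rpow_le_rpow_of_exponent_le hX1 (by norm_num)
  by_cases hAP' : CH.AP 2 (12 / 100) X N
  · rw [if_pos hAP']
    linarith
  have hl3 : ¬ N.primeFactorsList.length ≤ 2 := fun h => hAP' (hAP h)
  -- there is a prime in `pr`
  have hex : ∃ q ∈ pr Y (1243 / 10000) (1667 / 5000), q ∣ N := by
    by_contra hc
    push Not at hc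
    apply hl3
    exact length_le N hN.ne' _ hYυ1 (fun p hp hpN => hcl p hp hpN (fun hm => hc p hm hpN)) (by linarith)
  obtain ⟨q, hq, hqN⟩ := hex
  have hqp := (mem_pr'.1 hq).2.1
  by_cases hex2 : ∃ q' ∈ pr Y (1243 / 10000) (1667 / 5000), q' ∣ N ∧ q' ≠ q
  · obtain ⟨q', hq', hq'N, hne⟩ := hex2
    have hS : 1 ≤ ∑ q ∈ pr Y (1243 / 10000) (1667 / 5000), ((1 / 2 : ℝ) - 0 * W23.DC.tt Y q) * (if q ∣ N then (1 : ℝ) else 0) := by
      have h1 : ∑ x ∈ ({q', q} : Finset ℕ), ((1 / 2 : ℝ) - 0 * W23.DC.tt Y x) * (if x ∣ N then (1 : ℝ) else 0) ≤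
          ∑ q ∈ pr Y (1243 / 10000) (1667 / 5000), ((1 / 2 : ℝ) - 0 * W23.DC.tt Y q) * (if q ∣ N then (1 : ℝ) else 0) := by
        apply sum_le_sum_of_subset_of_nonneg
        · intro x hx
          rw [mem_insert, mem_singleton] at hx
          rcases hx with rfl | rfl
          · exact hq'
          · exact hq
        · intro x _ _
          split_ifs <;> norm_num
      rw [sum_pair hne, if_pos hq'N, if_pos hqN] at h1
      linarith
    unfold KW.WW
    rw [if_pos hr, one_mul]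
    linarith
  · push Not at hex2
    have hS : 1 / 2 ≤ ∑ q ∈ pr Y (1243 / 10000) (1667 / 5000), ((1 / 2 : ℝ) - 0 * W23.DC.tt Y q) * (if q ∣ N then (1 : ℝ) else 0) := by
      have h1 := single_le_sum (f := fun x => ((1 / 2 : ℝ) - 0 * W23.DC.tt Y x) * (if x ∣ N then (1 : ℝ) else 0))
        (fun x _ => by split_ifs <;> norm_num) hq
      beta_reduce at h1
      rw [if_pos hqN] at h1
      linarith
    have hW : KW.WW Y (1243 / 10000) (1667 / 5000) (1 / 2) 0 N ≤ 1 / 2 := by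
      unfold KW.WW
      rw [if_pos hr, one_mul]
      linarith
    -- `N = q m`
    obtain ⟨m, hm⟩ := hqN
    have hm0 : m ≠ 0 := by rintro rfl; rw [mul_zero] at hm; omega
    have hqm : ¬ q ∣ m := by
      rintro ⟨k, hk⟩
      apply hsq
      refine ⟨q, hq, k, ?_⟩
      rw [hm, hk]
      ring
    have hmbig : ∀ p : ℕ, p.Prime → p ∣ m → (Y : ℝ) ^ (1667 / 5000 : ℝ) ≤ p := by
      intro p hp hpm
      have hpN : p ∣ N := by rw [hm]; exact Dvd.dvd.mul_left hpm q
      apply hcl p hp hpN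
      intro hpp
      have := hex2 p hpp hpN
      rw [this] at hpm
      exact hqm hpm
    have hmN : (m : ℝ) ≤ N := by
      have : m ≤ N := by rw [hm]; exact Nat.le_mul_of_pos_left m hqp.pos
      exact_mod_cast this
    have hlm := length_le m hm0 _ hYυ1 hmbig (by linarith)
    have hlen : N.primeFactorsList.length = m.primeFactorsList.length + 1 := by
      rw [hm, ← ArithmeticFunction.cardFactors_apply, ← ArithmeticFunction.cardFactors_apply,
        ArithmeticFunction.cardFactors_mul hqp.ne_zero hm0, ArithmeticFunction.cardFactors_apply_prime hqp]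
      ring
    have hl2 : m.primeFactorsList.length = 2 := by omega
    obtain ⟨a, b, hab⟩ := List.length_eq_two.1 hl2
    have hprod := Nat.prod_primeFactorsList hm0
    rw [hab] at hprod
    simp only [List.prod_cons, List.prod_nil, mul_one] at hprod
    have hap : a.Prime := Nat.prime_of_mem_primeFactorsList (by rw [hab]; simp : a ∈ m.primeFactorsList)
    have hbp : b.Prime := Nat.prime_of_mem_primeFactorsList (by rw [hab]; simp : b ∈ m.primeFactorsList)
    have ham : a ∣ m := by rw [← hprod]; exact dvd_mul_right a b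
    have hbm : b ∣ m := by rw [← hprod]; exact dvd_mul_left b a
    have hq1 : (Y : ℝ) ^ (1243 / 10000 : ℝ) ≤ q := hbig q hqp (by rw [hm]; exact dvd_mul_right q m)
    have hq2 : (q : ℝ) < (Y : ℝ) ^ (1667 / 5000 : ℝ) := (tt_lt Y q _ hY2 hqp.pos).1 (mem_pr'.1 hq).2.2.2
    have hSw : Sw (1243 / 10000) (1667 / 5000) X N := by
      rcases le_total a b with hle | hle
      · exact ⟨q, a, b, hqp, hap, hbp, by rw [hm, ← hprod]; ring, hq1, hq2, hmbig a hap ham, hle⟩
      · exact ⟨q, b, a, hqp, hbp, hap, by rw [hm, ← hprod]; ring, hq1, hq2, hmbig b hbp hbm, hle⟩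
    rw [if_pos hSw]
    linarith

theorem kap_eq (x : ℝ) : kap x = Real.exp (1 / 2) * (2 * (Real.cosh x - 1)) := by
  unfold kap
  rw [Real.cosh_eq, Real.exp_add, Real.exp_sub, Real.exp_neg]
  field_simp
  ring

theorem kap_low (x : ℝ) (hx : 0 ≤ x) : Real.exp (1 / 2) * x ^ 2 ≤ kap x := by
  rw [kap_eq]
  apply mul_le_mul_of_nonneg_left _ (Real.exp_pos _).le
  have h1 : Real.cosh x = 1 + 2 * Real.sinh (x / 2) ^ 2 := by
    have h2 : x = 2 * (x / 2) := by ring
    conv_lhs => rw [h2]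
    rw [Real.cosh_two_mul, Real.cosh_sq]
    ring
  rw [h1]
  have h3 : (x / 2) ^ 2 ≤ Real.sinh (x / 2) ^ 2 := by
    exact pow_le_pow_left₀ (by linarith) (Real.self_le_sinh_iff.2 (by linarith)) 2
  nlinarith

theorem kap_up (x : ℝ) (hx : |x| ≤ 1) : kap x ≤ Real.exp (1 / 2) * (x ^ 2 * (1 + x ^ 2)) := by
  rw [kap_eq]
  apply mul_le_mul_of_nonneg_left _ (Real.exp_pos _).le
  have h1 := Real.cosh_le_exp_half_sq x
  have h2 : x ^ 2 ≤ 1 := by
    rw [← sq_abs]
    have := abs_nonneg x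
    nlinarith
  have h3 : |Real.exp (x ^ 2 / 2) - 1 - x ^ 2 / 2| ≤ (x ^ 2 / 2) ^ 2 := by
    apply Real.abs_exp_sub_one_sub_id_le
    rw [abs_of_nonneg (by positivity)]
    linarith
  have h4 := (abs_le.1 h3).2
  nlinarith [sq_nonneg x, sq_nonneg (x ^ 2)]

theorem kap_ratio : kap (101 / 100000) / kap (1 / 1000) ≤ 103 / 100 := by
  have h1 := kap_low (1 / 1000) (by norm_num)
  have h2 := kap_up (101 / 100000) (by rw [abs_of_nonneg (by norm_num)]; norm_num)
  have h3 := kap_pos (1 / 1000) (by norm_num)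
  rw [div_le_iff₀ h3]
  refine h2.trans ?_
  have h4 := Real.exp_pos (1 / 2 : ℝ)
  nlinarith

end Pool.Agent.J4H73.CP
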