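import Pool.Agent.J4H73.CP.Ls
import Pool.Agent.J4H73.CH.Exc
import Pool.Agent.J4H73.CH.Pre

/-! The sequence of the switched sum. -/

set_option autoImplicit false

open Finset Filter Topology

namespace Pool.Agent.J4H73.CP

open Pool.Agent.Helper112 Pool.Agent.Helper112.BLB Pool.Agent.H410R2 Pool.Agent.H398R2.BV
open Pool.Agent.H378R2 Pool.Agent.H378R2.LSBV Pool.Agent.J4H73.CG Pool.Agent.J4H73.CH

/-- the pairs `q p` -/
def QP (ζ υ X : ℝ) (m : ℕ) : Prop := ∃ q p : ℕ, q.Prime ∧ p.Prime ∧ m = q * p ∧ (⌊X⌋₊ : ℝ) ^ ζ ≤ q ∧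
  (q : ℝ) < (⌊X⌋₊ : ℝ) ^ υ ∧ (⌊X⌋₊ : ℝ) ^ υ ≤ p ∧ (q : ℝ) * (p : ℝ) ^ 2 ≤ 3 * X

open Classical in
/-- the first factor -/
noncomputable def al (ζ υ X : ℝ) (m : ℕ) : ℝ := if QP ζ υ X m then 1 / Real.log (X / m) else 0

/-- the second factor -/
noncomputable def be (n : ℕ) : ℝ := if n.Prime then Real.log n else 0

/-- the switched numbers -/
def Sw (ζ υ X : ℝ) (N : ℕ) : Prop := ∃ q p2 p3 : ℕ, q.Prime ∧ p2.Prime ∧ p3.Prime ∧ N = q * p2 * p3 ∧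
  (⌊X⌋₊ : ℝ) ^ ζ ≤ q ∧ (q : ℝ) < (⌊X⌋₊ : ℝ) ^ υ ∧ (⌊X⌋₊ : ℝ) ^ υ ≤ p2 ∧ p2 ≤ p3

theorem be_nonneg (n : ℕ) : 0 ≤ be n := by
  unfold be
  split_ifs
  · exact Real.log_natCast_nonneg n
  · exact le_rfl

theorem be_le_Lam (n : ℕ) : be n ≤ ArithmeticFunction.vonMangoldt n := by
  unfold be
  split_ifs with h
  · rw [ArithmeticFunction.vonMangoldt_apply_prime h]
  · exact ArithmeticFunction.vonMangoldt_nonneg

theorem be_le_log (n : ℕ) : be n ≤ Real.log n :=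
  (be_le_Lam n).trans ArithmeticFunction.vonMangoldt_le_log

/-- basic facts on `⌊X⌋` -/
structure YF (X : ℝ) : Prop where
  X4 : 100 ≤ X
  Y100 : (100 : ℝ) ≤ (⌊X⌋₊ : ℝ)
  YX : (⌊X⌋₊ : ℝ) ≤ X
  XY : X ≤ 2 * (⌊X⌋₊ : ℝ)
  Yp : X ^ (999 / 1000 : ℝ) ≤ (⌊X⌋₊ : ℝ)
  X3 : 9 ≤ X ^ (1 / 1000 : ℝ)
  L100 : 100 ≤ Real.log X

theorem ev_YF : ∀ᶠ X : ℝ in atTop, YF X := by
  filter_upwards [floor_facts, eventually_ge_atTop (100 : ℝ),
    (tendsto_rpow_atTop (show (0 : ℝ) < 1 / 1000 by norm_num)).eventually_ge_atTop 9,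
    Real.tendsto_log_atTop.eventually_ge_atTop (100 : ℝ)] with X h1 h2 h3 h4
  obtain ⟨f1, f2, f3, f4⟩ := h1
  have hX0 : 0 < X := by linarith
  refine ⟨h2, by exact_mod_cast f1, f2, f3, ?_, h3, h4⟩
  have h5 : X ^ (999 / 1000 : ℝ) * 2 ≤ X ^ (999 / 1000 : ℝ) * X ^ (1 / 1000 : ℝ) := by
    apply mul_le_mul_of_nonneg_left _ (by positivity)
    linarith
  rw [← Real.rpow_add hX0] at h5
  norm_num at h5
  linarith

/-- the parameters -/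
structure PAR (ζ υ : ℝ) : Prop where
  z : 3 / 25 ≤ ζ
  z2 : ζ ≤ 1 / 4
  u : 1 / 3 < υ
  u2 : υ ≤ 17 / 50

theorem rpow_Y (X : ℝ) (h : YF X) (a : ℝ) (ha : 0 ≤ a) : (⌊X⌋₊ : ℝ) ^ a ≤ X ^ a ∧
    X ^ (999 / 1000 * a) ≤ (⌊X⌋₊ : ℝ) ^ a := by
  have hX0 : 0 < X := by linarith [h.X4]
  refine ⟨Real.rpow_le_rpow (by linarith [h.Y100]) h.YX ha, ?_⟩
  rw [Real.rpow_mul hX0.le]
  exact Real.rpow_le_rpow (by positivity) h.Yp ha

theorem QP_range (ζ υ X : ℝ) (hP : PAR ζ υ) (h : YF X) (m : ℕ) (hm : QP ζ υ X m) :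
    X ^ (2 / 5 : ℝ) ≤ m ∧ (m : ℝ) ≤ X ^ (7 / 10 : ℝ) := by
  obtain ⟨q, p, hq, hp, rfl, h1, h2, h3, h4⟩ := hm
  have hX0 : 0 < X := by linarith [h.X4]
  have hX1 : 1 ≤ X := by linarith [h.X4]
  obtain ⟨z1, z2, u1, u2⟩ := hP
  obtain ⟨a1, a2⟩ := rpow_Y X h ζ (by linarith)
  obtain ⟨b1, b2⟩ := rpow_Y X h υ (by linarith)
  have hq0 : (0 : ℝ) < q := by exact_mod_cast hq.pos
  have hp0 : (0 : ℝ) < p := by exact_mod_cast hp.pos
  push_cast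
  constructor
  · calc X ^ (2 / 5 : ℝ) ≤ X ^ (999 / 1000 * ζ + 999 / 1000 * υ) :=
          Real.rpow_le_rpow_of_exponent_le hX1 (by linarith)
      _ = X ^ (999 / 1000 * ζ) * X ^ (999 / 1000 * υ) := by rw [Real.rpow_add hX0]
      _ ≤ (q : ℝ) * p := mul_le_mul (a2.trans h1) (b2.trans h3) (by positivity) hq0.le
  · have e1 : ((q : ℝ) * p) ^ 2 ≤ (X ^ (7 / 10 : ℝ)) ^ 2 := by
      calc ((q : ℝ) * p) ^ 2 = q * (q * p ^ 2) := by ring
        _ ≤ X ^ υ * (3 * X) := mul_le_mul (h2.le.trans b1) h4 (by positivity) (by positivity)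
        _ ≤ X ^ υ * (X ^ (1 / 1000 : ℝ) * X) := by
            apply mul_le_mul_of_nonneg_left _ (by positivity)
            apply mul_le_mul_of_nonneg_right _ hX0.le
            linarith [h.X3]
        _ = X ^ (υ + (1 / 1000 + 1)) := by
            rw [Real.rpow_add hX0, Real.rpow_add hX0, Real.rpow_one]
        _ ≤ X ^ (7 / 10 * 2 : ℝ) := Real.rpow_le_rpow_of_exponent_le hX1 (by linarith)
        _ = (X ^ (7 / 10 : ℝ)) ^ 2 := by
            rw [Real.rpow_mul hX0.le]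
            norm_cast
    exact le_of_sq_le_sq e1 (by positivity)
where
  le_of_sq_le_sq {a b : ℝ} (h : a ^ 2 ≤ b ^ 2) (hb : 0 ≤ b) : a ≤ b := by
    exact le_of_abs_le (abs_le_of_sq_le_sq h hb)

theorem log_ge (X : ℝ) (h : YF X) (m : ℕ) (hm0 : 0 < m) (hm : (m : ℝ) ≤ X ^ (7 / 10 : ℝ)) :
    3 / 10 * Real.log X ≤ Real.log (X / m) := by
  have hX0 : 0 < X := by linarith [h.X4]
  have hm0r : (0 : ℝ) < m := by exact_mod_cast hm0
  rw [Real.log_div hX0.ne' hm0r.ne']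
  have h1 : Real.log m ≤ 7 / 10 * Real.log X := by
    rw [← Real.log_rpow hX0]
    exact Real.log_le_log hm0r hm
  linarith

theorem al_nonneg (ζ υ X : ℝ) (hP : PAR ζ υ) (h : YF X) (m : ℕ) : 0 ≤ al ζ υ X m ∧ al ζ υ X m ≤ 1 := by
  unfold al
  split_ifs with hm
  · have h1 := QP_range ζ υ X hP h m hm
    have hm0 : 0 < m := by
      obtain ⟨q, p, hq, hp, rfl, _⟩ := hm
      exact Nat.mul_pos hq.pos hp.pos
    have h2 := log_ge X h m hm0 h1.2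
    have h3 := h.L100
    have h4 : 1 ≤ Real.log (X / m) := by linarith
    refine ⟨by positivity, ?_⟩
    rw [div_le_one (by linarith)]
    exact h4
  · exact ⟨le_rfl, zero_le_one⟩

theorem al_supp (ζ υ X : ℝ) (hP : PAR ζ υ) (h : YF X) (m : ℕ) (hm : al ζ υ X m ≠ 0) :
    ⌈X ^ (2 / 5 : ℝ)⌉₊ ≤ m ∧ m ≤ ⌊X ^ (7 / 10 : ℝ)⌋₊ := by
  have hX0 : 0 < X := by linarith [h.X4]
  have hm1 : QP ζ υ X m := by
    by_contra hc
    apply hm
    unfold al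
    rw [if_neg hc]
  have h1 := QP_range ζ υ X hP h m hm1
  exact ⟨Nat.ceil_le.2 h1.1, (Nat.le_floor_iff (by positivity)).2 h1.2⟩

theorem conv_nonneg (α β : ℕ → ℝ) (hα : ∀ m, 0 ≤ α m) (hβ : ∀ m, 0 ≤ β m) (u : ℕ) : 0 ≤ conv α β u :=
  sum_nonneg fun i _ => mul_nonneg (hα _) (hβ _)

theorem conv_le (α : ℕ → ℝ) (hα : ∀ m, 0 ≤ α m ∧ α m ≤ 1) (u : ℕ) :
    conv α be u ≤ Real.log u := by
  unfold conv
  have h1 : ∑ i ∈ u.divisorsAntidiagonal, α i.1 * be i.2 ≤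
      ∑ i ∈ u.divisorsAntidiagonal, ArithmeticFunction.vonMangoldt i.2 := by
    apply sum_le_sum
    intro i _
    calc α i.1 * be i.2 ≤ 1 * ArithmeticFunction.vonMangoldt i.2 :=
          mul_le_mul (hα _).2 (be_le_Lam _) (be_nonneg _) zero_le_one
      _ = _ := one_mul _
  refine h1.trans (le_of_eq ?_)
  rw [Nat.sum_divisorsAntidiagonal' (f := fun _ b => ArithmeticFunction.vonMangoldt b)]
  exact ArithmeticFunction.vonMangoldt_sum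

theorem conv_ge (ζ υ X : ℝ) (hP : PAR ζ υ) (h : YF X) (u : ℕ) (hu : Sw ζ υ X u) (hXu : X ≤ u)
    (hu3 : (u : ℝ) ≤ 3 * X) : 1 ≤ conv (al ζ υ X) be u := by
  obtain ⟨q, p2, p3, hq, hp2, hp3, rfl, h1, h2, h3, h4⟩ := hu
  have hX0 : 0 < X := by linarith [h.X4]
  have hq0 : (0 : ℝ) < q := by exact_mod_cast hq.pos
  have hp20 : (0 : ℝ) < p2 := by exact_mod_cast hp2.pos
  have hp30 : (0 : ℝ) < p3 := by exact_mod_cast hp3.pos
  have h4r : (p2 : ℝ) ≤ p3 := by exact_mod_cast h4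
  push_cast at hXu hu3
  have hQP : QP ζ υ X (q * p2) := by
    refine ⟨q, p2, hq, hp2, rfl, h1, h2, h3, ?_⟩
    calc (q : ℝ) * (p2 : ℝ) ^ 2 = q * p2 * p2 := by ring
      _ ≤ q * p2 * p3 := mul_le_mul_of_nonneg_left h4r (by positivity)
      _ ≤ _ := hu3
  have hr := QP_range ζ υ X hP h _ hQP
  have hm0 : 0 < q * p2 := Nat.mul_pos hq.pos hp2.pos
  have hl := log_ge X h _ hm0 hr.2
  have hl2 := h.L100
  have hterm : 1 ≤ al ζ υ X (q * p2) * be p3 := by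
    unfold al be
    rw [if_pos hQP, if_pos hp3, one_div, inv_mul_eq_div, one_le_div (by linarith)]
    apply Real.log_le_log (by positivity)
    rw [div_le_iff₀ (by positivity)]
    push_cast
    linarith
  refine hterm.trans ?_
  unfold conv
  have hmem : (q * p2, p3) ∈ (q * p2 * p3).divisorsAntidiagonal := by
    rw [Nat.mem_divisorsAntidiagonal]
    exact ⟨rfl, (Nat.mul_pos hm0 hp3.pos).ne'⟩
  exact single_le_sum (f := fun i : ℕ × ℕ => al ζ υ X i.1 * be i.2)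
    (fun i _ => mul_nonneg (al_nonneg ζ υ X hP h _).1 (be_nonneg _)) hmem

/-- the prime factors are large -/
theorem conv_rough (ζ υ X : ℝ) (hP : PAR ζ υ) (h : YF X) (u : ℕ) (hXu : X ≤ u)
    (hu : conv (al ζ υ X) be u ≠ 0) (p : ℕ) (hp : p.Prime) (hpu : p ∣ u) : (⌊X⌋₊ : ℝ) ^ ζ ≤ p := by
  have hX0 : 0 < X := by linarith [h.X4]
  have hX1 : 1 ≤ X := by linarith [h.X4]
  obtain ⟨z1, z2, u1, u2⟩ := id hP
  obtain ⟨i, hi, hi0⟩ := exists_ne_zero_of_sum_ne_zero hu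
  rw [Nat.mem_divisorsAntidiagonal] at hi
  have ha : al ζ υ X i.1 ≠ 0 := left_ne_zero_of_mul hi0
  have hb : be i.2 ≠ 0 := right_ne_zero_of_mul hi0
  have hm1 : QP ζ υ X i.1 := by
    by_contra hc
    apply ha
    unfold al
    rw [if_neg hc]
  have hp3 : i.2.Prime := by
    by_contra hc
    apply hb
    unfold be
    rw [if_neg hc]
  have hr := QP_range ζ υ X hP h _ hm1
  obtain ⟨q, p2, hq, hp2, hm, h1, h2, h3, h4⟩ := hm1
  rw [← hi.1, hm] at hpu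
  have hYυ : (⌊X⌋₊ : ℝ) ^ ζ ≤ (⌊X⌋₊ : ℝ) ^ υ :=
    Real.rpow_le_rpow_of_exponent_le (by linarith [h.Y100]) (by linarith)
  rcases (Nat.Prime.dvd_mul hp).1 hpu with hd | hd
  · rcases (Nat.Prime.dvd_mul hp).1 hd with hd | hd
    · rw [(Nat.prime_dvd_prime_iff_eq hp hq).1 hd]
      exact h1
    · rw [(Nat.prime_dvd_prime_iff_eq hp hp2).1 hd]
      exact hYυ.trans h3
  · rw [(Nat.prime_dvd_prime_iff_eq hp hp3).1 hd]
    have e1 : X ^ (3 / 10 : ℝ) ≤ i.2 := by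
      have e2 : X ≤ X ^ (7 / 10 : ℝ) * i.2 := by
        calc X ≤ u := hXu
          _ = (i.1 : ℝ) * i.2 := by rw [← hi.1]; push_cast; ring
          _ ≤ _ := mul_le_mul_of_nonneg_right hr.2 (Nat.cast_nonneg _)
      have e3 : X = X ^ (7 / 10 : ℝ) * X ^ (3 / 10 : ℝ) := by
        rw [← Real.rpow_add hX0]; norm_num
      have e4 : (0 : ℝ) < X ^ (7 / 10 : ℝ) := by positivity
      rw [e3] at e2
      have e5 : (X ^ (7 / 10 : ℝ) * X ^ (3 / 10 : ℝ)) ^ (7 / 10 : ℝ) = X ^ (7 / 10 : ℝ) := by rw [← e3]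
      rw [e5] at e2
      exact le_of_mul_le_mul_left e2 e4
    refine le_trans ?_ e1
    refine (rpow_Y X h ζ (by linarith)).1.trans ?_
    exact Real.rpow_le_rpow_of_exponent_le hX1 (by linarith)

end Pool.Agent.J4H73.CP
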