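import Pool.Agent.J4H73.CP.Const
import Pool.Agent.J4H73.CP.Seq
import Pool.Agent.W505.DC.MI
import Pool.Agent.W378.DC.MP

/-! The double sum over primes. -/

set_option autoImplicit false

open Finset Filter Topology

namespace Pool.Agent.J4H73.CP

open Pool.Agent.W23.DC (Mer pr tt)

theorem mer_pr (ζ η : ℝ) (hζ : 0 < ζ) (hη : 0 < η) : ∃ N₀ : ℕ, ∀ N : ℕ, N₀ ≤ N →
    Mer (pr N ζ 1) (tt N) (fun p => 1 / ((p : ℝ) - 1)) ζ 1 η := by
  obtain ⟨N₀, h⟩ := Pool.Agent.W378.DC.MP ζ η hζ hη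
  refine ⟨N₀, fun N hN a b ha hab hb => ?_⟩
  have h1 := h N hN a b ha hab hb
  have e : (pr N ζ 1).filter (fun p => a ≤ tt N p ∧ tt N p < b) = pr N a b := by
    unfold pr
    ext p
    simp only [mem_filter]
    constructor
    · rintro ⟨⟨h1, h2, h3, h4⟩, h5, h6⟩
      exact ⟨h1, h2, h5, h6⟩
    · rintro ⟨h1, h2, h5, h6⟩
      exact ⟨⟨h1, h2, ha.trans h5, h6.trans_le hb⟩, h5, h6⟩
  rw [e]
  exact h1

theorem pr_filter (N : ℕ) (ζ a b : ℝ) (ha : ζ ≤ a) (hb : b ≤ 1) :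
    (pr N ζ 1).filter (fun p => a ≤ tt N p ∧ tt N p < b) = pr N a b := by
  unfold pr
  ext p
  simp only [mem_filter]
  constructor
  · rintro ⟨⟨h1, h2, h3, h4⟩, h5, h6⟩
    exact ⟨h1, h2, h5, h6⟩
  · rintro ⟨h1, h2, h5, h6⟩
    exact ⟨⟨h1, h2, ha.trans h5, h6.trans_le hb⟩, h5, h6⟩

theorem mem_pr' {N : ℕ} {a b : ℝ} {p : ℕ} : p ∈ pr N a b ↔ (1 ≤ p ∧ p ≤ N) ∧ p.Prime ∧ a ≤ tt N p ∧ tt N p < b := by
  unfold pr
  rw [mem_filter, mem_Icc]

theorem int_inner (x a b : ℝ) (ha : 0 < a) (hab : a ≤ b) (hb : b < 1 - x) :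
    ∫ y in a..b, 1 / (1 - x - y) / y = 1 / (1 - x) * (Real.log ((1 - x - a) / a) + Real.log (b / (1 - x - b))) := by
  have hx : 0 < 1 - x := by linarith
  have key : ∀ y ∈ Set.uIcc a b, HasDerivAt (fun y : ℝ => 1 / (1 - x) * (Real.log y - Real.log (1 - x - y)))
      (1 / (1 - x - y) / y) y := by
    intro y hy
    rw [Set.uIcc_of_le hab] at hy
    have hy0 : 0 < y := lt_of_lt_of_le ha hy.1
    have hy1 : 0 < 1 - x - y := by linarith [hy.2]
    have h1 : HasDerivAt (fun y : ℝ => Real.log y) (1 / y) y := by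
      simpa using Real.hasDerivAt_log hy0.ne'
    have h2 : HasDerivAt (fun y : ℝ => Real.log (1 - x - y)) (-1 / (1 - x - y)) y := by
      have := ((hasDerivAt_id y).const_sub (1 - x)).log (by simpa using hy1.ne')
      simpa using this
    have h3 := (h1.sub h2).const_mul (1 / (1 - x))
    refine h3.congr_deriv ?_
    field_simp
    ring
  rw [intervalIntegral.integral_eq_sub_of_hasDerivAt key]
  · have hb0 : 0 < b := by linarith
    have hb1 : 0 < 1 - x - b := by linarith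
    have ha1 : 0 < 1 - x - a := by linarith
    rw [Real.log_div ha1.ne' ha.ne', Real.log_div hb0.ne' hb1.ne']
    ring
  · apply ContinuousOn.intervalIntegrable
    rw [Set.uIcc_of_le hab]
    apply ContinuousOn.div
    · apply ContinuousOn.div continuousOn_const (by fun_prop)
      intro y hy
      have : 0 < 1 - x - y := by linarith [hy.2]
      exact this.ne'
    · fun_prop
    · intro y hy
      have : 0 < y := lt_of_lt_of_le ha hy.1
      exact this.ne'

theorem int_outer (a b : ℝ) (ha : 0 < a) (hab : a ≤ b) :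
    ∫ x in a..b, pq x / x = 301 / 500 * Real.log (b / a) + 51 / 100 * (b - a) - 171 / 50 * (b ^ 2 - a ^ 2) := by
  have key : ∀ y ∈ Set.uIcc a b, HasDerivAt (fun y : ℝ => 301 / 500 * Real.log y + 51 / 100 * y - 171 / 50 * y ^ 2)
      (pq y / y) y := by
    intro y hy
    rw [Set.uIcc_of_le hab] at hy
    have hy0 : 0 < y := lt_of_lt_of_le ha hy.1
    have h1 : HasDerivAt (fun y : ℝ => Real.log y) (1 / y) y := by
      simpa using Real.hasDerivAt_log hy0.ne'
    have h2 := (((h1.const_mul (301 / 500)).add ((hasDerivAt_id y).const_mul (51 / 100))).sub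
      ((hasDerivAt_pow 2 y).const_mul (171 / 50)))
    refine h2.congr_deriv ?_
    unfold pq
    field_simp
    push_cast
    ring
  rw [intervalIntegral.integral_eq_sub_of_hasDerivAt key]
  · have hb0 : 0 < b := by linarith
    rw [Real.log_div hb0.ne' ha.ne']
    ring
  · apply ContinuousOn.intervalIntegrable
    rw [Set.uIcc_of_le hab]
    apply ContinuousOn.div
    · unfold pq
      fun_prop
    · fun_prop
    · intro y hy
      have : 0 < y := lt_of_lt_of_le ha hy.1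
      exact this.ne'

/-- the constant of the switched sum -/
noncomputable def cst : ℝ := 301 / 500 * Real.log ((1667 / 5000) / (1243 / 10000)) +
  51 / 100 * (1667 / 5000 - 1243 / 10000) - 171 / 50 * ((1667 / 5000) ^ 2 - (1243 / 10000) ^ 2)

theorem cst_le : cst ≤ 747 / 2000 := by
  unfold cst
  have := num2
  norm_num at this ⊢
  linarith

theorem cst_pos : 0 < cst := by
  unfold cst
  have h : (9 / 10 : ℝ) ≤ Real.log ((1667 / 5000) / (1243 / 10000)) := by
    rw [Real.le_log_iff_exp_le (by norm_num)]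
    have h1 := Real.exp_one_lt_d9
    have h2 : Real.exp (9 / 10) = Real.exp 1 / Real.exp (1 / 10) := by
      rw [← Real.exp_sub]; norm_num
    have h3 : (1.1 : ℝ) ≤ Real.exp (1 / 10) := by
      have := Real.add_one_le_exp (1 / 10 : ℝ)
      linarith
    rw [h2, div_le_iff₀ (Real.exp_pos _)]
    nlinarith
  norm_num at h ⊢
  linarith

theorem inner (κ₁ : ℝ) (hκ : 0 < κ₁) : ∃ N₀ : ℕ, ∀ Y : ℕ, N₀ ≤ Y → ∀ x : ℝ, 1243 / 10000 ≤ x → x ≤ 1667 / 5000 →
    ∑ p ∈ pr Y (1667 / 5000) ((1 - x) / 2 + 1 / 5000), 1 / ((p : ℝ) - 1) * (1 / (1 - x - tt Y p)) ≤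
      pq x + κ₁ := by
  obtain ⟨κ, hκd⟩ : ∃ κ : ℝ, κ = κ₁ / (2 * Real.log (1 / (1243 / 10000)) + 2) := ⟨_, rfl⟩
  have hl0 : 0 ≤ Real.log (1 / (1243 / 10000)) := Real.log_nonneg (by norm_num)
  have hκ0 : 0 < κ := by rw [hκd]; positivity
  obtain ⟨η, hη, hMI⟩ := Pool.Agent.W505.DC.MI (1243 / 10000) (κ / 16) κ 4 (by norm_num) (by norm_num)
    (by positivity) hκ0 (by norm_num)
  obtain ⟨N₀, hN⟩ := mer_pr (1243 / 10000) η (by norm_num) hη
  refine ⟨N₀, fun Y hY x hx1 hx2 => ?_⟩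
  have h1 := hMI (pr Y (1243 / 10000) 1) (tt Y) (fun p => 1 / ((p : ℝ) - 1)) 1 le_rfl (by
    intro p hp
    have := (mem_pr'.1 hp).2.1.two_le
    have h2 : (2 : ℝ) ≤ p := by exact_mod_cast this
    apply div_nonneg zero_le_one
    linarith) (hN Y hY) (1667 / 5000) ((1 - x) / 2 + 1 / 5000) (fun y => 1 / (1 - x - y))
    (by norm_num) (by linarith) (by linarith) (by
      apply ContinuousOn.div continuousOn_const (by fun_prop)
      intro y hy
      have : 0 < 1 - x - y := by linarith [hy.2]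
      exact this.ne') (by
      intro y hy
      have h3 : 1 / 4 ≤ 1 - x - y := by linarith [hy.2]
      rw [abs_of_nonneg (by positivity), div_le_iff₀ (by linarith)]
      linarith) (by
      intro y hy y' hy' hd
      have h3 : 1 / 4 ≤ 1 - x - y := by linarith [hy.2]
      have h4 : 1 / 4 ≤ 1 - x - y' := by linarith [hy'.2]
      have h5 : 0 < 1 - x - y := by linarith
      have h6 : 0 < 1 - x - y' := by linarith
      have e : 1 / (1 - x - y) - 1 / (1 - x - y') = (y - y') * (1 / ((1 - x - y) * (1 - x - y'))) := by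
        field_simp
        ring
      rw [e, abs_mul, abs_of_nonneg (show 0 ≤ 1 / ((1 - x - y) * (1 - x - y')) by positivity)]
      have h7 : 1 / ((1 - x - y) * (1 - x - y')) ≤ 16 := by
        rw [div_le_iff₀ (by positivity)]
        nlinarith
      calc |y - y'| * (1 / ((1 - x - y) * (1 - x - y'))) ≤ (κ / 16) * 16 := by gcongr
        _ = κ := by ring)
  rw [pr_filter Y (1243 / 10000) _ _ (by norm_num) (by linarith),
    int_inner x _ _ (by norm_num) (by linarith) (by linarith)] at h1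
  have h2 := (abs_le.1 h1).2
  have h3 := pq_bound x hx1 hx2
  have e1 : κ * (2 * Real.log (1 / (1243 / 10000)) + 2) = κ₁ := by
    rw [hκd]
    field_simp
  rw [e1] at h2
  have e2 : 1 - x - ((1 - x) / 2 + 1 / 5000) = (1 - x) / 2 - 1 / 5000 := by ring
  rw [e2] at h2
  linarith

theorem dsum (κ : ℝ) (hκ : 0 < κ) : ∃ N₀ : ℕ, ∀ Y : ℕ, N₀ ≤ Y →
    ∑ q ∈ pr Y (1243 / 10000) (1667 / 5000), 1 / ((q : ℝ) - 1) *
      ∑ p ∈ pr Y (1667 / 5000) ((1 - tt Y q) / 2 + 1 / 5000), 1 / ((p : ℝ) - 1) * (1 / (1 - tt Y q - tt Y p)) ≤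
      cst + κ := by
  obtain ⟨κ₂, hκ₂⟩ : ∃ κ₂ : ℝ, κ₂ = κ / 2 / (2 * Real.log (1 / (1243 / 10000)) + 2) := ⟨_, rfl⟩
  have hl0 : 0 ≤ Real.log (1 / (1243 / 10000)) := Real.log_nonneg (by norm_num)
  have hκ20 : 0 < κ₂ := by rw [hκ₂]; positivity
  obtain ⟨η, hη, hMI⟩ := Pool.Agent.W505.DC.MI (1243 / 10000) (κ₂ / 15) κ₂ 2 (by norm_num) (by norm_num)
    (by positivity) hκ20 (by norm_num)
  obtain ⟨N₀, hN⟩ := mer_pr (1243 / 10000) η (by norm_num) hη
  obtain ⟨N₂, hN2⟩ := mer_pr (1243 / 10000) 1 (by norm_num) one_pos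
  obtain ⟨N₁, hin⟩ := inner (κ / 4) (by positivity)
  refine ⟨max N₀ (max N₁ N₂), fun Y hY => ?_⟩
  have hg0 : ∀ (a b : ℝ) (p : ℕ), p ∈ pr Y a b → 0 ≤ 1 / ((p : ℝ) - 1) := by
    intro a b p hp
    have := (mem_pr'.1 hp).2.1.two_le
    have h2 : (2 : ℝ) ≤ p := by exact_mod_cast this
    apply div_nonneg zero_le_one
    linarith
  have h1 := hMI (pr Y (1243 / 10000) 1) (tt Y) (fun p => 1 / ((p : ℝ) - 1)) 1 le_rfl (hg0 _ _)
    (hN Y ((le_max_left _ _).trans hY)) (1243 / 10000) (1667 / 5000) pq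
    (by norm_num) (by norm_num) (by norm_num) (by unfold pq; fun_prop) (by
      intro y hy
      unfold pq
      rw [abs_le]
      constructor <;> nlinarith [hy.1, hy.2]) (by
      intro y hy y' hy' hd
      have e : pq y - pq y' = (y - y') * (51 / 100 - 171 / 25 * (y + y')) := by
        unfold pq; ring
      rw [e, abs_mul]
      have h7 : |51 / 100 - 171 / 25 * (y + y')| ≤ 15 := by
        rw [abs_le]
        constructor <;> linarith [hy.1, hy.2, hy'.1, hy'.2]
      calc |y - y'| * |51 / 100 - 171 / 25 * (y + y')| ≤ (κ₂ / 15) * 15 := by gcongr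
        _ = κ₂ := by ring)
  rw [pr_filter Y (1243 / 10000) _ _ le_rfl (by norm_num), int_outer _ _ (by norm_num) (by norm_num)] at h1
  have h2 := (abs_le.1 h1).2
  have e1 : κ₂ * (2 * Real.log (1 / (1243 / 10000)) + 2) = κ / 2 := by
    rw [hκ₂]
    field_simp
  rw [e1] at h2
  have h3 := hN2 Y ((le_max_right _ _).trans ((le_max_right _ _).trans hY)) (1243 / 10000) (1667 / 5000)
    le_rfl (by norm_num) (by norm_num)
  rw [pr_filter Y (1243 / 10000) _ _ le_rfl (by norm_num)] at h3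
  have h4 := (abs_le.1 h3).2
  have h5 := num2
  have h6 : ∑ q ∈ pr Y (1243 / 10000) (1667 / 5000), 1 / ((q : ℝ) - 1) ≤ 2 := by linarith
  have h7 : ∑ q ∈ pr Y (1243 / 10000) (1667 / 5000), 1 / ((q : ℝ) - 1) *
      ∑ p ∈ pr Y (1667 / 5000) ((1 - tt Y q) / 2 + 1 / 5000), 1 / ((p : ℝ) - 1) * (1 / (1 - tt Y q - tt Y p)) ≤
      ∑ q ∈ pr Y (1243 / 10000) (1667 / 5000), 1 / ((q : ℝ) - 1) * (pq (tt Y q) + κ / 4) := by
    apply sum_le_sum
    intro q hq
    apply mul_le_mul_of_nonneg_left _ (hg0 _ _ q hq)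
    have h8 := mem_pr'.1 hq
    exact hin Y ((le_max_left _ _).trans ((le_max_right _ _).trans hY)) (tt Y q) h8.2.2.1 h8.2.2.2.le
  refine h7.trans ?_
  have e2 : ∑ q ∈ pr Y (1243 / 10000) (1667 / 5000), 1 / ((q : ℝ) - 1) * (pq (tt Y q) + κ / 4) =
      ∑ q ∈ pr Y (1243 / 10000) (1667 / 5000), 1 / ((q : ℝ) - 1) * pq (tt Y q) +
      κ / 4 * ∑ q ∈ pr Y (1243 / 10000) (1667 / 5000), 1 / ((q : ℝ) - 1) := by
    rw [mul_sum, ← sum_add_distrib]
    apply sum_congr rfl
    intro q _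
    ring
  rw [e2]
  have h9 := mul_le_mul_of_nonneg_left h6 (show 0 ≤ κ / 4 by positivity)
  unfold cst
  linarith

end Pool.Agent.J4H73.CP
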