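import Pool.Agent.J4H73.CP.Mass
import Pool.Agent.J4H73.CP.DiscS
import Pool.Agent.J4H73.CH.CoreU
import Pool.Agent.J4H73.CG.P3Z

/-! The upper bound for the switched sum. -/

set_option autoImplicit false
set_option maxHeartbeats 4000000

open Finset Filter Topology

namespace Pool.Agent.J4H73.CP

open Pool.Agent.H378R2 Pool.Agent.H378R2.LSBV Pool.Agent.N610.AP Pool.Agent.Y882
open Pool.Agent.J4H73.BV Pool.Agent.J4H73.CH Pool.Agent.J4H73.CG
open Pool.Agent.W23.DC (Mer pr SF)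
open Pool.Agent

/-- the shifts: the sign of `n + h` is constant on the tent, and the tent of `|n + h|` is almost as narrow -/
def HPs (d d' X : ℝ) (h : ℤ) : Prop := HZ X h ∧ ∃ s : ℤ, (s = 1 ∨ s = -1) ∧
  ∀ n : ℕ, Ps d X n ≠ 0 → 0 < s * (n + h) ∧ Ps d X n ≤ Ps d' X ((n : ℤ) + h).natAbs

theorem Ps_supp2 (d X : ℝ) (hX : 0 < X) (hd : d ≤ 1 / 2) (u : ℕ) (h : Ps d X u ≠ 0) : (u : ℝ) ≤ 3 * X := by
  by_contra hn
  push Not at hn
  apply h
  unfold Ps
  apply max_eq_left
  have h1 : 3 < (u : ℝ) / X := by rw [lt_div_iff₀ hX]; exact hn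
  have h2 : 1 ≤ Real.log (u / X) := by
    rw [Real.le_log_iff_exp_le (by linarith)]
    have := Real.exp_one_lt_d9
    linarith
  have h3 : 1 / 2 ≤ |Real.log (u / X) - 1 / 2| := by
    rw [abs_of_nonneg (by linarith)]
    linarith
  linarith

/-- the indicator for arbitrary conditions -/
theorem ind_le (P : Finset ℕ) (hP : ∀ p ∈ P, p.Prime) (c : Finset ℕ → ℝ)
    (hc : ∀ N : ℕ, (if ∀ p ∈ P, ¬ p ∣ N then (1 : ℝ) else 0) ≤ VV P c (fun p => if p ∣ N then 1 else 0))
    (φ : ℕ → Prop) [DecidablePred φ] :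
    (if ∀ p ∈ P, ¬ φ p then (1 : ℝ) else 0) ≤ VV P c (fun p => if φ p then 1 else 0) := by
  set N : ℕ := ∏ p ∈ P.filter φ, p with hN
  have h1 : ∀ p ∈ P, (p ∣ N ↔ φ p) := by
    intro p hp
    constructor
    · intro h
      obtain ⟨q, hq, hpq⟩ := (Prime.dvd_finsetProd_iff (hP p hp).prime _).1 h
      rw [mem_filter] at hq
      rw [(Nat.prime_dvd_prime_iff_eq (hP p hp) (hP q hq.1)).1 hpq]
      exact hq.2
    · intro h
      exact dvd_prod_of_mem _ (mem_filter.2 ⟨hp, h⟩)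
  have h2 := hc N
  have e1 : VV P c (fun p => if p ∣ N then 1 else 0) = VV P c (fun p => if φ p then 1 else 0) := by
    apply CH.VV_congr
    intro p hp
    by_cases h : φ p
    · rw [if_pos h, if_pos ((h1 p hp).2 h)]
    · rw [if_neg h, if_neg (fun h' => h ((h1 p hp).1 h'))]
  rw [e1] at h2
  refine le_trans (le_of_eq ?_) h2
  by_cases h : ∀ p ∈ P, ¬ φ p
  · rw [if_pos h, if_pos (fun p hp h' => h p hp ((h1 p hp).1 h'))]
  · rw [if_neg h, if_neg (fun h' => h (fun p hp h'' => h' p hp ((h1 p hp).2 h'')))]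

theorem evm (d d' κ : ℝ) (hd0 : 0 < d) (hd : d ≤ 1 / 2) (hd'0 : 0 < d') (hd' : d' ≤ 1 / 2) (hκ : 0 < κ) :
    ∀ᶠ X : ℝ in atTop, (Real.log X + 2) * MS (1243 / 10000) (1667 / 5000) d' X ≤
      (kap d' / kap d * cst + κ) * LPs d X := by
  have hk := kap_pos d hd0
  have hk' := kap_pos d' hd'0
  have hc := cst_pos
  obtain ⟨K1, hK1⟩ : ∃ K1 : ℝ, K1 = kap d' * cst + κ * kap d / 2 := ⟨_, rfl⟩
  have hK10 : 0 < K1 := by rw [hK1]; positivity
  obtain ⟨δ, hδ⟩ : ∃ δ : ℝ, δ = κ * kap d / 4 / (kap d' / kap d * cst + κ) := ⟨_, rfl⟩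
  have hδ0 : 0 < δ := by rw [hδ]; positivity
  filter_upwards [massS d' hd'0 hd' (κ * kap d / 2) (by positivity),
    (LPs_asymp d hd0.le hd).eventually (Ioi_mem_nhds (show kap d - δ < kap d by linarith)),
    eventually_gt_atTop 0, Real.tendsto_log_atTop.eventually_ge_atTop (2 * K1 / (κ * kap d / 4) + 1)]
    with X h1 h2 hX0 hL
  have h3 : kap d - δ < LPs d X / X := h2
  rw [lt_div_iff₀ hX0] at h3
  have hL0 : 0 < Real.log X := by
    have : 0 < 2 * K1 / (κ * kap d / 4) := by positivity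
    linarith
  have h4 : 2 * K1 ≤ (κ * kap d / 4) * Real.log X := by
    have : 2 * K1 / (κ * kap d / 4) ≤ Real.log X := by linarith
    rw [div_le_iff₀ (by positivity)] at this
    linarith
  have h5 : (Real.log X + 2) * MS (1243 / 10000) (1667 / 5000) d' X ≤ (K1 + κ * kap d / 4) * X := by
    have e1 : (Real.log X + 2) * MS (1243 / 10000) (1667 / 5000) d' X =
        (1 + 2 / Real.log X) * (Real.log X * MS (1243 / 10000) (1667 / 5000) d' X) := by field_simp
    rw [e1]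
    calc (1 + 2 / Real.log X) * (Real.log X * MS (1243 / 10000) (1667 / 5000) d' X) ≤
        (1 + 2 / Real.log X) * (K1 * X) := by
          rw [hK1]
          exact mul_le_mul_of_nonneg_left h1 (by positivity)
      _ = (K1 + 2 * K1 / Real.log X) * X := by ring
      _ ≤ _ := by
          apply mul_le_mul_of_nonneg_right _ hX0.le
          apply add_le_add_right
          rw [div_le_iff₀ hL0]
          exact h4
  refine h5.trans ?_
  have e2 : (kap d' / kap d * cst + κ) * ((kap d - δ) * X) = (K1 + κ * kap d / 4) * X := by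
    rw [hK1, hδ]
    field_simp
    ring
  rw [← e2]
  apply mul_le_mul_of_nonneg_left h3.le
  positivity

open Classical in
theorem hswS (A0 : ℝ) (F f : ℝ → ℝ) (hSF : SF A0 F f) (d d' : ℝ) (hd0 : 0 < d) (hd : d ≤ 1 / 2)
    (hd'0 : 0 < d') (hd' : d' ≤ 1 / 2) (A N : ℕ) (hN : 20 ≤ N) (Bs : ℝ)
    (hBs : Bs = kap d' / kap d * cst * (A0 / (4969 / 10000))) (θ : ℝ) (hθ : 0 < θ) :
    ∃ ε₀ : ℝ, 0 < ε₀ ∧ ∀ ε₁ : ℝ, 0 < ε₁ → ε₁ ≤ ε₀ → ∃ Zs : ℕ, ∀ᶠ X : ℝ in atTop,
        ∀ (ps : ℕ) (S : Finset ℕ), GoodP Zs ps → GoodS X S →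
        ∑ p ∈ pairs X ps ⌊X ^ (497 / 1000 : ℝ)⌋₊ S, LSBV.wt A p.2 *
          TQ (1243 / 10000) (1667 / 5000) d' X (p.1 * p.2) ≤ X / (Real.log X) ^ N →
        ∀ (h : ℤ) (r : ℕ), HPs d d' X h → r.Coprime (WW X S ps) →
        (∀ p : ℕ, p.Prime → p ∣ WW X S ps → ¬ (p : ℤ) ∣ r + h) →
        ∑ n ∈ (Icc 1 ⌊3 * X⌋₊).filter (fun n : ℕ => n ≡ r [MOD WW X S ps] ∧ n.Prime ∧
            Sw (1243 / 10000) (1667 / 5000) X ((n : ℤ) + h).natAbs),
          Ps d X n * ArithmeticFunction.vonMangoldt n ≤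
          ε₁ * (Bs + θ) * (LPs d X / (WW X S ps).totient *
            ∏ p ∈ Y882.PZ ⌊X⌋₊ ε₁, (1 - gh (WW X S ps) ps h.natAbs p)) +
            X / ((WW X S ps).totient * (Real.log X) ^ 10) := by
  have hA0 := hSF.pos
  have hk := kap_pos d hd0
  have hk' := kap_pos d' hd'0
  have hcst := cst_pos
  have hP : PAR (1243 / 10000) (1667 / 5000) := ⟨by norm_num, by norm_num, by norm_num, by norm_num⟩
  obtain ⟨a, ha⟩ : ∃ a : ℝ, a = kap d' / kap d * cst := ⟨_, rfl⟩
  obtain ⟨b, hb⟩ : ∃ b : ℝ, b = A0 / (4969 / 10000) := ⟨_, rfl⟩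
  have ha0 : 0 < a := by rw [ha]; positivity
  have hb0 : 0 < b := by rw [hb]; positivity
  obtain ⟨κ, hκd⟩ : ∃ κ : ℝ, κ = min 1 (θ / (a + b + 1)) := ⟨_, rfl⟩
  have hκ0 : 0 < κ := by rw [hκd]; exact lt_min one_pos (by positivity)
  have hκ1 : κ ≤ 1 := by rw [hκd]; exact min_le_left _ _
  have hκθ : κ * (a + b + 1) ≤ θ := by
    have : κ ≤ θ / (a + b + 1) := by rw [hκd]; exact min_le_right _ _
    rwa [le_div_iff₀ (by positivity)] at this
  have hab : (a + κ) * (b + κ) ≤ Bs + θ := by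
    have e1 : κ * κ ≤ κ * 1 := mul_le_mul_of_nonneg_left hκ1 hκ0.le
    have e2 : Bs = a * b := by rw [hBs, ha, hb]
    rw [e2]
    nlinarith
  obtain ⟨ε₀, hε₀, HU⟩ := coreU A0 F f hSF 1 (4969 / 10000) (1657 / 10000) (497 / 1000) (by norm_num) (by norm_num)
    (by norm_num) (by norm_num) (by norm_num) κ hκ0
  refine ⟨ε₀, hε₀, fun ε₁ hε0 hεle => ?_⟩
  obtain ⟨η, hη, Y0, HU⟩ := HU ε₁ hε0 hεle
  refine ⟨0, ?_⟩
  filter_upwards [ev_YF, ev_z (1243 / 10000) (by norm_num), discS (1243 / 10000) (1667 / 5000) d' hP hd'0.le hd' A N,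
    merZ ε₁ (1657 / 10000) η hε0 (by norm_num) hη, evm d d' κ hd0 hd hd'0 hd' hκ0, eventually_ge_atTop (Y0 : ℝ),
    Pool.Agent.H398R2.BV.ev_log 8 20 (1 / 20) (by norm_num)]
    with X hY hz HD HM hevm hXY0 hlog20
  intro ps S hps hS hpairs h r hh hr hrh
  obtain ⟨z1, z2, z3, z4⟩ := hz
  obtain ⟨⟨hh0, hhX, hhn⟩, s, hs, hsn⟩ := hh
  have hX0 : 0 < X := by linarith [hY.X4]
  have hX1 : 1 ≤ X := by linarith [hY.X4]
  have hX100 : 100 ≤ X := hY.X4
  have hL100 := hY.L100
  set L := Real.log X with hL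
  have hL0 : 0 < L := by linarith
  have hL1 : 1 ≤ L := by linarith
  set Y := ⌊X⌋₊ with hYd
  have hYY0 : Y0 ≤ Y := Nat.le_floor hXY0
  have hYr : (100 : ℝ) ≤ Y := hY.Y100
  set W := WW X S ps with hW
  have hW0 : 0 < W := H378R2.WW_pos X S ps
  have hφ0 : (0 : ℝ) < W.totient := by exact_mod_cast Nat.totient_pos.2 hW0
  have hφX : (W.totient : ℝ) ≤ X ^ (7 / 5000 : ℝ) := by
    have h1 : (W : ℝ) ≤ X ^ (7 / 5000 : ℝ) :=
      le_trans (by exact_mod_cast Nat.le_of_dvd (primorial_pos _) (WW_dvd_primorial X S ps))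
        (BV.primorial_yy_le' X hX1)
    exact le_trans (by exact_mod_cast Nat.totient_le W) h1
  have hps' : ps = 1 ∨ ps.Prime := by
    rcases hps with h | h
    · exact Or.inl h
    · exact Or.inr h.1
  set N3 := ⌊3 * X⌋₊ with hN3
  have hN3X : (N3 : ℝ) ≤ 3 * X := Nat.floor_le (by positivity)
  have hss : s * s = 1 := by rcases hs with h | h <;> rw [h] <;> norm_num
  have hnat0 : 0 < h.natAbs := Int.natAbs_pos.2 hh0
  have hnatX : (h.natAbs : ℝ) ≤ 9 * X := by
    rw [Nat.cast_natAbs, Int.cast_abs]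
    exact hhX
  -- the large primes dividing `h`
  set PH := h.natAbs.primeFactors.filter (fun p : ℕ => (Y : ℝ) ^ (1243 / 10000 : ℝ) ≤ (p : ℝ)) with hPH
  have hPHp : ∀ p ∈ PH, p.Prime ∧ (Y : ℝ) ^ (1243 / 10000 : ℝ) ≤ p := by
    intro p hp
    rw [hPH, mem_filter] at hp
    exact ⟨Nat.prime_of_mem_primeFactors hp.1, hp.2⟩
  have hPHc : (PH.card : ℝ) ≤ 2 * L := by
    refine (few h.natAbs hnat0 _ z3).trans ?_
    refine (Real.log_le_log (by exact_mod_cast hnat0) hnatX).trans ?_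
    rw [Real.log_mul (by norm_num) hX0.ne']
    have : Real.log 9 ≤ L := Real.log_le_log (by norm_num) (by linarith)
    linarith
  -- the sieve
  obtain ⟨c, hc1, hc2, hc3, hc4⟩ := HU Y hYY0
  set P := Y882.PZ Y (1657 / 10000) with hPd
  have hPp : ∀ p ∈ P, p.Prime := by
    intro p hp
    rw [hPd] at hp
    unfold Y882.PZ at hp
    exact (mem_filter.1 hp).2.1
  have hPZp : ∀ w : ℝ, ∀ p ∈ Y882.PZ Y w, p.Prime := by
    intro w p hp
    unfold Y882.PZ at hp
    exact (mem_filter.1 hp).2.1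
  set h' : ℤ := -(s * h) with hh'
  set ρ : ℕ → ℕ := fun p => rz h' p with hρ
  set a' : ℕ → ℝ := fun u => if ∃ p ∈ PH, p ∣ u then 0 else aS (1243 / 10000) (1667 / 5000) d' X u with ha'
  have haS0 : ∀ u ∈ Icc 1 N3, 0 ≤ aS (1243 / 10000) (1667 / 5000) d' X u := by
    intro u hu
    rw [mem_Icc] at hu
    exact (aS_facts _ _ d' X hP hY hd'0.le hd' u ((Nat.le_floor_iff (by linarith)).1 hu.2)).1
  have ha'0 : ∀ u ∈ Icc 1 N3, 0 ≤ a' u := by
    intro u hu
    simp only [ha']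
    split_ifs
    · exact le_rfl
    · exact haS0 u hu
  -- the class
  obtain ⟨r0, hr0⟩ : ∃ r0 : ℕ, (r0 : ℤ) ≡ s * (r + h) [ZMOD W] := by
    refine ⟨((s * (r + h)) % (W : ℤ)).toNat, ?_⟩
    rw [Int.toNat_of_nonneg (Int.emod_nonneg _ (by exact_mod_cast hW0.ne'))]
    exact Int.mod_modEq _ _
  have hdvd : ∀ p : ℕ, p.Prime → p ∣ W → ((p : ℤ) ∣ r0 ↔ (p : ℤ) ∣ s * (r + h)) := by
    intro p hp hpW
    have h1 : (r0 : ℤ) ≡ s * (r + h) [ZMOD p] := hr0.of_dvd (by exact_mod_cast hpW)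
    exact h1.dvd_iff
  have hsp : ∀ (p : ℕ) (z : ℤ), (p : ℤ) ∣ s * z → (p : ℤ) ∣ z := by
    intro p z hz
    have : z = s * (s * z) := by rw [← mul_assoc, hss, one_mul]
    rw [this]
    exact Dvd.dvd.mul_left hz s
  have hr0c : r0.Coprime W := by
    rw [Nat.coprime_iff_gcd_eq_one, Nat.eq_one_iff_not_exists_prime_dvd]
    intro p hp hpg
    have h1 : p ∣ r0 := hpg.trans (Nat.gcd_dvd_left _ _)
    have h2 : p ∣ W := hpg.trans (Nat.gcd_dvd_right _ _)
    have h3 := (hdvd p hp h2).1 (by exact_mod_cast h1)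
    exact hrh p hp h2 (hsp p _ h3)
  have hWρ : ∀ p ∈ P, p ∣ W → r0 % p ≠ ρ p := by
    intro p hp hpW he
    have hpp := hPp p hp
    rw [rz_iff h' p r0 hpp.pos] at he
    have h1 : (r0 : ℤ) ≡ s * (r + h) [ZMOD p] := hr0.of_dvd (by exact_mod_cast hpW)
    have h2 : (p : ℤ) ∣ s * (r + h) + h' := by
      have h3 : (r0 : ℤ) + h' ≡ s * (r + h) + h' [ZMOD p] := Int.ModEq.add_right _ h1
      exact h3.dvd_iff.1 he
    have h4 : s * (r + h) + h' = s * r := by rw [hh']; ring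
    rw [h4] at h2
    have h5 := hsp p _ h2
    have h6 : p ∣ r := by exact_mod_cast h5
    have h7 : p ∣ Nat.gcd r W := Nat.dvd_gcd h6 hpW
    rw [hr] at h7
    exact hpp.one_lt.ne' (Nat.dvd_one.1 h7)
  have hcQ : ∀ T ⊆ P, c T ≠ 0 → ∏ p ∈ T, p ≤ ⌊X ^ (497 / 1000 : ℝ)⌋₊ := by
    intro T hT hne
    apply Nat.le_floor
    refine (hc2 T hT hne).trans ?_
    exact Real.rpow_le_rpow (by positivity) hY.YX (by norm_num)
  have hρ0 : ∀ p : ℕ, p.Prime → (ρ p = 0 ↔ p ∣ h.natAbs) := by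
    intro p hp
    have h1 := rz_iff h' p 0 hp.pos
    rw [Nat.zero_mod] at h1
    constructor
    · intro h2
      have h3 := h1.1 h2.symm
      rw [Nat.cast_zero, zero_add, hh', dvd_neg] at h3
      exact (dvd_natAbs_iff p h).2 (hsp p h h3)
    · intro h2
      have h3 : (p : ℤ) ∣ ((0 : ℕ) : ℤ) + h' := by
        rw [Nat.cast_zero, zero_add, hh', dvd_neg]
        exact Dvd.dvd.mul_left ((dvd_natAbs_iff p h).1 h2) s
      exact (h1.2 h3).symm
  have hB := HD ps S hpairs PH hPHp (by linarith)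
  have hws := wsum W ps hW0 hps' (Icc 1 N3) a' (MS (1243 / 10000) (1667 / 5000) d' X) r0 P hPp ρ
    (fun p hp => rz_lt h' p (hPp p hp).pos) hWρ hr0c ⌊X ^ (497 / 1000 : ℝ)⌋₊ c 1 hc1 hcQ 0
    ((X / L ^ N + X ^ (9 / 10 : ℝ)) / (W.totient : ℝ)) le_rfl ha'0 (by
      intro p hp hρp _
      apply le_of_eq
      apply sum_eq_zero
      intro u hu
      rw [mem_filter, mem_Icc] at hu
      simp only [ha']
      split_ifs with hex
      · rfl
      · by_contra hne
        apply hex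
        refine ⟨p, ?_, hu.2⟩
        rw [hPH, mem_filter, Nat.mem_primeFactors]
        refine ⟨⟨hPp p hp, (hρ0 p (hPp p hp)).1 hρp, by omega⟩, ?_⟩
        exact (aS_facts _ _ d' X hP hY hd'0.le hd' u
          ((Nat.le_floor_iff (by linarith)).1 hu.1.2)).2.2 hne p (hPp p hp) hu.2) hB
  -- the density
  have hVg : VV P c (gd W ps ρ) = VV P c (gh W ps h.natAbs) := by
    apply CH.VV_congr
    intro p hp
    unfold gd gh
    have h1 : (p ∣ W ∨ p = ps ∨ ρ p = 0) ↔ (p ∣ W ∨ p = ps ∨ p ∣ h.natAbs) := by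
      rw [hρ0 p (hPp p hp)]
    by_cases h2 : p ∣ W ∨ p = ps ∨ p ∣ h.natAbs
    · rw [if_pos (h1.2 h2), if_pos h2]
    · rw [if_neg (fun h3 => h2 (h1.1 h3)), if_neg h2]
  have hVup := hc4 (gh W ps h.natAbs) (fun p hp => (gh_nn W ps h.natAbs p (hPp p hp)).1)
    (fun p hp => by linarith [(gh_le_one W ps h.natAbs p (hPZp _ p hp)).1])
    (fun p hp _ => by
      have := (gh_nn W ps h.natAbs p (hPZp _ p hp)).2
      simpa using this) (HM ps S hps' h.natAbs hnat0 hnatX)
  set G1 := ∏ p ∈ Y882.PZ Y ε₁, (1 - gh W ps h.natAbs p) with hG1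
  have hG10 : 0 ≤ G1 := prod_nonneg fun p hp => (gh_le_one W ps h.natAbs p (hPZp _ p hp)).1
  set U := (Icc 1 N3).filter (fun u => u ≡ r0 [MOD W]) with hU
  set V : ℕ → ℝ := fun u => VV P c (fun p => if p ≠ ps ∧ u % p = ρ p then 1 else 0) with hV
  have hVind : ∀ u : ℕ, (if ∀ p ∈ P, ¬ (p ≠ ps ∧ u % p = ρ p) then (1 : ℝ) else 0) ≤ V u :=
    fun u => ind_le P hPp c hc3 (fun p => p ≠ ps ∧ u % p = ρ p)
  have hV0 : ∀ u : ℕ, 0 ≤ V u := fun u => le_trans (by split_ifs <;> norm_num) (hVind u)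
  have hMS0 : 0 ≤ MS (1243 / 10000) (1667 / 5000) d' X := sum_nonneg fun u hu => haS0 u hu
  have hsv : ∑ u ∈ U, a' u * V u ≤ MS (1243 / 10000) (1667 / 5000) d' X / W.totient * (ε₁ * (b + κ) * G1) +
      (X / L ^ N + X ^ (9 / 10 : ℝ)) / W.totient := by
    have h1 := (abs_le.1 hws).2
    rw [hVg] at h1
    have h2 : MS (1243 / 10000) (1667 / 5000) d' X / W.totient * VV P c (gh W ps h.natAbs) ≤
        MS (1243 / 10000) (1667 / 5000) d' X / W.totient * (ε₁ * (b + κ) * G1) := by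
      apply mul_le_mul_of_nonneg_left _ (by positivity)
      rw [hb]
      exact hVup
    have h3 : ∑ u ∈ U, a' u * V u = ∑ n ∈ (Icc 1 N3).filter (fun n => n ≡ r0 [MOD W]),
      a' n * VV P c (fun p => if p ≠ ps ∧ n % p = ρ p then 1 else 0) := rfl
    rw [h3]
    linarith
  -- the sum over `n`
  set Fn := (Icc 1 N3).filter (fun n : ℕ => n ≡ r [MOD W] ∧ n.Prime ∧
            Sw (1243 / 10000) (1667 / 5000) X ((n : ℤ) + h).natAbs) with hFn
  have hl3 : Real.log (3 * X) ≤ L + 2 := by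
    rw [Real.log_mul (by norm_num) hX0.ne']
    have : Real.log 3 ≤ 2 := by
      rw [Real.log_le_iff_le_exp (by norm_num)]
      have := Real.add_one_le_exp (2 : ℝ)
      linarith
    linarith
  have hpt : ∀ n ∈ Fn, Ps d X n * ArithmeticFunction.vonMangoldt n ≤
      (if n ∈ PH then 2 * L else 0) +
        (L + 2) * ∑ u ∈ U, (if (u : ℤ) = s * (n + h) then a' u * V u else 0) := by
    intro n hn
    rw [hFn, mem_filter, mem_Icc] at hn
    obtain ⟨⟨hn1, hn2⟩, hnr, hnp, hsw⟩ := hn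
    have hn3 : (n : ℝ) ≤ 3 * X := (Nat.le_floor_iff (by linarith)).1 hn2
    have hsum0 : 0 ≤ ∑ u ∈ U, (if (u : ℤ) = s * (n + h) then a' u * V u else 0) := by
      apply sum_nonneg
      intro u hu
      rw [hU, mem_filter] at hu
      split_ifs
      · exact mul_nonneg (ha'0 u hu.1) (hV0 u)
      · exact le_rfl
    have hfirst0 : (0 : ℝ) ≤ (if n ∈ PH then 2 * L else 0) := by split_ifs <;> linarith
    by_cases hPs0 : Ps d X n = 0
    · rw [hPs0, zero_mul]
      positivity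
    obtain ⟨hpos, hPsle⟩ := hsn n hPs0
    have hPspos : 0 < Ps d X n := lt_of_le_of_ne (Ps_nonneg _ _ _) (Ne.symm hPs0)
    have hnX : X < n := Ps_supp d X hX0 hd n hPs0
    have hlog : ArithmeticFunction.vonMangoldt n ≤ L + 2 := by
      refine ArithmeticFunction.vonMangoldt_le_log.trans (le_trans ?_ hl3)
      exact Real.log_le_log (by exact_mod_cast hn1) hn3
    have hLam0 : (0 : ℝ) ≤ ArithmeticFunction.vonMangoldt n := ArithmeticFunction.vonMangoldt_nonneg
    set u := ((n : ℤ) + h).natAbs with hu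
    have hus : (u : ℤ) = s * (n + h) := by
      rw [hu, Int.natCast_natAbs]
      rcases hs with h1 | h1
      · rw [h1, one_mul] at hpos ⊢
        exact abs_of_pos hpos
      · rw [h1] at hpos ⊢
        rw [abs_of_neg (by linarith)]
        ring
    have hPu : Ps d' X u ≠ 0 := by
      intro h0
      rw [h0] at hPsle
      linarith
    have huX : X < u := Ps_supp d' X hX0 hd' u hPu
    have hu3 : (u : ℝ) ≤ 3 * X := Ps_supp2 d' X hX0 hd' u hPu
    have huI : u ∈ Icc 1 N3 := by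
      rw [mem_Icc]
      refine ⟨?_, (Nat.le_floor_iff (by linarith)).2 hu3⟩
      have : (0 : ℝ) < u := by linarith
      exact_mod_cast this
    by_cases hbad : ∃ p ∈ PH, p ∣ u
    · obtain ⟨p, hp, hpu⟩ := hbad
      have hpp := (hPHp p hp).1
      have h1 : (p : ℤ) ∣ h := by
        have := hp
        rw [hPH, mem_filter, Nat.mem_primeFactors] at this
        exact (dvd_natAbs_iff p h).1 this.1.2.1
      have h2 : (p : ℤ) ∣ s * (n + h) := by rw [← hus]; exact_mod_cast hpu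
      have h3 : (p : ℤ) ∣ n := (dvd_add_left h1).1 (hsp p _ h2)
      have h4 : p ∣ n := by exact_mod_cast h3
      have h5 : p = n := (Nat.prime_dvd_prime_iff_eq hpp hnp).1 h4
      rw [h5] at hp
      rw [if_pos hp]
      have h6 : Ps d X n * ArithmeticFunction.vonMangoldt n ≤ 1 * (L + 2) :=
        mul_le_mul (Ps_le_one d X n hd0.le hd) hlog hLam0 zero_le_one
      have h7 : 0 ≤ (L + 2) * ∑ u ∈ U, (if (u : ℤ) = s * (n + h) then a' u * V u else 0) := by positivity
      linarith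
    · have hVu : 1 ≤ V u := by
        have h1 := hVind u
        rw [if_pos] at h1
        · exact h1
        · rintro p hp ⟨-, hpe⟩
          have hpp := hPp p hp
          rw [rz_iff h' p u hpp.pos, hus, hh'] at hpe
          have h2 : s * (n + h) + -(s * h) = s * n := by ring
          rw [h2] at hpe
          have h3 := hsp p _ hpe
          have h4 : p ∣ n := by exact_mod_cast h3
          have h5 : p = n := (Nat.prime_dvd_prime_iff_eq hpp hnp).1 h4
          rw [hPd] at hp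
          unfold Y882.PZ at hp
          rw [mem_filter, mem_Icc] at hp
          have h6 : (p : ℝ) ≤ Y := by exact_mod_cast hp.1.2
          have h7 : (Y : ℝ) ≤ X := hY.YX
          rw [h5] at h6
          linarith
      have hconv := conv_ge _ _ X hP hY u hsw huX.le hu3
      have hau : Ps d' X u ≤ a' u := by
        simp only [ha']
        rw [if_neg hbad]
        unfold aS
        calc Ps d' X u = Ps d' X u * 1 := (mul_one _).symm
          _ ≤ _ := mul_le_mul_of_nonneg_left hconv (Ps_nonneg _ _ _)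
      have huU : u ∈ U := by
        rw [hU, mem_filter]
        refine ⟨huI, ?_⟩
        rw [← Int.natCast_modEq_iff, hus]
        refine Int.ModEq.trans ?_ hr0.symm
        apply Int.ModEq.mul_left
        apply Int.ModEq.add_right
        exact (Int.natCast_modEq_iff.2 hnr)
      have h1 : a' u * V u ≤ ∑ u ∈ U, (if (u : ℤ) = s * (n + h) then a' u * V u else 0) := by
        have h2 := single_le_sum (f := fun u : ℕ => (if (u : ℤ) = s * (n + h) then a' u * V u else 0))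
          (fun v hv => by
            rw [hU, mem_filter] at hv
            beta_reduce
            split_ifs
            · exact mul_nonneg (ha'0 v hv.1) (hV0 v)
            · exact le_rfl) huU
        beta_reduce at h2
        rwa [if_pos hus] at h2
      have h3 : Ps d X n ≤ a' u * V u := by
        calc Ps d X n ≤ a' u := hPsle.trans hau
          _ = a' u * 1 := (mul_one _).symm
          _ ≤ _ := mul_le_mul_of_nonneg_left hVu (ha'0 u huI)
      calc Ps d X n * ArithmeticFunction.vonMangoldt n ≤ (a' u * V u) * (L + 2) :=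
            mul_le_mul h3 hlog hLam0 (mul_nonneg (ha'0 u huI) (hV0 u))
        _ ≤ (∑ u ∈ U, (if (u : ℤ) = s * (n + h) then a' u * V u else 0)) * (L + 2) :=
            mul_le_mul_of_nonneg_right h1 (by linarith)
        _ ≤ _ := by linarith
  refine (sum_le_sum hpt).trans ?_
  rw [sum_add_distrib, ← mul_sum]
  have t1 : ∑ n ∈ Fn, (if n ∈ PH then 2 * L else 0) ≤ 4 * L ^ 2 := by
    rw [← sum_filter, sum_const, nsmul_eq_mul]
    have h1 : ((Fn.filter (fun n => n ∈ PH)).card : ℝ) ≤ PH.card := by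
      exact_mod_cast card_le_card fun n hn => (mem_filter.1 hn).2
    calc _ ≤ (PH.card : ℝ) * (2 * L) := mul_le_mul_of_nonneg_right h1 (by positivity)
      _ ≤ (2 * L) * (2 * L) := mul_le_mul_of_nonneg_right hPHc (by positivity)
      _ = _ := by ring
  have t2 : ∑ n ∈ Fn, ∑ u ∈ U, (if (u : ℤ) = s * (n + h) then a' u * V u else 0) ≤ ∑ u ∈ U, a' u * V u := by
    rw [sum_comm]
    apply sum_le_sum
    intro u hu
    rw [hU, mem_filter] at hu
    rw [← sum_filter, sum_const, nsmul_eq_mul]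
    have h1 : (Fn.filter (fun n : ℕ => (u : ℤ) = s * (n + h))).card ≤ 1 := by
      rw [card_le_one]
      intro n hn m hm
      rw [mem_filter] at hn hm
      have h2 : s * ((n : ℤ) + h) = s * (m + h) := by rw [← hn.2, ← hm.2]
      have h3 : (n : ℤ) + h = m + h := by
        have h4 : s * (s * ((n : ℤ) + h)) = s * (s * (m + h)) := by rw [h2]
        rwa [← mul_assoc, ← mul_assoc, hss, one_mul, one_mul] at h4
      have h5 : (n : ℤ) = m := by linarith
      exact_mod_cast h5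
    calc _ ≤ (1 : ℝ) * (a' u * V u) :=
          mul_le_mul_of_nonneg_right (by exact_mod_cast h1) (mul_nonneg (ha'0 u hu.1) (hV0 u))
      _ = _ := one_mul _
  have t3 : (L + 2) * ∑ n ∈ Fn, ∑ u ∈ U, (if (u : ℤ) = s * (n + h) then a' u * V u else 0) ≤
      (L + 2) * (MS (1243 / 10000) (1667 / 5000) d' X / W.totient * (ε₁ * (b + κ) * G1) +
      (X / L ^ N + X ^ (9 / 10 : ℝ)) / W.totient) :=
    mul_le_mul_of_nonneg_left (t2.trans hsv) (by linarith)
  have t4 : (L + 2) * (MS (1243 / 10000) (1667 / 5000) d' X / W.totient * (ε₁ * (b + κ) * G1)) ≤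
      ε₁ * (Bs + θ) * (LPs d X / W.totient * G1) := by
    have hLP0 : 0 ≤ LPs d X :=
      sum_nonneg fun n _ => mul_nonneg (Ps_nonneg _ _ _) ArithmeticFunction.vonMangoldt_nonneg
    calc _ = ((L + 2) * MS (1243 / 10000) (1667 / 5000) d' X) * (ε₁ * (b + κ) * G1 / W.totient) := by ring
      _ ≤ ((a + κ) * LPs d X) * (ε₁ * (b + κ) * G1 / W.totient) := by
          apply mul_le_mul_of_nonneg_right _ (by positivity)
          rw [ha]
          exact hevm
      _ = ε₁ * ((a + κ) * (b + κ)) * (LPs d X / W.totient * G1) := by ring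
      _ ≤ _ := by
          apply mul_le_mul_of_nonneg_right _ (by positivity)
          exact mul_le_mul_of_nonneg_left hab hε0.le
  have t5 : 4 * L ^ 2 + (L + 2) * ((X / L ^ N + X ^ (9 / 10 : ℝ)) / W.totient) ≤
      X / (W.totient * L ^ 10) := by
    rw [show X / (W.totient * L ^ 10) = X / L ^ 10 / W.totient by rw [div_div, mul_comm (L ^ 10)],
      le_div_iff₀ hφ0, add_mul]
    have q1 : (L + 2) * ((X / L ^ N + X ^ (9 / 10 : ℝ)) / W.totient) * W.totient =
        (L + 2) * (X / L ^ N + X ^ (9 / 10 : ℝ)) := by field_simp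
    rw [q1]
    have q2 : X / L ^ N ≤ X / L ^ 20 := by
      apply div_le_div_of_nonneg_left hX0.le (by positivity)
      exact pow_le_pow_right₀ hL1 hN
    have q3 : 8 * L ^ 20 * X ^ (19 / 20 : ℝ) ≤ X := by
      calc 8 * L ^ 20 * X ^ (19 / 20 : ℝ) ≤ X ^ (1 / 20 : ℝ) * X ^ (19 / 20 : ℝ) :=
            mul_le_mul_of_nonneg_right hlog20 (by positivity)
        _ = X := by rw [← Real.rpow_add hX0]; norm_num
    have q4 : X ^ (9 / 10 : ℝ) ≤ X ^ (19 / 20 : ℝ) := Real.rpow_le_rpow_of_exponent_le hX1 (by norm_num)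
    have q5 : (W.totient : ℝ) ≤ X ^ (19 / 20 : ℝ) :=
      hφX.trans (Real.rpow_le_rpow_of_exponent_le hX1 (by norm_num))
    have q6 : 4 * L ^ 2 * (W.totient : ℝ) ≤ X / (4 * L ^ 10) := by
      rw [le_div_iff₀ (by positivity)]
      have p1 : L ^ 12 ≤ L ^ 20 := pow_le_pow_right₀ hL1 (by norm_num)
      have p2 : (16 : ℝ) ≤ L ^ 1 := by rw [pow_one]; linarith
      have p3 : 16 * L ^ 12 ≤ L ^ 20 := by
        calc 16 * L ^ 12 ≤ L ^ 8 * L ^ 12 := by
              apply mul_le_mul_of_nonneg_right _ (by positivity)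
              calc (16 : ℝ) ≤ L ^ 1 := p2
                _ ≤ L ^ 8 := pow_le_pow_right₀ hL1 (by norm_num)
          _ = L ^ 20 := by ring
      calc 4 * L ^ 2 * (W.totient : ℝ) * (4 * L ^ 10) = (16 * L ^ 12) * W.totient := by ring
        _ ≤ L ^ 20 * X ^ (19 / 20 : ℝ) := by gcongr
        _ ≤ 8 * L ^ 20 * X ^ (19 / 20 : ℝ) := by
            have : 0 ≤ L ^ 20 * X ^ (19 / 20 : ℝ) := by positivity
            linarith
        _ ≤ X := q3
    have q7 : (L + 2) * (X / L ^ 20) ≤ X / (4 * L ^ 10) := by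
      rw [mul_div_assoc', div_le_div_iff₀ (by positivity) (by positivity)]
      have p2 : (L + 2) * (4 * L ^ 10) ≤ L ^ 20 := by
        calc (L + 2) * (4 * L ^ 10) ≤ (2 * L) * (4 * L ^ 10) := by
              apply mul_le_mul_of_nonneg_right _ (by positivity)
              linarith
          _ = 8 * L ^ 11 := by ring
          _ ≤ L ^ 9 * L ^ 11 := by
              apply mul_le_mul_of_nonneg_right _ (by positivity)
              calc (8 : ℝ) ≤ L ^ 1 := by rw [pow_one]; linarith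
                _ ≤ L ^ 9 := pow_le_pow_right₀ hL1 (by norm_num)
          _ = L ^ 20 := by ring
      calc (L + 2) * X * (4 * L ^ 10) = ((L + 2) * (4 * L ^ 10)) * X := by ring
        _ ≤ L ^ 20 * X := mul_le_mul_of_nonneg_right p2 hX0.le
        _ = _ := by ring
    have q8 : (L + 2) * X ^ (9 / 10 : ℝ) ≤ X / (4 * L ^ 10) := by
      rw [le_div_iff₀ (by positivity)]
      calc (L + 2) * X ^ (9 / 10 : ℝ) * (4 * L ^ 10) ≤ (2 * L) * X ^ (19 / 20 : ℝ) * (4 * L ^ 10) := by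
            gcongr
            linarith
        _ = 8 * L ^ 11 * X ^ (19 / 20 : ℝ) := by ring
        _ ≤ 8 * L ^ 20 * X ^ (19 / 20 : ℝ) := by
            have : L ^ 11 ≤ L ^ 20 := pow_le_pow_right₀ hL1 (by norm_num)
            gcongr
        _ ≤ X := q3
    have q9 : X / L ^ 10 = 4 * (X / (4 * L ^ 10)) := by field_simp
    have q10 : (L + 2) * (X / L ^ N) ≤ (L + 2) * (X / L ^ 20) := mul_le_mul_of_nonneg_left q2 (by linarith)
    have q11 : 0 ≤ X / (4 * L ^ 10) := by positivity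
    rw [q9, mul_add]
    linarith only [q6, q7, q8, q10, q11]
  rw [mul_add] at t3
  linarith only [t1, t3, t4, t5]

end Pool.Agent.J4H73.CP
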