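import Pool.Agent.J4H73.CP.Seq
import Pool.Agent.J4H73.CG.TGL

/-! The majorant for the switched sequence and its three properties. -/

set_option autoImplicit false

open Finset Filter Topology

namespace Pool.Agent.J4H73.CP

open Pool.Agent.Helper112 Pool.Agent.Helper112.BLB Pool.Agent.H410R2 Pool.Agent.H398R2.BV
open Pool.Agent.H378R2 Pool.Agent.H378R2.LSBV Pool.Agent.J4H73.CG Pool.Agent.J4H73.CH

/-- the majorant -/
noncomputable def TQ (ζ υ d X : ℝ) (f : ℕ) : ℝ :=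
  ∑ k ∈ Icc 1 ⌊X ^ (497 / 1000 : ℝ)⌋₊, LSBV.wt 0 k * TG d X (conv (res k (al ζ υ X)) (res k be)) f

theorem TQ_nonneg (ζ υ d X : ℝ) (f : ℕ) : 0 ≤ TQ ζ υ d X f :=
  sum_nonneg fun _ _ => mul_nonneg (wt_nonneg _ _) (TG_nonneg _ _ _ _)

theorem res_al (ζ υ X : ℝ) (hP : PAR ζ υ) (h : YF X) (k m : ℕ) :
    0 ≤ res k (al ζ υ X) m ∧ res k (al ζ υ X) m ≤ 1 := by
  unfold res
  split_ifs
  · exact al_nonneg ζ υ X hP h m
  · exact ⟨le_rfl, zero_le_one⟩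

theorem res_al_supp (ζ υ X : ℝ) (hP : PAR ζ υ) (h : YF X) (k m : ℕ) (hm : res k (al ζ υ X) m ≠ 0) :
    ⌈X ^ (2 / 5 : ℝ)⌉₊ ≤ m ∧ m ≤ ⌊X ^ (7 / 10 : ℝ)⌋₊ := by
  apply al_supp ζ υ X hP h
  intro hc
  apply hm
  unfold res
  split_ifs
  · exact hc
  · rfl

theorem res_be (k n : ℕ) : 0 ≤ res k be n ∧ res k be n ≤ Real.log n := by
  unfold res
  split_ifs
  · exact ⟨be_nonneg n, be_le_log n⟩
  · exact ⟨le_rfl, Real.log_natCast_nonneg n⟩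

/-- bounds for the heights -/
theorem heights (X c : ℝ) (h : YF X) (hc3 : c ≤ 3) :
    Real.sqrt (c * X) ≤ 2 * Real.sqrt X ∧ Real.sqrt (⌊X ^ (7 / 10 : ℝ)⌋₊ : ℝ) ≤ X ^ (7 / 20 : ℝ) ∧
    Real.sqrt (c * X / (⌈X ^ (2 / 5 : ℝ)⌉₊ : ℝ)) ≤ 2 * X ^ (3 / 10 : ℝ) ∧ 1 ≤ ⌈X ^ (2 / 5 : ℝ)⌉₊ := by
  have hX0 : 0 < X := by linarith [h.X4]
  have hX1 : 1 ≤ X := by linarith [h.X4]
  refine ⟨?_, ?_, ?_, ?_⟩
  · rw [Real.sqrt_le_left (by positivity), mul_pow, Real.sq_sqrt hX0.le]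
    nlinarith
  · rw [Real.sqrt_le_left (by positivity)]
    calc (⌊X ^ (7 / 10 : ℝ)⌋₊ : ℝ) ≤ X ^ (7 / 10 : ℝ) := Nat.floor_le (by positivity)
      _ = (X ^ (7 / 20 : ℝ)) ^ 2 := by rw [← Real.rpow_natCast, ← Real.rpow_mul hX0.le]; norm_num
  · rw [Real.sqrt_le_left (by positivity)]
    have h1 : X ^ (2 / 5 : ℝ) ≤ (⌈X ^ (2 / 5 : ℝ)⌉₊ : ℝ) := Nat.le_ceil _
    calc c * X / (⌈X ^ (2 / 5 : ℝ)⌉₊ : ℝ) ≤ 3 * X / X ^ (2 / 5 : ℝ) := by
          apply div_le_div₀ (by positivity) (mul_le_mul_of_nonneg_right hc3 hX0.le) (by positivity) h1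
      _ = 3 * (X / X ^ (2 / 5 : ℝ)) := by ring
      _ = 3 * X ^ (3 / 5 : ℝ) := by
          congr 1
          rw [div_eq_iff (by positivity), ← Real.rpow_add hX0]
          norm_num
      _ ≤ 4 * X ^ (3 / 5 : ℝ) := by
          apply mul_le_mul_of_nonneg_right (by norm_num) (by positivity)
      _ = (2 * X ^ (3 / 10 : ℝ)) ^ 2 := by
          rw [mul_pow, ← Real.rpow_natCast (X ^ (3 / 10 : ℝ)), ← Real.rpow_mul hX0.le]; norm_num
  · rw [Nat.one_le_ceil_iff]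
    positivity

theorem sum_TG (d X : ℝ) (g : ℕ → ℝ) (S : Finset ℕ) (w : ℕ → ℝ) (E : ℝ) (hd0 : 0 ≤ d) (hd : d ≤ 1 / 2)
    (hE : ∀ c : ℝ, 1 ≤ c → c ≤ 3 → ∑ f ∈ S, w f * ∑ ψ ∈ Prim f, ‖TL (c * X) f ψ g‖ ≤ E) :
    ∑ f ∈ S, w f * TG d X g f ≤ 4 * E := by
  obtain ⟨g1, g2, g3, g4, g5, g6⟩ := exp_facts d hd0 hd
  have e : ∑ f ∈ S, w f * TG d X g f =
      ∑ f ∈ S, w f * ∑ ψ ∈ Prim f, ‖TL (Real.exp (1 / 2 - d) * X) f ψ g‖ +
      2 * ∑ f ∈ S, w f * ∑ ψ ∈ Prim f, ‖TL (Real.exp (1 / 2) * X) f ψ g‖ +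
      ∑ f ∈ S, w f * ∑ ψ ∈ Prim f, ‖TL (Real.exp (1 / 2 + d) * X) f ψ g‖ := by
    rw [mul_sum, ← sum_add_distrib, ← sum_add_distrib]
    apply sum_congr rfl
    intro f _
    unfold TG R3
    rw [sum_add_distrib, sum_add_distrib, ← mul_sum]
    ring
  rw [e]
  have a1 := hE _ g1 g4
  have a2 := hE _ g2 g5
  have a3 := hE _ g3 g6
  linarith

theorem TQ_h1 (ζ υ d : ℝ) (hP : PAR ζ υ) (hd0 : 0 ≤ d) (hd : d ≤ 1 / 2) : ∀ᶠ X : ℝ in atTop,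
    ∑ f ∈ Icc 2 ⌊X ^ (1 / 50 : ℝ)⌋₊, TQ ζ υ d X f ≤ 5000 * X * (Real.log X) ^ 8 := by
  filter_upwards [ev_YF] with X hY
  have hX0 : 0 < X := by linarith [hY.X4]
  have hX1 : 1 ≤ X := by linarith [hY.X4]
  have hL1 : 1 ≤ Real.log X := by linarith [hY.L100]
  set L := Real.log X with hL
  set F := ⌊X ^ (1 / 50 : ℝ)⌋₊ with hFdef
  have hF : (F : ℝ) ≤ X ^ (1 / 50 : ℝ) := Nat.floor_le (by positivity)
  have hF0 : (0 : ℝ) ≤ F := Nat.cast_nonneg F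
  have hs : Real.sqrt X = X ^ (1 / 2 : ℝ) := Real.sqrt_eq_rpow X
  have hgen : ∀ k : ℕ, ∑ f ∈ Icc 2 F, (1 : ℝ) * TG d X (conv (res k (al ζ υ X)) (res k be)) f ≤
      4 * (288 * X * L ^ 2) := by
    intro k
    apply sum_TG d X _ _ _ _ hd0 hd
    intro c hc1 hc3
    obtain ⟨p1, p2, p3, p4⟩ := heights X c hY hc3
    have hlog := log_cX X c hY.X4 hc1 hc3
    have hlog0 : 0 ≤ Real.log (c * X) := Real.log_nonneg (by nlinarith)
    have h1 := conv_ls1 (c * X) (by nlinarith) (res k (al ζ υ X)) (res k be) _ _ p4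
      (res_al_supp ζ υ X hP hY k) 1 (Real.log (c * X)) zero_le_one hlog0
      (fun m => by rw [abs_of_nonneg (res_al ζ υ X hP hY k m).1]; exact (res_al ζ υ X hP hY k m).2)
      (fun n hn hnx => by
        rw [abs_of_nonneg (res_be k n).1]
        exact (res_be k n).2.trans (Real.log_le_log (by exact_mod_cast hn) hnx)) F
    simp only [one_mul]
    refine h1.trans ?_
    have q1 : F * (Real.sqrt (⌊X ^ (7 / 10 : ℝ)⌋₊ : ℝ) + Real.sqrt (c * X / (⌈X ^ (2 / 5 : ℝ)⌉₊ : ℝ))) ≤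
        3 * Real.sqrt X := by
      calc _ ≤ X ^ (1 / 50 : ℝ) * (X ^ (7 / 20 : ℝ) + 2 * X ^ (3 / 10 : ℝ)) := by gcongr
        _ ≤ X ^ (1 / 50 : ℝ) * (X ^ (7 / 20 : ℝ) + 2 * X ^ (7 / 20 : ℝ)) := by
            apply mul_le_mul_of_nonneg_left _ (by positivity)
            have := Real.rpow_le_rpow_of_exponent_le hX1 (show (3 / 10 : ℝ) ≤ 7 / 20 by norm_num)
            linarith only [this]
        _ = 3 * (X ^ (1 / 50 : ℝ) * X ^ (7 / 20 : ℝ)) := by ring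
        _ = 3 * X ^ (37 / 100 : ℝ) := by rw [← Real.rpow_add hX0]; norm_num
        _ ≤ 3 * X ^ (1 / 2 : ℝ) := by
            have := Real.rpow_le_rpow_of_exponent_le hX1 (show (37 / 100 : ℝ) ≤ 1 / 2 by norm_num)
            linarith only [this]
        _ = _ := by rw [hs]
    have q2 : (F : ℝ) * F ≤ Real.sqrt X := by
      calc (F : ℝ) * F ≤ X ^ (1 / 50 : ℝ) * X ^ (1 / 50 : ℝ) := by gcongr
        _ = X ^ (1 / 25 : ℝ) := by rw [← Real.rpow_add hX0]; norm_num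
        _ ≤ X ^ (1 / 2 : ℝ) := Real.rpow_le_rpow_of_exponent_le hX1 (by norm_num)
        _ = _ := hs.symm
    calc _ ≤ 6 * (2 * Real.sqrt X + 3 * Real.sqrt X + Real.sqrt X) *
          (1 * (2 * L) * (2 * Real.sqrt X)) * (2 * L) := by gcongr
      _ = 288 * (Real.sqrt X * Real.sqrt X) * L ^ 2 := by ring
      _ = 288 * X * L ^ 2 := by rw [Real.mul_self_sqrt hX0.le]
  have e : ∑ f ∈ Icc 2 F, TQ ζ υ d X f = ∑ k ∈ Icc 1 ⌊X ^ (497 / 1000 : ℝ)⌋₊, LSBV.wt 0 k *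
      ∑ f ∈ Icc 2 F, (1 : ℝ) * TG d X (conv (res k (al ζ υ X)) (res k be)) f := by
    unfold TQ
    rw [sum_comm]
    apply sum_congr rfl
    intro k _
    rw [mul_sum]
    simp only [one_mul]
  rw [e]
  have hw := BV.sum_wtR 0 X (by linarith [hY.X4])
  norm_num at hw
  calc _ ≤ ∑ k ∈ Icc 1 ⌊X ^ (497 / 1000 : ℝ)⌋₊, LSBV.wt 0 k * (4 * (288 * X * L ^ 2)) :=
        sum_le_sum fun k _ => mul_le_mul_of_nonneg_left (hgen k) (wt_nonneg _ _)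
    _ = (∑ k ∈ Icc 1 ⌊X ^ (497 / 1000 : ℝ)⌋₊, LSBV.wt 0 k) * (4 * (288 * X * L ^ 2)) := by rw [sum_mul]
    _ ≤ (4 * L ^ 2) * (4 * (288 * X * L ^ 2)) := mul_le_mul_of_nonneg_right hw (by positivity)
    _ = 4608 * X * L ^ 4 := by ring
    _ ≤ 5000 * X * L ^ 8 := by
        have : L ^ 4 ≤ L ^ 8 := pow_le_pow_right₀ hL1 (by norm_num)
        gcongr
        norm_num

/-- large conductors -/
theorem TQ_h3 (ζ υ d : ℝ) (hP : PAR ζ υ) (hd0 : 0 ≤ d) (hd : d ≤ 1 / 2) : ∀ᶠ X : ℝ in atTop,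
    ∀ F0 F1 : ℕ, 2 ≤ F0 → X ^ (1 / 100 : ℝ) ≤ 2 * F0 → (F1 : ℝ) ≤ X ^ (623 / 1250 : ℝ) →
    ∑ f ∈ Icc F0 F1, (1 / (f : ℝ)) * TQ ζ υ d X f ≤ X ^ (1997 / 2000 : ℝ) := by
  filter_upwards [ev_YF, ev_log 21504 5 (1 / 10000) (by norm_num)] with X hY hlogX
  intro F0 F1 h2 h0 h1
  have hX0 : 0 < X := by linarith [hY.X4]
  have hX1 : 1 ≤ X := by linarith [hY.X4]
  have hL1 : 1 ≤ Real.log X := by linarith [hY.L100]
  set L := Real.log X with hL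
  rcases Nat.eq_zero_or_pos F1 with hF | hF
  · subst hF
    rw [Icc_eq_empty (by omega), sum_empty]
    positivity
  have hF1r : (1 : ℝ) ≤ F1 := by exact_mod_cast hF
  have hF0r : (0 : ℝ) < F0 := by
    have : 0 < F0 := by omega
    exact_mod_cast this
  have hF1X : (F1 : ℝ) ≤ X := h1.trans (by
    calc X ^ (623 / 1250 : ℝ) ≤ X ^ (1 : ℝ) := Real.rpow_le_rpow_of_exponent_le hX1 (by norm_num)
      _ = X := Real.rpow_one X)
  have hlF : Real.log F1 ≤ L := Real.log_le_log (by linarith) hF1X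
  have hlF0 : 0 ≤ Real.log F1 := Real.log_natCast_nonneg F1
  have hs : Real.sqrt X = X ^ (1 / 2 : ℝ) := Real.sqrt_eq_rpow X
  have hgen : ∀ k : ℕ, ∑ f ∈ Icc F0 F1, (1 / (f : ℝ)) * TG d X (conv (res k (al ζ υ X)) (res k be)) f ≤
      4 * (1344 * L ^ 3 * X ^ (624 / 625 : ℝ)) := by
    intro k
    apply sum_TG d X _ _ _ _ hd0 hd
    intro c hc1 hc3
    obtain ⟨p1, p2, p3, p4⟩ := heights X c hY hc3
    have hlog := log_cX X c hY.X4 hc1 hc3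
    have hlog0 : 0 ≤ Real.log (c * X) := Real.log_nonneg (by nlinarith)
    have hls := conv_ls (c * X) (by nlinarith) (res k (al ζ υ X)) (res k be) _ _ p4
      (res_al_supp ζ υ X hP hY k) 1 (Real.log (c * X)) zero_le_one hlog0
      (fun m => by rw [abs_of_nonneg (res_al ζ υ X hP hY k m).1]; exact (res_al ζ υ X hP hY k m).2)
      (fun n hn hnx => by
        rw [abs_of_nonneg (res_be k n).1]
        exact (res_be k n).2.trans (Real.log_le_log (by exact_mod_cast hn) hnx)) F0 F1 (by omega) hF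
    have e1 : ∑ f ∈ Icc F0 F1, (1 / (f : ℝ)) * ∑ ψ ∈ Prim f,
        ‖TL (c * X) f ψ (conv (res k (al ζ υ X)) (res k be))‖ ≤
        ∑ f ∈ Icc F0 F1, (1 / (Nat.totient f : ℝ)) * ∑ ψ ∈ Prim f,
        ‖TL (c * X) f ψ (conv (res k (al ζ υ X)) (res k be))‖ := by
      apply sum_le_sum
      intro f hf
      rw [mem_Icc] at hf
      apply mul_le_mul_of_nonneg_right _ (sum_nonneg fun _ _ => norm_nonneg _)
      have hφ : (0 : ℝ) < Nat.totient f := by exact_mod_cast Nat.totient_pos.mpr (by omega)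
      exact one_div_le_one_div_of_le hφ (by exact_mod_cast Nat.totient_le f)
    refine e1.trans (hls.trans ?_)
    have g1 : Real.sqrt (c * X) / F0 * Real.sqrt (c * X) ≤ 6 * X ^ (624 / 625 : ℝ) := by
      rw [div_mul_eq_mul_div, Real.mul_self_sqrt (by positivity), div_le_iff₀ hF0r]
      have e2 : X = X ^ (99 / 100 : ℝ) * X ^ (1 / 100 : ℝ) := by
        rw [← Real.rpow_add hX0]; norm_num
      calc c * X ≤ 3 * X := mul_le_mul_of_nonneg_right hc3 hX0.le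
        _ = 3 * (X ^ (99 / 100 : ℝ) * X ^ (1 / 100 : ℝ)) := by rw [← e2]
        _ ≤ 3 * (X ^ (624 / 625 : ℝ) * (2 * F0)) := by
            apply mul_le_mul_of_nonneg_left _ (by norm_num)
            apply mul_le_mul _ h0 (by positivity) (by positivity)
            exact Real.rpow_le_rpow_of_exponent_le hX1 (by norm_num)
        _ = _ := by ring
    have g2 : (Real.sqrt (⌊X ^ (7 / 10 : ℝ)⌋₊ : ℝ) + Real.sqrt (c * X / (⌈X ^ (2 / 5 : ℝ)⌉₊ : ℝ))) *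
        Real.sqrt (c * X) ≤ 6 * X ^ (624 / 625 : ℝ) := by
      calc _ ≤ (X ^ (7 / 20 : ℝ) + 2 * X ^ (3 / 10 : ℝ)) * (2 * Real.sqrt X) := by gcongr
        _ ≤ (X ^ (7 / 20 : ℝ) + 2 * X ^ (7 / 20 : ℝ)) * (2 * X ^ (1 / 2 : ℝ)) := by
            rw [hs]
            apply mul_le_mul_of_nonneg_right _ (by positivity)
            have := Real.rpow_le_rpow_of_exponent_le hX1 (show (3 / 10 : ℝ) ≤ 7 / 20 by norm_num)
            linarith only [this]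
        _ = 6 * (X ^ (7 / 20 : ℝ) * X ^ (1 / 2 : ℝ)) := by ring
        _ = 6 * X ^ (17 / 20 : ℝ) := by rw [← Real.rpow_add hX0]; norm_num
        _ ≤ _ := by
            have := Real.rpow_le_rpow_of_exponent_le hX1 (show (17 / 20 : ℝ) ≤ 624 / 625 by norm_num)
            linarith only [this]
    have g3 : (F1 : ℝ) * Real.sqrt (c * X) ≤ 2 * X ^ (624 / 625 : ℝ) := by
      calc (F1 : ℝ) * Real.sqrt (c * X) ≤ X ^ (623 / 1250 : ℝ) * (2 * X ^ (1 / 2 : ℝ)) := by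
            rw [← hs]; gcongr
        _ = 2 * (X ^ (623 / 1250 : ℝ) * X ^ (1 / 2 : ℝ)) := by ring
        _ = _ := by rw [← Real.rpow_add hX0]; norm_num
    calc _ = 12 * ((1 + Real.log F1) * Real.log (c * X) * Real.log (c * X)) *
          (Real.sqrt (c * X) / F0 * Real.sqrt (c * X) +
          (Real.sqrt (⌊X ^ (7 / 10 : ℝ)⌋₊ : ℝ) + Real.sqrt (c * X / (⌈X ^ (2 / 5 : ℝ)⌉₊ : ℝ))) *
            Real.sqrt (c * X) + F1 * Real.sqrt (c * X)) := by ring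
      _ ≤ 12 * ((L + L) * (2 * L) * (2 * L)) *
          (6 * X ^ (624 / 625 : ℝ) + 6 * X ^ (624 / 625 : ℝ) + 2 * X ^ (624 / 625 : ℝ)) := by gcongr
      _ = 1344 * L ^ 3 * X ^ (624 / 625 : ℝ) := by ring
  have e : ∑ f ∈ Icc F0 F1, (1 / (f : ℝ)) * TQ ζ υ d X f = ∑ k ∈ Icc 1 ⌊X ^ (497 / 1000 : ℝ)⌋₊, LSBV.wt 0 k *
      ∑ f ∈ Icc F0 F1, (1 / (f : ℝ)) * TG d X (conv (res k (al ζ υ X)) (res k be)) f := by
    unfold TQ
    simp_rw [mul_sum]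
    rw [sum_comm]
    apply sum_congr rfl
    intro k _
    apply sum_congr rfl
    intro f _
    ring
  rw [e]
  have hw := BV.sum_wtR 0 X (by linarith [hY.X4])
  norm_num at hw
  calc _ ≤ ∑ k ∈ Icc 1 ⌊X ^ (497 / 1000 : ℝ)⌋₊, LSBV.wt 0 k * (4 * (1344 * L ^ 3 * X ^ (624 / 625 : ℝ))) :=
        sum_le_sum fun k _ => mul_le_mul_of_nonneg_left (hgen k) (wt_nonneg _ _)
    _ = (∑ k ∈ Icc 1 ⌊X ^ (497 / 1000 : ℝ)⌋₊, LSBV.wt 0 k) * (4 * (1344 * L ^ 3 * X ^ (624 / 625 : ℝ))) := by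
        rw [sum_mul]
    _ ≤ (4 * L ^ 2) * (4 * (1344 * L ^ 3 * X ^ (624 / 625 : ℝ))) :=
        mul_le_mul_of_nonneg_right hw (by positivity)
    _ = (21504 * L ^ 5) * X ^ (624 / 625 : ℝ) := by ring
    _ ≤ X ^ (1 / 10000 : ℝ) * X ^ (624 / 625 : ℝ) := mul_le_mul_of_nonneg_right hlogX (by positivity)
    _ = X ^ (1997 / 2000 : ℝ) := by rw [← Real.rpow_add hX0]; norm_num

end Pool.Agent.J4H73.CP
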