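import Pool.Agent.J4H73.CP.TQ

/-! Small conductors. -/

set_option autoImplicit false

open Finset Filter Topology

namespace Pool.Agent.J4H73.CP

open Pool.Agent.Helper112 Pool.Agent.Helper112.BLB Pool.Agent.H410R2 Pool.Agent.H398R2.BV
open Pool.Agent.H378R2 Pool.Agent.H378R2.LSBV Pool.Agent.J4H73.CG Pool.Agent.J4H73.CH

theorem TL_conv_eq (x : ℝ) (hx : 1 ≤ x) (f : ℕ) (ψ : DirichletCharacter ℂ f) (α β : ℕ → ℝ) :
    TL x f ψ (conv α β) = ∑ m ∈ Icc 1 ⌊x⌋₊, (α m : ℂ) * ψ (m : ZMod f) * TL (x / m) f ψ β := by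
  have h := TL_conv x hx f ψ α β
  have e0 : TL x f ψ (conv α β) = TL x f ψ (fun n => ∑ i ∈ n.divisorsAntidiagonal, α i.1 * β i.2) := rfl
  rw [e0, h, sum_comm]
  apply sum_congr rfl
  intro m hm
  rw [mem_Icc] at hm
  have hm0 : (0 : ℝ) < m := by exact_mod_cast hm.1
  have hm1 : (1 : ℝ) ≤ m := by exact_mod_cast hm.1
  have hx0 : 0 < x := by linarith
  rw [TL_eq_max (x / m) (by positivity) ⌊x⌋₊ (Nat.floor_le_floor (div_le_self hx0.le hm1)), mul_sum]
  apply sum_congr rfl
  intro c hc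
  rw [mem_Icc] at hc
  have hc0 : (0 : ℝ) < c := by exact_mod_cast hc.1
  have e : (if ((m * c : ℕ) : ℝ) ≤ x then Real.log (x / ((m * c : ℕ) : ℝ)) else 0) =
      max 0 (Real.log (x / m / c)) := by
    push_cast
    rw [div_div]
    split_ifs with h1
    · rw [max_eq_right]
      apply Real.log_nonneg
      rw [le_div_iff₀ (by positivity)]
      linarith
    · push Not at h1
      rw [max_eq_left]
      apply Real.log_nonpos (by positivity)
      rw [div_le_one (by positivity)]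
      exact h1.le
  rw [e]
  ring

theorem norm_TL_le (y : ℝ) (hy : 1 ≤ y) (f : ℕ) (ψ : DirichletCharacter ℂ f) (g : ℕ → ℝ) :
    ‖TL y f ψ g‖ ≤ Real.log y * ∑ n ∈ Icc 1 ⌊y⌋₊, |g n| := by
  unfold TL
  rw [mul_sum]
  refine (norm_sum_le _ _).trans (sum_le_sum ?_)
  intro n hn
  rw [mem_Icc] at hn
  have hn0 : (0 : ℝ) < n := by exact_mod_cast hn.1
  have hn1 : (1 : ℝ) ≤ n := by exact_mod_cast hn.1
  have hny : (n : ℝ) ≤ y := (Nat.le_floor_iff (by linarith)).1 hn.2
  rw [norm_mul, norm_mul, Complex.norm_real, Complex.norm_real, Real.norm_eq_abs, Real.norm_eq_abs]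
  have h1 : |Real.log (y / n)| ≤ Real.log y := by
    rw [abs_of_nonneg (Real.log_nonneg (by rw [le_div_iff₀ hn0]; linarith))]
    apply Real.log_le_log (by positivity)
    exact div_le_self (by linarith) hn1
  have h2 : ‖ψ (n : ZMod f)‖ ≤ 1 := ψ.norm_le_one _
  have h3 : 0 ≤ Real.log y := Real.log_nonneg hy
  calc |g n| * ‖ψ (n : ZMod f)‖ * |Real.log (y / n)| ≤ |g n| * 1 * Real.log y := by gcongr
    _ = _ := by ring

theorem sum_log_primeFactors (k : ℕ) (hk : 1 ≤ k) : ∑ p ∈ k.primeFactors, Real.log p ≤ Real.log k := by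
  rw [← Real.log_prod (fun p hp => by
    have := (Nat.prime_of_mem_primeFactors hp).pos
    positivity)]
  apply Real.log_le_log
  · apply prod_pos
    intro p hp
    exact_mod_cast (Nat.prime_of_mem_primeFactors hp).pos
  · rw [← Nat.cast_prod]
    exact_mod_cast Nat.le_of_dvd hk (Nat.prod_primeFactors_dvd k)

theorem sum_diff (y : ℝ) (hy : 1 ≤ y) (k : ℕ) (hk : 1 ≤ k) :
    ∑ n ∈ Icc 1 ⌊y⌋₊, |ArithmeticFunction.vonMangoldt n - res k be n| ≤
      2 * Real.sqrt y * Real.log y + Real.log k := by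
  have h1 : ∀ n ∈ Icc 1 ⌊y⌋₊, |ArithmeticFunction.vonMangoldt n - res k be n| ≤
      (if ¬ n.Prime then ArithmeticFunction.vonMangoldt n else 0) +
      (if n ∈ k.primeFactors then Real.log n else 0) := by
    intro n _
    have h0 : 0 ≤ ArithmeticFunction.vonMangoldt n := ArithmeticFunction.vonMangoldt_nonneg
    unfold res be
    by_cases hp : n.Prime
    · rw [if_neg (not_not.2 hp), if_pos hp, zero_add, ArithmeticFunction.vonMangoldt_apply_prime hp]
      by_cases hc : n.Coprime k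
      · rw [if_pos hc, sub_self, abs_zero]
        split_ifs
        · exact Real.log_natCast_nonneg n
        · exact le_rfl
      · rw [if_neg hc, sub_zero, abs_of_nonneg (Real.log_natCast_nonneg n), if_pos]
        rw [Nat.mem_primeFactors]
        refine ⟨hp, ?_, by omega⟩
        by_contra hd
        exact hc ((Nat.Prime.coprime_iff_not_dvd hp).2 hd)
    · rw [if_pos hp, if_neg hp]
      have e : n ∉ k.primeFactors := fun h => hp (Nat.prime_of_mem_primeFactors h)
      rw [if_neg e]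
      simp only [ite_self, sub_zero, add_zero]
      rw [abs_of_nonneg h0]
  refine (sum_le_sum h1).trans ?_
  rw [sum_add_distrib]
  apply add_le_add
  · rw [← sum_filter]
    exact Pool.Agent.H378R2.sum_nonprime_le y hy
  · rw [← sum_filter]
    refine le_trans ?_ (sum_log_primeFactors k hk)
    apply sum_le_sum_of_subset_of_nonneg
    · intro n hn
      exact (mem_filter.1 hn).2
    · intro n _ _
      exact Real.log_natCast_nonneg n

theorem TL_be (y : ℝ) (hy : 1 ≤ y) (f : ℕ) (ψ : DirichletCharacter ℂ f) (k : ℕ) (hk : 1 ≤ k) :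
    ‖TL y f ψ (res k be)‖ ≤ ‖psiLog y f ψ‖ + Real.log y * (2 * Real.sqrt y * Real.log y + Real.log k) := by
  have e : TL y f ψ (res k be) = psiLog y f ψ -
      TL y f ψ (fun n => ArithmeticFunction.vonMangoldt n - res k be n) := by
    rw [TL_sub]
    have : psiLog y f ψ = TL y f ψ (fun n => ArithmeticFunction.vonMangoldt n) := rfl
    rw [this]
    ring
  rw [e]
  refine (norm_sub_le _ _).trans (add_le_add le_rfl ?_)
  refine (norm_TL_le y hy f ψ _).trans ?_
  exact mul_le_mul_of_nonneg_left (sum_diff y hy k hk) (Real.log_nonneg hy)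

theorem ev_E (K : ℝ) (hK : 0 < K) : ∀ᶠ X : ℝ in atTop, Real.exp ((Real.log (Real.log X)) ^ 7) ≤ X ^ (1 / 100 : ℝ) ∧
    10 * (Real.log X) ^ 2 ≤ X ^ (1 / 100 : ℝ) ∧ K * (Real.log X) ^ 3 ≤ Real.exp ((Real.log (Real.log X)) ^ 6) := by
  have t1 := Real.tendsto_log_atTop
  have t2 : Tendsto (fun y : ℝ => Real.log (Real.log y)) atTop atTop := t1.comp t1
  obtain ⟨a, ha⟩ := Pool.Agent.H378R2.M1.exp_dominates (1 / (1 / 100)) 7
  filter_upwards [t2.eventually_ge_atTop a, t1.eventually_gt_atTop 0, eventually_gt_atTop 0,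
    ev_log 10 2 (1 / 100) (by norm_num), t2.eventually_ge_atTop 2, t2.eventually_ge_atTop (Real.log K)]
    with X h1 h2 h3 h4 h5 h6
  refine ⟨?_, h4, ?_⟩
  · rw [Real.rpow_def_of_pos h3]
    apply Real.exp_le_exp.2
    have h4 := ha _ h1
    rw [Real.exp_log h2] at h4
    linarith
  · set l := Real.log (Real.log X) with hl
    have e1 : Real.log X = Real.exp l := (Real.exp_log h2).symm
    rw [e1, ← Real.exp_nat_mul]
    nth_rewrite 1 [← Real.exp_log hK]
    rw [← Real.exp_add]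
    apply Real.exp_le_exp.2
    push_cast
    have e2 : (4 : ℝ) ≤ l ^ 5 := by
      calc (4 : ℝ) ≤ 2 ^ 5 := by norm_num
        _ ≤ l ^ 5 := pow_le_pow_left₀ (by norm_num) h5 5
    calc Real.log K + 3 * l ≤ 4 * l := by linarith
      _ ≤ l ^ 5 * l := mul_le_mul_of_nonneg_right e2 (by linarith)
      _ = l ^ 6 := by ring

theorem TQ_h2 (ζ υ d : ℝ) (hP : PAR ζ υ) (hd0 : 0 ≤ d) (hd : d ≤ 1 / 2) : ∀ᶠ X : ℝ in atTop, ∀ f : ℕ, 1 < f →
    (f : ℝ) ≤ Real.exp ((Real.log (Real.log X)) ^ 6) → SCf X f →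
    TQ ζ υ d X f ≤ 1 / 3 * X * Real.exp (2 * (Real.log (Real.log X)) ^ 6 - (Real.log (Real.log X)) ^ 7) := by
  obtain ⟨g1, g2, g3, g4, g5, g6⟩ := exp_facts d hd0 hd
  filter_upwards [ev_YF, ev_E 2592 (by norm_num)] with X hY hE
  obtain ⟨E1, E2, E3⟩ := hE
  intro f hf1 hfe hsc
  have hX0 : 0 < X := by linarith [hY.X4]
  have hX1 : 1 ≤ X := by linarith [hY.X4]
  have hL1 : 1 ≤ Real.log X := by linarith [hY.L100]
  set L := Real.log X with hL
  set l := Real.log L with hl
  set E := Real.exp (-l ^ 7) with hEdef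
  have hE0 : 0 < E := Real.exp_pos _
  have hEX : 1 ≤ E * X ^ (1 / 100 : ℝ) := by
    have : E * Real.exp (l ^ 7) = 1 := by rw [hEdef, ← Real.exp_add]; simp
    calc (1 : ℝ) = E * Real.exp (l ^ 7) := this.symm
      _ ≤ _ := mul_le_mul_of_nonneg_left E1 hE0.le
  -- the inner sums
  have hin : ∀ k : ℕ, 1 ≤ k → (k : ℝ) ≤ X → ∀ ψ ∈ Prim f, ∀ y : ℝ, X ^ (3 / 10 : ℝ) ≤ y → y ≤ 3 * X →
      ‖TL y f ψ (res k be)‖ ≤ 6 * y * E := by
    intro k hk hkX ψ hψ y hy1 hy2
    have hy3 : 1 ≤ y := le_trans (Real.one_le_rpow hX1 (by norm_num)) hy1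
    have hy0 : 0 < y := by linarith
    have h1 := TL_be y hy3 f ψ k hk
    have h2 := (hsc ψ (mem_Prim ψ hψ)).1 y
      (le_trans (Real.rpow_le_rpow_of_exponent_le hX1 (by norm_num)) hy1) hy2
    have hly : Real.log y ≤ 2 * L := by
      refine (Real.log_le_log hy0 hy2).trans ?_
      exact log_cX X 3 hY.X4 (by norm_num) le_rfl
    have hly0 : 0 ≤ Real.log y := Real.log_nonneg hy3
    have hlk : Real.log k ≤ L := Real.log_le_log (by exact_mod_cast hk) hkX
    have hlk0 : 0 ≤ Real.log k := Real.log_natCast_nonneg k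
    have hsy : 1 ≤ Real.sqrt y := by rw [Real.one_le_sqrt]; exact hy3
    have h3 : Real.log y * (2 * Real.sqrt y * Real.log y + Real.log k) ≤ y * E := by
      have e1 : Real.log y * (2 * Real.sqrt y * Real.log y + Real.log k) ≤ 10 * L ^ 2 * Real.sqrt y := by
        calc Real.log y * (2 * Real.sqrt y * Real.log y + Real.log k) ≤
            (2 * L) * (2 * Real.sqrt y * (2 * L) + L * Real.sqrt y) := by
              gcongr
              nlinarith
          _ = _ := by ring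
      have e2 : X ^ (3 / 20 : ℝ) ≤ Real.sqrt y := by
        apply Real.le_sqrt_of_sq_le
        calc (X ^ (3 / 20 : ℝ)) ^ 2 = X ^ (3 / 10 : ℝ) := by
              rw [← Real.rpow_natCast, ← Real.rpow_mul hX0.le]; norm_num
          _ ≤ y := hy1
      have e3 : X ^ (1 / 100 : ℝ) * X ^ (1 / 100 : ℝ) ≤ Real.sqrt y := by
        refine le_trans ?_ e2
        rw [← Real.rpow_add hX0]
        exact Real.rpow_le_rpow_of_exponent_le hX1 (by norm_num)
      have hp0 : 0 < X ^ (1 / 100 : ℝ) := by positivity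
      calc _ ≤ 10 * L ^ 2 * Real.sqrt y := e1
        _ ≤ X ^ (1 / 100 : ℝ) * Real.sqrt y := mul_le_mul_of_nonneg_right E2 (by positivity)
        _ = 1 * (X ^ (1 / 100 : ℝ) * Real.sqrt y) := by ring
        _ ≤ (E * X ^ (1 / 100 : ℝ)) * (X ^ (1 / 100 : ℝ) * Real.sqrt y) :=
            mul_le_mul_of_nonneg_right hEX (by positivity)
        _ = E * ((X ^ (1 / 100 : ℝ) * X ^ (1 / 100 : ℝ)) * Real.sqrt y) := by ring
        _ ≤ E * (Real.sqrt y * Real.sqrt y) := by
            apply mul_le_mul_of_nonneg_left _ hE0.le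
            exact mul_le_mul_of_nonneg_right e3 (by positivity)
        _ = y * E := by rw [Real.mul_self_sqrt hy0.le]; ring
    change ‖psiLog y f ψ‖ ≤ 5 * y * E at h2
    linarith
  -- the convolution
  have hout : ∀ k : ℕ, 1 ≤ k → (k : ℝ) ≤ X → ∀ ψ ∈ Prim f, ∀ c : ℝ, 1 ≤ c → c ≤ 3 →
      ‖TL (c * X) f ψ (conv (res k (al ζ υ X)) (res k be))‖ ≤ 54 * X * E * L := by
    intro k hk hkX ψ hψ c hc1 hc3
    have hx1 : 1 ≤ c * X := by nlinarith
    rw [TL_conv_eq (c * X) hx1]
    have hterm : ∀ m ∈ Icc 1 ⌊c * X⌋₊, ‖((res k (al ζ υ X) m : ℝ) : ℂ) * ψ (m : ZMod f) *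
        TL (c * X / m) f ψ (res k be)‖ ≤ 18 * X * E * (1 / (m : ℝ)) := by
      intro m hm
      rw [mem_Icc] at hm
      have hm0 : (0 : ℝ) < m := by exact_mod_cast hm.1
      have hm1 : (1 : ℝ) ≤ m := by exact_mod_cast hm.1
      by_cases hz : res k (al ζ υ X) m = 0
      · rw [hz]
        simp only [Complex.ofReal_zero, zero_mul, norm_zero]
        positivity
      · have hs := res_al_supp ζ υ X hP hY k m hz
        have hm7 : (m : ℝ) ≤ X ^ (7 / 10 : ℝ) := (Nat.le_floor_iff (by positivity)).1 hs.2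
        have h1 := hin k hk hkX ψ hψ (c * X / m) (by
          rw [le_div_iff₀ hm0]
          calc X ^ (3 / 10 : ℝ) * m ≤ X ^ (3 / 10 : ℝ) * X ^ (7 / 10 : ℝ) := by gcongr
            _ = X := by rw [← Real.rpow_add hX0]; norm_num
            _ ≤ c * X := by nlinarith) (by
          calc c * X / m ≤ c * X := div_le_self (by positivity) hm1
            _ ≤ 3 * X := mul_le_mul_of_nonneg_right hc3 hX0.le)
        rw [norm_mul, norm_mul, Complex.norm_real, Real.norm_eq_abs]
        have h2 : ‖ψ (m : ZMod f)‖ ≤ 1 := ψ.norm_le_one _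
        have h3 := res_al ζ υ X hP hY k m
        rw [abs_of_nonneg h3.1]
        calc res k (al ζ υ X) m * ‖ψ (m : ZMod f)‖ * ‖TL (c * X / m) f ψ (res k be)‖ ≤
            1 * 1 * (6 * (c * X / m) * E) := by
              gcongr
              exact h3.2
          _ = 6 * (c * X) * E * (1 / m) := by ring
          _ ≤ 6 * (3 * X) * E * (1 / m) := by gcongr
          _ = _ := by ring
    refine (norm_sum_le _ _).trans ((sum_le_sum hterm).trans ?_)
    rw [← mul_sum]
    have hh := harm_le' ⌊c * X⌋₊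
    have hl3 : Real.log (⌊c * X⌋₊ : ℝ) ≤ 2 * L := by
      have hf1 : (1 : ℝ) ≤ (⌊c * X⌋₊ : ℝ) := by
        have : 1 ≤ ⌊c * X⌋₊ := Nat.le_floor (by push_cast; exact hx1)
        exact_mod_cast this
      refine (Real.log_le_log (by linarith) (Nat.floor_le (by positivity))).trans ?_
      exact log_cX X c hY.X4 hc1 hc3
    calc 18 * X * E * ∑ m ∈ Icc 1 ⌊c * X⌋₊, (1 / (m : ℝ)) ≤ 18 * X * E * (3 * L) := by
          apply mul_le_mul_of_nonneg_left _ (by positivity)
          linarith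
      _ = _ := by ring
  have hTG : ∀ k : ℕ, 1 ≤ k → (k : ℝ) ≤ X →
      TG d X (conv (res k (al ζ υ X)) (res k be)) f ≤ f * (216 * X * E * L) := by
    intro k hk hkX
    unfold TG
    apply prim_sum_le f hf1.le _ _ (by positivity)
    intro ψ hψ
    unfold R3
    have a1 := hout k hk hkX ψ hψ _ g1 g4
    have a2 := hout k hk hkX ψ hψ _ g2 g5
    have a3 := hout k hk hkX ψ hψ _ g3 g6
    linarith
  have hw := BV.sum_wtR 0 X (by linarith [hY.X4])
  norm_num at hw
  unfold TQ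
  calc _ ≤ ∑ k ∈ Icc 1 ⌊X ^ (497 / 1000 : ℝ)⌋₊, LSBV.wt 0 k * (f * (216 * X * E * L)) := by
        apply sum_le_sum
        intro k hk
        rw [mem_Icc] at hk
        apply mul_le_mul_of_nonneg_left _ (wt_nonneg _ _)
        apply hTG k hk.1
        have h1 : (k : ℝ) ≤ X ^ (497 / 1000 : ℝ) := (Nat.le_floor_iff (by positivity)).1 hk.2
        refine h1.trans ?_
        calc X ^ (497 / 1000 : ℝ) ≤ X ^ (1 : ℝ) := Real.rpow_le_rpow_of_exponent_le hX1 (by norm_num)
          _ = X := Real.rpow_one X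
    _ = (∑ k ∈ Icc 1 ⌊X ^ (497 / 1000 : ℝ)⌋₊, LSBV.wt 0 k) * (f * (216 * X * E * L)) := by rw [sum_mul]
    _ ≤ (4 * L ^ 2) * (f * (216 * X * E * L)) := mul_le_mul_of_nonneg_right hw (by positivity)
    _ = 1 / 3 * X * ((2592 * L ^ 3) * f * E) := by ring
    _ ≤ 1 / 3 * X * (Real.exp (l ^ 6) * Real.exp (l ^ 6) * E) := by gcongr
    _ = _ := by
        rw [hEdef, ← Real.exp_add, ← Real.exp_add]
        congr 2
        ring

end Pool.Agent.J4H73.CP
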